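import Mathlib

set_option autoImplicit false

/-!
# Solving for the parameters of the representation

The analytic part: a common parameter `p` and a parameter `y j` for each column.
-/

namespace Pool.Agent.L7h81.Pz

open Real Filter Topology Set

section one
variable {C S : ℝ} (hC : 0 < C) (hS : 0 < S) (h1 : C ^ 2 + S ^ 2 = 1) (l : ℕ)

/-- The function whose value at `y j` is the common parameter. -/
noncomputable def FF (C : ℝ) (l : ℕ) (y : ℝ) : ℝ :=
  (1 - (C / cosh y) ^ 2) * cosh ((2 * l + 1) * y) ^ 2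

/-- The same function for nonnegative `y`, extended linearly. -/
noncomputable def FE (C : ℝ) (l : ℕ) (y : ℝ) : ℝ := FF C l (max y 0) + min y 0

theorem FF_zero : FF C l 0 = 1 - C ^ 2 := by simp [FF]

theorem continuous_FF : Continuous (FF C l) := by
  unfold FF
  refine Continuous.mul ?_ (by fun_prop)
  refine continuous_const.sub (Continuous.pow ?_ 2)
  exact continuous_const.div continuous_cosh fun y => (cosh_pos y).ne'

theorem continuous_FE : Continuous (FE C l) := by
  unfold FE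
  exact ((continuous_FF l).comp (by fun_prop)).add (by fun_prop)

include hC h1 hS in
theorem FF_lt {y z : ℝ} (hy : 0 ≤ y) (hyz : y < z) : FF C l y < FF C l z := by
  unfold FF
  have hz : 0 < z := hy.trans_lt hyz
  have a1 : cosh y < cosh z := cosh_lt_cosh.2 (by rwa [abs_of_nonneg hy, abs_of_pos hz])
  have a2 : cosh ((2 * l + 1) * y) < cosh ((2 * l + 1) * z) := by
    refine cosh_lt_cosh.2 ?_
    have : (0 : ℝ) < 2 * l + 1 := by positivity
    rw [abs_of_nonneg (by positivity), abs_of_pos (by positivity)]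
    exact mul_lt_mul_of_pos_left hyz this
  have a3 : C / cosh z < C / cosh y := div_lt_div_of_pos_left hC (cosh_pos y) a1
  have a4 : C / cosh y ≤ C := div_le_self hC.le (one_le_cosh y)
  have a5 : (C / cosh z) ^ 2 < (C / cosh y) ^ 2 := by
    have : 0 < C / cosh z := div_pos hC (cosh_pos z)
    gcongr
  have a6 : (C / cosh y) ^ 2 ≤ C ^ 2 := by
    have : 0 < C / cosh y := div_pos hC (cosh_pos y)
    gcongr
  have a7 : 0 < 1 - (C / cosh y) ^ 2 := by nlinarith [pow_pos hS 2]
  have a8 : cosh ((2 * l + 1) * y) ^ 2 < cosh ((2 * l + 1) * z) ^ 2 := by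
    have := cosh_pos ((2 * l + 1) * y)
    gcongr
  have a9 : 0 < cosh ((2 * l + 1) * y) ^ 2 := by
    have := cosh_pos ((2 * l + 1) * y)
    positivity
  nlinarith

include hC h1 hS in
theorem FE_strictMono : StrictMono (FE C l) := by
  intro y z hyz
  unfold FE
  rcases le_or_gt 0 y with hy | hy
  · rw [max_eq_left hy, min_eq_right hy, max_eq_left (hy.trans hyz.le),
      min_eq_right (hy.trans hyz.le), add_zero, add_zero]
    exact FF_lt hC hS h1 l hy hyz
  · rw [max_eq_right hy.le, min_eq_left hy.le]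
    rcases le_or_gt 0 z with hz | hz
    · rw [max_eq_left hz, min_eq_right hz, add_zero]
      have : FF C l 0 ≤ FF C l z := by
        rcases hz.eq_or_lt with rfl | hz
        · exact le_rfl
        · exact (FF_lt hC hS h1 l le_rfl hz).le
      linarith
    · rw [max_eq_right hz.le, min_eq_left hz.le]; linarith

include hC h1 hS in
theorem FE_surj : Function.Surjective (FE C l) := by
  refine (continuous_FE l).surjective ?_ ?_
  · -- tends to infinity
    have h : Tendsto (fun y : ℝ => S ^ 2 * y) atTop atTop :=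
      Tendsto.const_mul_atTop (by positivity) tendsto_id
    refine tendsto_atTop_mono' _ ?_ h
    filter_upwards [eventually_ge_atTop 1] with y hy
    have hy0 : 0 ≤ y := by linarith
    unfold FE FF
    rw [max_eq_left hy0, min_eq_right hy0, add_zero]
    have a4 : C / cosh y ≤ C := div_le_self hC.le (one_le_cosh y)
    have a6 : (C / cosh y) ^ 2 ≤ C ^ 2 := by
      have : 0 < C / cosh y := div_pos hC (cosh_pos y)
      gcongr
    have a7 : S ^ 2 ≤ 1 - (C / cosh y) ^ 2 := by linarith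
    have a8 : y ≤ cosh ((2 * l + 1) * y) := by
      have b1 : (2 * l + 1) * y + 1 ≤ exp ((2 * l + 1) * y) := add_one_le_exp _
      have b2 : y ≤ (2 * l + 1) * y := by nlinarith [mul_nonneg (Nat.cast_nonneg (α := ℝ) l) hy0]
      have b3 : (2 * l + 1) * y ≤ sinh ((2 * l + 1) * y) := by
        exact self_le_sinh_iff.2 (by positivity)
      have b4 : sinh ((2 * l + 1) * y) ≤ cosh ((2 * l + 1) * y) := (sinh_lt_cosh _).le
      linarith
    have a9 : y ≤ cosh ((2 * l + 1) * y) ^ 2 := by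
      have := one_le_cosh ((2 * l + 1) * y)
      nlinarith
    have a10 : 0 ≤ cosh ((2 * l + 1) * y) ^ 2 := by positivity
    nlinarith [mul_le_mul_of_nonneg_left a9 (sq_nonneg S)]
  · have h : Tendsto (fun y : ℝ => y + FF C l 0) atBot atBot :=
      tendsto_atBot_add_const_right _ _ tendsto_id
    refine tendsto_atBot_mono' _ ?_ h
    filter_upwards [eventually_le_atBot 0] with y hy
    unfold FE
    rw [max_eq_right hy, min_eq_left hy, add_comm]

/-- The inverse function. -/
noncomputable def yy : ℝ → ℝ :=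
  (StrictMono.orderIsoOfSurjective (FE C l) (FE_strictMono hC hS h1 l)
    (FE_surj hC hS h1 l)).symm

theorem continuous_yy : Continuous (yy hC hS h1 l) :=
  (StrictMono.orderIsoOfSurjective (FE C l) (FE_strictMono hC hS h1 l)
    (FE_surj hC hS h1 l)).symm.continuous

theorem FE_yy (p : ℝ) : FE C l (yy hC hS h1 l p) = p :=
  (StrictMono.orderIsoOfSurjective (FE C l) (FE_strictMono hC hS h1 l)
    (FE_surj hC hS h1 l)).apply_symm_apply p

theorem yy_pos {p : ℝ} (hp : S ^ 2 < p) : 0 < yy hC hS h1 l p := by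
  rw [← (FE_strictMono hC hS h1 l).lt_iff_lt, FE_yy]
  unfold FE
  rw [max_self, min_self, FF_zero]
  linarith

theorem FF_yy {p : ℝ} (hp : S ^ 2 < p) : FF C l (yy hC hS h1 l p) = p := by
  have h := FE_yy hC hS h1 l p
  have h' := (yy_pos hC hS h1 l hp).le
  unfold FE at h
  rwa [max_eq_left h', min_eq_right h', add_zero] at h

end one

/-- `tanh (m y) ≤ m tanh y`. -/
theorem sinh_cosh_le (m : ℕ) {y : ℝ} (hy : 0 ≤ y) :
    sinh (m * y) * cosh y ≤ m * (sinh y * cosh (m * y)) := by
  induction m with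
  | zero => simp
  | succ m ih =>
    push_cast
    rw [add_mul, one_mul, sinh_add, cosh_add]
    have a1 : 0 ≤ sinh y := sinh_nonneg_iff.2 hy
    have a2 : 0 ≤ sinh (m * y) := sinh_nonneg_iff.2 (by positivity)
    have a3 := cosh_pos y
    have a4 : 0 ≤ (m + 1) * (sinh y ^ 2 * sinh (m * y)) := by positivity
    nlinarith [mul_le_mul_of_nonneg_right ih a3.le]

theorem sinh_cosh_le' {y w : ℝ} (hy : 0 ≤ y) (hw : y ≤ w) :
    sinh y * cosh w ≤ cosh y * sinh w := by
  have : 0 ≤ sinh (w - y) := sinh_nonneg_iff.2 (by linarith)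
  rw [sinh_sub] at this
  linarith

/-- Half the angle of a column. -/
noncomputable def ang (l : ℕ) (τ y : ℝ) : ℝ :=
  arctan (τ * (sinh y * cosh ((2 * l + 1) * y)) / (cosh y * sinh ((2 * l + 1) * y)))

theorem ang_pos (l : ℕ) {τ y : ℝ} (hτ : 0 < τ) (hy : 0 < y) : 0 < ang l τ y := by
  unfold ang
  rw [arctan_pos]
  have a1 : 0 < sinh y := sinh_pos_iff.2 hy
  have a2 : 0 < sinh ((2 * l + 1) * y) := sinh_pos_iff.2 (by positivity)
  have := cosh_pos y
  have := cosh_pos ((2 * l + 1) * y)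
  positivity

theorem ang_le (l : ℕ) {τ y : ℝ} (hτ : 0 < τ) (hy : 0 < y) : ang l τ y ≤ arctan τ := by
  unfold ang
  apply arctan_le_arctan_iff.2
  have a2 : 0 < sinh ((2 * l + 1) * y) := sinh_pos_iff.2 (by positivity)
  have a3 := cosh_pos y
  rw [div_le_iff₀ (by positivity)]
  refine mul_le_mul_of_nonneg_left ?_ hτ.le
  refine sinh_cosh_le' hy.le ?_
  nlinarith [mul_nonneg (Nat.cast_nonneg (α := ℝ) l) hy.le]

theorem le_ang (l : ℕ) {τ y : ℝ} (hτ : 0 < τ) (hy : 0 < y) :
    arctan (τ / (2 * l + 1)) ≤ ang l τ y := by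
  unfold ang
  apply arctan_le_arctan_iff.2
  have a2 : 0 < sinh ((2 * l + 1) * y) := sinh_pos_iff.2 (by positivity)
  have a3 := cosh_pos y
  rw [div_le_div_iff₀ (by positivity) (by positivity), mul_assoc]
  refine mul_le_mul_of_nonneg_left ?_ hτ.le
  have := sinh_cosh_le (2 * l + 1) hy.le
  push_cast at this
  linarith

theorem solve {ι : Type*} [Fintype ι] (l : ι → ℕ) {C S : ℝ} (hC : 0 < C) (hS : 0 < S)
    (h1 : C ^ 2 + S ^ 2 = 1) (hsum : π < ∑ j, arctan (C / S / (2 * l j + 1))) :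
    ∃ Φ r : ℝ, ∃ y : ι → ℝ, 0 < Φ ∧ 0 < r ∧ Φ ^ 2 + r ^ 2 = 1 ∧ S ^ 2 < Φ ^ 2 ∧
      (∀ j, 0 < y j) ∧
      (∀ j, (1 - (C / cosh (y j)) ^ 2) * cosh ((2 * l j + 1) * y j) ^ 2 = Φ ^ 2) ∧
      ∑ j, ang (l j) (r / Φ) (y j) = π := by
  set Ψ : ℝ → ℝ := fun p => ∑ j, ang (l j) (√(1 - p) / √p) (yy hC hS h1 (l j) p) with hΨ
  have hS1 : S ^ 2 < 1 := by nlinarith
  have hcont : ContinuousOn Ψ (Ioo (S ^ 2) 1) := by
    refine continuousOn_finsetSum _ fun j _ => ?_
    unfold ang
    refine continuous_arctan.comp_continuousOn ?_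
    have hy := (continuous_yy hC hS h1 (l j)).continuousOn (s := Ioo (S ^ 2) 1)
    have hs : ContinuousOn (fun p : ℝ => √(1 - p) / √p) (Ioo (S ^ 2) 1) := by
      refine ContinuousOn.div (by fun_prop) (by fun_prop) fun p hp => ?_
      have : 0 < p := (by positivity : (0 : ℝ) ≤ S ^ 2).trans_lt hp.1
      positivity
    refine ContinuousOn.div ?_ ?_ ?_
    · refine hs.mul (ContinuousOn.mul ?_ ?_)
      · exact continuous_sinh.comp_continuousOn hy
      · exact continuous_cosh.comp_continuousOn (continuousOn_const.mul hy)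
    · refine ContinuousOn.mul ?_ ?_
      · exact continuous_cosh.comp_continuousOn hy
      · exact continuous_sinh.comp_continuousOn (continuousOn_const.mul hy)
    · intro p hp
      have h2 := yy_pos hC hS h1 (l j) hp.1
      have h3 : 0 < sinh ((2 * l j + 1) * yy hC hS h1 (l j) p) := sinh_pos_iff.2 (by positivity)
      have := cosh_pos (yy hC hS h1 (l j) p)
      positivity
  have hτ : ∀ p ∈ Ioo (S ^ 2) 1, 0 < √(1 - p) / √p := by
    intro p hp
    have : 0 < p := (by positivity : (0 : ℝ) ≤ S ^ 2).trans_lt hp.1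
    have : 0 < 1 - p := by linarith [hp.2]
    positivity
  -- a point where the sum is large
  obtain ⟨p0, hp0, hb0⟩ : ∃ p ∈ Ioo (S ^ 2) 1, π < Ψ p := by
    set g : ℝ → ℝ := fun p => ∑ j, arctan (√(1 - p) / √p / (2 * l j + 1)) with hg
    have hgc : ContinuousAt g (S ^ 2) := by
      have hne : √(S ^ 2) ≠ 0 := by positivity
      refine tendsto_finsetSum _ fun j _ => ?_
      refine continuous_arctan.continuousAt.comp (ContinuousAt.div_const ?_ _)
      exact ContinuousAt.div (by fun_prop) (by fun_prop) hne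
    have hgS : g (S ^ 2) = ∑ j, arctan (C / S / (2 * l j + 1)) := by
      have e1 : √(1 - S ^ 2) = C := by
        rw [show 1 - S ^ 2 = C ^ 2 by linarith, sqrt_sq hC.le]
      have e2 : √(S ^ 2) = S := sqrt_sq hS.le
      simp only [hg, e1, e2]
    have hev : ∀ᶠ p in 𝓝[>] (S ^ 2), π < g p := by
      have h3 : π < g (S ^ 2) := by rw [hgS]; exact hsum
      exact (hgc.eventually (lt_mem_nhds h3)).filter_mono nhdsWithin_le_nhds
    obtain ⟨p, hp1, hp2⟩ := (hev.and (Ioo_mem_nhdsGT hS1)).exists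
    refine ⟨p, hp2, hp1.trans_le ?_⟩
    exact Finset.sum_le_sum fun j _ => le_ang (l j) (hτ p hp2) (yy_pos hC hS h1 (l j) hp2.1)
  obtain ⟨p1, hp1, hb1⟩ : ∃ p ∈ Ioo (S ^ 2) 1, Ψ p < π := by
    set g : ℝ → ℝ := fun p => ∑ _j : ι, arctan (√(1 - p) / √p) with hg
    have hgc : ContinuousAt g 1 := by
      have hne : √(1 : ℝ) ≠ 0 := by simp
      refine tendsto_finsetSum _ fun j _ => ?_
      refine continuous_arctan.continuousAt.comp ?_
      exact ContinuousAt.div (by fun_prop) (by fun_prop) hne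
    have hg1 : g 1 = 0 := by simp [hg]
    have hev : ∀ᶠ p in 𝓝[<] (1 : ℝ), g p < π := by
      have h3 : g 1 < π := by rw [hg1]; exact pi_pos
      exact (hgc.eventually (gt_mem_nhds h3)).filter_mono nhdsWithin_le_nhds
    obtain ⟨p, hp1, hp2⟩ := (hev.and (Ioo_mem_nhdsLT hS1)).exists
    refine ⟨p, hp2, lt_of_le_of_lt ?_ hp1⟩
    exact Finset.sum_le_sum fun j _ => ang_le (l j) (hτ p hp2) (yy_pos hC hS h1 (l j) hp2.1)
  obtain ⟨p, hp, hpe⟩ := isPreconnected_Ioo.intermediate_value hp1 hp0 hcont ⟨hb1.le, hb0.le⟩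
  have hp0 : 0 < p := (by positivity : (0 : ℝ) ≤ S ^ 2).trans_lt hp.1
  have hp1 : 0 < 1 - p := by linarith [hp.2]
  refine ⟨√p, √(1 - p), fun j => yy hC hS h1 (l j) p, by positivity, by positivity, ?_, ?_,
    fun j => yy_pos hC hS h1 (l j) hp.1, fun j => ?_, hpe⟩
  · rw [sq_sqrt hp0.le, sq_sqrt hp1.le]; ring
  · rw [sq_sqrt hp0.le]; exact hp.1
  · rw [sq_sqrt hp0.le]
    exact FF_yy hC hS h1 (l j) hp.1

end Pool.Agent.L7h81.Pz
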