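import Pool.Agent.L7h81.Pz.Column
import Pool.Agent.L7h81.Pz.Solve

set_option autoImplicit false

/-!
# The representation of a pretzel link group in the group of lifts

The meridians go to lifts of rotations by `2 π / n`; their `n`-th powers are the translation by one.
-/

namespace Pool.Agent.L7h81.Pz

open Matrix CircleDeg1Lift

/-- Pairs of an element of `SL(2, ℝ)` and a lift of it. -/
def Lp : Subgroup (CircleDeg1Liftˣ × SLR) where
  carrier := {x | Lifts x.1 (x.2 : Matrix (Fin 2) (Fin 2) ℝ)}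
  one_mem' := lifts_one
  mul_mem' := fun {a b} ha hb => by
    have := Lifts.mul ha hb
    exact this
  inv_mem' := fun {a} ha => by
    refine Lifts.inv ha ?_
    have : (a.2⁻¹ * a.2 : SLR) = 1 := inv_mul_cancel _
    exact congrArg Subtype.val this

theorem column_rel {C h ρ : ℝ} (H : C ^ 2 + h ^ 2 - ρ ^ 2 = 1) {Φ r : ℝ}
    (HΦ : Φ ^ 2 + r ^ 2 = 1) (hC0 : 0 < C) (hr : 0 < r) (hΦ : 0 < Φ) (hh : h * r = C * Φ)
    (hρ : 0 < ρ) (l : ℕ) {y : ℝ} (hy : 0 < y)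
    (heq : (1 - (C / Real.cosh y) ^ 2) * Real.cosh ((2 * l + 1) * y) ^ 2 = Φ ^ 2) :
    (BB C h ρ H (ang l (r / Φ) y) * (BB C h ρ H (-ang l (r / Φ) y))⁻¹) ^ (-(l : ℤ)) *
      BB C h ρ H (-ang l (r / Φ) y) *
      (BB C h ρ H (ang l (r / Φ) y) * (BB C h ρ H (-ang l (r / Φ) y))⁻¹) ^ (l : ℤ) *
      BB C h ρ H (ang l (r / Φ) y) = GG Φ r HΦ := by
  set w := (2 * l + 1) * y with hw
  set β := ang l (r / Φ) y with hβ
  have hw0 : 0 < w := by rw [hw]; positivity
  have hcy := Real.cosh_pos y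
  have hcw := Real.cosh_pos w
  have hsw : 0 < Real.sinh w := Real.sinh_pos_iff.2 hw0
  have hsy : 0 < Real.sinh y := Real.sinh_pos_iff.2 hy
  have hcs := Real.cosh_sq w
  have hcsy := Real.cosh_sq y
  set c := C / Real.cosh y with hc
  set u := c * Φ / r with hu
  set v := Φ * Real.sinh w / (r * Real.cosh w) with hv
  have hur : u * r = c * Φ := by rw [hu]; field_simp
  have hvr : v * r * Real.cosh w = Φ * Real.sinh w := by rw [hv]; field_simp
  have hv0 : 0 < v := by rw [hv]; positivity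
  have k2 : c ^ 2 * Real.cosh w ^ 2 - Real.sinh w ^ 2 = r ^ 2 := by
    linear_combination -heq + hcs - HΦ
  have H' : c ^ 2 + u ^ 2 - v ^ 2 = 1 := by
    have e1 : c ^ 2 + u ^ 2 - v ^ 2 = (c ^ 2 * r ^ 2 * Real.cosh w ^ 2 + c ^ 2 * Φ ^ 2 *
        Real.cosh w ^ 2 - Φ ^ 2 * Real.sinh w ^ 2) / (r ^ 2 * Real.cosh w ^ 2) := by
      rw [hu, hv]; field_simp
    rw [e1, div_eq_one_iff_eq (by positivity)]
    linear_combination (c ^ 2 * Real.cosh w ^ 2 - Real.cosh w ^ 2) * HΦ + (1 : ℝ) * (-heq) +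
      Φ ^ 2 * hcs
  have hcC : Real.cosh y * c = C := by rw [hc]; field_simp
  have hch : Real.cosh y * u = h := by
    have : Real.cosh y * u * r = h * r := by
      rw [mul_assoc, hur, ← mul_assoc, hcC, hh]
    exact mul_right_cancel₀ hr.ne' this
  -- the angle
  set T := r / Φ * (Real.sinh y * Real.cosh w) / (Real.cosh y * Real.sinh w) with hT
  have hβT : β = Real.arctan T := rfl
  have hT' : Real.cosh y * v * T = Real.sinh y := by
    rw [hT, hv]; field_simp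
  have hρ2 : ρ ^ 2 = (Real.cosh y * v) ^ 2 * (1 + T ^ 2) := by
    have e1 : (Real.cosh y * v) ^ 2 * (1 + T ^ 2) =
        Real.cosh y ^ 2 * v ^ 2 + Real.sinh y ^ 2 := by
      rw [← hT']; ring
    rw [e1]
    have e2 : ρ ^ 2 = (Real.cosh y * c) ^ 2 + (Real.cosh y * u) ^ 2 - 1 := by
      rw [hcC, hch]; linarith
    rw [e2]
    linear_combination Real.cosh y ^ 2 * H' + hcsy
  have hcos : 0 < Real.cos β := by rw [hβT]; exact Real.cos_arctan_pos T
  have hcos2 : Real.cos β ^ 2 * (1 + T ^ 2) = 1 := by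
    rw [hβT, Real.cos_sq_arctan]
    have : 0 < 1 + T ^ 2 := by positivity
    field_simp
  have hsin : Real.sin β = T * Real.cos β := by
    have := Real.tan_arctan T
    rw [← hβT, Real.tan_eq_sin_div_cos] at this
    field_simp at this
    linarith
  have h1 : Real.cosh y * v = ρ * Real.cos β := by
    have e1 : (Real.cosh y * v) ^ 2 = (ρ * Real.cos β) ^ 2 := by
      rw [mul_pow ρ, hρ2]
      linear_combination -(Real.cosh y * v) ^ 2 * hcos2
    have e2 : 0 < Real.cosh y * v := by positivity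
    have e3 : 0 < ρ * Real.cos β := by positivity
    exact (sq_eq_sq₀ e2.le e3.le).1 e1
  have h2 : Real.sinh y = ρ * Real.sin β := by
    rw [hsin, ← hT', h1]; ring
  refine column H H' hcC hch h1 h2 l rfl ?_
  exact gamma_eq H' hr.ne' HΦ hur hvr heq

theorem column_any {C h ρ : ℝ} (H : C ^ 2 + h ^ 2 - ρ ^ 2 = 1) {Φ r : ℝ}
    (HΦ : Φ ^ 2 + r ^ 2 = 1) (l : ℕ) {β : ℝ}
    (hrel : (BB C h ρ H β * (BB C h ρ H (-β))⁻¹) ^ (-(l : ℤ)) * BB C h ρ H (-β) *
      (BB C h ρ H β * (BB C h ρ H (-β))⁻¹) ^ (l : ℤ) * BB C h ρ H β = GG Φ r HΦ) (α : ℝ) :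
    (BB C h ρ H α * (BB C h ρ H (α - 2 * β))⁻¹) ^ (-(l : ℤ)) * BB C h ρ H (α - 2 * β) *
      (BB C h ρ H α * (BB C h ρ H (α - 2 * β))⁻¹) ^ (l : ℤ) * BB C h ρ H α = GG Φ r HΦ := by
  set R := rotS ((α - β) / 2) with hR
  have e1 : BB C h ρ H α = R * BB C h ρ H β * R⁻¹ := by
    rw [hR, ← BB_add]; congr 1; ring
  have e2 : BB C h ρ H (α - 2 * β) = R * BB C h ρ H (-β) * R⁻¹ := by
    rw [hR, ← BB_add]; congr 1; ring
  set a := BB C h ρ H β
  set b := BB C h ρ H (-β)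
  have e3 : R * a * R⁻¹ * (R * b * R⁻¹)⁻¹ = R * (a * b⁻¹) * R⁻¹ := by group
  rw [e1, e2, e3, conj_zpow, conj_zpow]
  calc R * (a * b⁻¹) ^ (-(l : ℤ)) * R⁻¹ * (R * b * R⁻¹) * (R * (a * b⁻¹) ^ (l : ℤ) * R⁻¹) *
        (R * a * R⁻¹) = R * ((a * b⁻¹) ^ (-(l : ℤ)) * b * (a * b⁻¹) ^ (l : ℤ) * a) * R⁻¹ := by
        group
    _ = R * GG Φ r HΦ * R⁻¹ := by rw [hrel]
    _ = GG Φ r HΦ := by rw [hR, GG_comm, mul_inv_cancel_right]

/-- Two neighbouring columns with the same element `Γ` satisfy the relation of the link group. -/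
theorem two_columns {G : Type*} [Group G] {a b c Γ : G} {l m : ℤ}
    (h1 : (a * b⁻¹) ^ (-l) * b * (a * b⁻¹) ^ l * a = Γ)
    (h2 : (b * c⁻¹) ^ (-m) * c * (b * c⁻¹) ^ m * b = Γ) :
    (a * b⁻¹) ^ (-l - 1) * a * (a * b⁻¹) ^ (l + 1) =
      (b * c⁻¹) ^ (-m) * c * (b * c⁻¹) ^ m := by
  have e1 : (a * b⁻¹) ^ (-l - 1) * a * (a * b⁻¹) ^ (l + 1) =
      (a * b⁻¹) ^ (-l) * b * (a * b⁻¹) ^ l * a * b⁻¹ := by
    rw [_root_.zpow_add_one, _root_.zpow_sub_one]; group
  rw [e1, h1, ← h2]; group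

/-- The element whose conjugates are the images of the meridians. -/
noncomputable def rt (n : ℕ) : CircleDeg1Liftˣ := translate (Multiplicative.ofAdd ((n : ℝ)⁻¹))

theorem rt_pow {n : ℕ} (hn : n ≠ 0) : rt n ^ n = translate (Multiplicative.ofAdd 1) := by
  unfold rt
  rw [translate_pow]
  congr 2
  field_simp

theorem translate_one_comm (g : CircleDeg1Liftˣ) :
    g * translate (Multiplicative.ofAdd 1) = translate (Multiplicative.ofAdd 1) * g := by
  ext x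
  show (g : CircleDeg1Lift) (translate (Multiplicative.ofAdd 1) x) =
    translate (Multiplicative.ofAdd 1) ((g : CircleDeg1Lift) x)
  rw [translate_apply, translate_apply, map_one_add]

theorem lift_exists {n : ℕ} (hn : n ≠ 0) {h ρ : ℝ}
    (H : Real.cos (Real.pi / n) ^ 2 + h ^ 2 - ρ ^ 2 = 1) (hS : 0 < Real.sin (Real.pi / n))
    (hρ : 0 < ρ) (hh : 0 < h) (α : ℝ) :
    ∃ u : CircleDeg1Liftˣ, (u * rt n * u⁻¹, BB (Real.cos (Real.pi / n)) h ρ H α) ∈ Lp := by
  set C := Real.cos (Real.pi / n) with hC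
  set S := Real.sin (Real.pi / n) with hSd
  have hCS : S ^ 2 + C ^ 2 = 1 := Real.sin_sq_add_cos_sq _
  have hprod : (h + ρ) * (h - ρ) = S ^ 2 := by linear_combination H - hCS
  have hs : 0 < (h + ρ) / S := by positivity
  set b := √((h + ρ) / S) with hb
  have hb0 : 0 < b := Real.sqrt_pos.2 hs
  have hb2 : b ^ 2 * S = h + ρ := by
    rw [hb, Real.sq_sqrt hs.le]; field_simp
  have hb3 : (b⁻¹) ^ 2 * S = h - ρ := by
    have : b ^ 2 * ((b⁻¹) ^ 2 * S) = b ^ 2 * (h - ρ) := by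
      have e : b ^ 2 * ((b⁻¹) ^ 2 * S) = S := by field_simp
      rw [e]
      have : S * S = S * (b ^ 2 * (h - ρ)) := by
        calc S * S = (h + ρ) * (h - ρ) := by rw [hprod]; ring
          _ = _ := by rw [← hb2]; ring
      exact mul_left_cancel₀ hS.ne' this
    exact mul_left_cancel₀ (by positivity) this
  have key : BB C h ρ H (-(Real.pi / 2)) = diaS hb0 * rotS (Real.pi / n) * (diaS hb0)⁻¹ := by
    rw [eq_mul_inv_iff_mul_eq]
    apply Subtype.ext
    show !![_, _; _, _] * dia b = dia b * rot (Real.pi / n)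
    rw [dia, rot, Matrix.mul_fin_two, Matrix.mul_fin_two, ← hC, ← hSd, Real.cos_neg, Real.sin_neg,
      Real.cos_pi_div_two, Real.sin_pi_div_two]
    ext i j
    fin_cases i <;> fin_cases j <;> simp
    · ring
    · have : b⁻¹ * (h + ρ) = b * S := by rw [← hb2]; field_simp
      linear_combination -this
    · have : (h - ρ) * b = b⁻¹ * S := by rw [← hb3]; field_simp
      linear_combination this
    · ring
  set e := (α + Real.pi / 2) / 2 with he
  have key2 : BB C h ρ H α = rotS e * BB C h ρ H (-(Real.pi / 2)) * (rotS e)⁻¹ := by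
    have := BB_add H (-(Real.pi / 2)) (α + Real.pi / 2)
    rw [← he] at this
    rw [← this]; congr 1; ring
  set ue := (translate (Multiplicative.ofAdd (e / Real.pi)) : CircleDeg1Liftˣ) with hue
  have m1 : (ue, rotS e) ∈ Lp := lifts_rot e
  have m2 : (diaUnit hb0, diaS hb0) ∈ Lp := lifts_dia hb0
  have m3 : (rt n, rotS (Real.pi / n)) ∈ Lp := by
    have h4 := lifts_rot (Real.pi / n)
    have h5 : Real.pi / n / Real.pi = (n : ℝ)⁻¹ := by
      have := Real.pi_ne_zero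
      field_simp
    rw [h5] at h4
    exact h4
  refine ⟨ue * diaUnit hb0, ?_⟩
  have m4 := Lp.mul_mem (Lp.mul_mem (Lp.mul_mem m1 m2) m3) (Lp.inv_mem (Lp.mul_mem m1 m2))
  rw [key2, key]
  convert m4 using 1
  apply Prod.ext
  · rfl
  · show rotS e * (diaS hb0 * rotS (Real.pi / n) * (diaS hb0)⁻¹) * (rotS e)⁻¹ =
      rotS e * diaS hb0 * rotS (Real.pi / n) * (rotS e * diaS hb0)⁻¹
    group

theorem scalar_of_lifts_one {M : Matrix (Fin 2) (Fin 2) ℝ} (h : Lifts 1 M) :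
    M 0 1 = 0 ∧ M 1 0 = 0 ∧ M 0 0 = M 1 1 := by
  have hp := Real.pi_pos
  obtain ⟨c, hc, h1⟩ := h 0
  obtain ⟨d, hd, h2⟩ := h (1 / 2)
  obtain ⟨e, he, h3⟩ := h (1 / 4)
  have a1 := congrFun h1 1
  have a2 := congrFun h2 0
  have a3 := congrFun h3 0
  have a4 := congrFun h3 1
  have e2 : Real.pi * (1 / 2) = Real.pi / 2 := by ring
  have e4 : Real.pi * (1 / 4) = Real.pi / 4 := by ring
  simp [vec, Matrix.mulVec, dotProduct, Fin.sum_univ_two] at a1 a2 a3 a4
  have e2' : Real.pi * 2⁻¹ = Real.pi / 2 := by ring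
  have e4' : Real.pi * 4⁻¹ = Real.pi / 4 := by ring
  rw [e2'] at a2
  rw [e4'] at a3 a4
  simp at a2 a3 a4
  have hs : (0 : ℝ) < √2 := by positivity
  rw [a1, zero_mul, zero_add] at a4
  rw [a2, zero_mul, add_zero] at a3
  refine ⟨a2, a1, ?_⟩
  have := mul_right_cancel₀ (by positivity) (a3.trans a4.symm)
  exact this

theorem Lp_zpow {f : CircleDeg1Liftˣ} {M : SLR} (h : (f, M) ∈ Lp) (m : ℤ) :
    (f ^ m, M ^ m) ∈ Lp := Lp.zpow_mem h m

theorem Lp_mul {f g : CircleDeg1Liftˣ} {M N : SLR} (h : (f, M) ∈ Lp) (h' : (g, N) ∈ Lp) :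
    (f * g, M * N) ∈ Lp := Lp.mul_mem h h'

theorem Lp_inv {f : CircleDeg1Liftˣ} {M : SLR} (h : (f, M) ∈ Lp) : (f⁻¹, M⁻¹) ∈ Lp := by
  have := Lp.inv_mem h
  rwa [Prod.inv_mk] at this

theorem Lp_unique {f g : CircleDeg1Liftˣ} {M : SLR} (hf : (f, M) ∈ Lp) (hg : (g, M) ∈ Lp)
    (hτ : translationNumber (f : CircleDeg1Lift) = translationNumber (g : CircleDeg1Lift)) :
    f = g :=
  Lifts.unique (M := (M : Matrix (Fin 2) (Fin 2) ℝ)) hf hg hτ

theorem tau_conj (v w : CircleDeg1Liftˣ) :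
    translationNumber ((v * w * v⁻¹ : CircleDeg1Liftˣ) : CircleDeg1Lift) =
      translationNumber (w : CircleDeg1Lift) := by
  rw [Units.val_mul, Units.val_mul]
  exact translationNumber_conj_eq v w

theorem lift_rel {a b c : CircleDeg1Liftˣ} {A B D : SLR} (ha : (a, A) ∈ Lp) (hb : (b, B) ∈ Lp)
    (hc : (c, D) ∈ Lp)
    (hτ : translationNumber (a : CircleDeg1Lift) = translationNumber (c : CircleDeg1Lift))
    {l m : ℤ} (hmat : (A * B⁻¹) ^ (-l - 1) * A * (A * B⁻¹) ^ (l + 1) =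
      (B * D⁻¹) ^ (-m) * D * (B * D⁻¹) ^ m) :
    (a * b⁻¹) ^ (-l - 1) * a * (a * b⁻¹) ^ (l + 1) *
      ((b * c⁻¹) ^ (-m) * c⁻¹ * (b * c⁻¹) ^ m) = 1 := by
  have hP := Lp_mul ha (Lp_inv hb)
  have hQ := Lp_mul hb (Lp_inv hc)
  set P := a * b⁻¹
  set Q := b * c⁻¹
  have m1 := Lp_mul (Lp_mul (Lp_zpow hP (-l - 1)) ha) (Lp_zpow hP (l + 1))
  have m2 := Lp_mul (Lp_mul (Lp_zpow hQ (-m)) hc) (Lp_zpow hQ m)
  rw [← hmat] at m2
  have c1 : P ^ (-l - 1) * a * P ^ (l + 1) = P ^ (-l - 1) * a * (P ^ (-l - 1))⁻¹ := by group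
  have c2 : Q ^ (-m) * c * Q ^ m = Q ^ (-m) * c * (Q ^ (-m))⁻¹ := by group
  have heq : P ^ (-l - 1) * a * P ^ (l + 1) = Q ^ (-m) * c * Q ^ m := by
    refine Lp_unique m1 m2 ?_
    rw [c1, c2, tau_conj, tau_conj, hτ]
  rw [heq]; group

theorem rep {k : ℕ} (hk : 0 < k) [Fintype (ZMod k)] (n : ℕ) (l : ZMod k → ℕ)
    (hsum : Real.pi < ∑ j, Real.arctan (Real.cot (Real.pi / n) / (2 * l j + 1))) :
    ∃ a : ZMod k → CircleDeg1Liftˣ,
      (∀ j, (a j * (a (j + 1))⁻¹) ^ (-(l j : ℤ) - 1) * a j * (a j * (a (j + 1))⁻¹) ^ ((l j : ℤ) + 1) *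
        ((a (j + 1) * (a (j + 1 + 1))⁻¹) ^ (-(l (j + 1) : ℤ)) * (a (j + 1 + 1))⁻¹ *
        (a (j + 1) * (a (j + 1 + 1))⁻¹) ^ (l (j + 1) : ℤ)) = 1) ∧
      (∀ j, a j ^ n = translate (Multiplicative.ofAdd 1)) ∧ a 0 ≠ a 1 := by
  have : NeZero k := ⟨hk.ne'⟩
  have hn : 3 ≤ n := by
    by_contra hlt
    have h0 : Real.cot (Real.pi / n) = 0 := by
      rw [Real.cot_eq_cos_div_sin]
      have : n = 0 ∨ n = 1 ∨ n = 2 := by omega
      rcases this with rfl | rfl | rfl <;> simp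
    simp only [h0, zero_div, Real.arctan_zero, Finset.sum_const_zero] at hsum
    exact absurd hsum (not_lt.2 Real.pi_pos.le)
  have hn0 : n ≠ 0 := by omega
  have hnr : (3 : ℝ) ≤ n := by exact_mod_cast hn
  have hpn : 0 < Real.pi / n := div_pos Real.pi_pos (by linarith)
  have hpn2 : Real.pi / n < Real.pi / 2 := by
    have := Real.pi_pos
    apply div_lt_div_of_pos_left this (by norm_num) (by linarith)
  set C := Real.cos (Real.pi / n) with hCd
  set S := Real.sin (Real.pi / n) with hSd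
  have hC : 0 < C := Real.cos_pos_of_mem_Ioo ⟨by linarith, hpn2⟩
  have hS : 0 < S := Real.sin_pos_of_pos_of_lt_pi hpn (by linarith [Real.pi_pos])
  have hCS : C ^ 2 + S ^ 2 = 1 := Real.cos_sq_add_sin_sq _
  have hcot : Real.cot (Real.pi / n) = C / S := Real.cot_eq_cos_div_sin _
  rw [hcot] at hsum
  obtain ⟨Φ, r, y, hΦ, hr, hΦr, hSΦ, hy, hF, hang⟩ := solve l hC hS hCS hsum
  set h := C * Φ / r with hh
  have hhr : h * r = C * Φ := by rw [hh]; field_simp
  have hh0 : 0 < h := by rw [hh]; positivity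
  have hhS : h ^ 2 - S ^ 2 = (Φ ^ 2 - S ^ 2) / r ^ 2 := by
    rw [eq_div_iff (by positivity)]
    have : h ^ 2 * r ^ 2 = C ^ 2 * Φ ^ 2 := by rw [← mul_pow, hhr, mul_pow]
    linear_combination this + Φ ^ 2 * hCS - S ^ 2 * hΦr
  have hpos : 0 < h ^ 2 - S ^ 2 := by
    rw [hhS]
    have : 0 < Φ ^ 2 - S ^ 2 := by linarith
    positivity
  set ρ := √(h ^ 2 - S ^ 2) with hρd
  have hρ : 0 < ρ := Real.sqrt_pos.2 hpos
  have hρ2 : ρ ^ 2 = h ^ 2 - S ^ 2 := Real.sq_sqrt hpos.le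
  have H : C ^ 2 + h ^ 2 - ρ ^ 2 = 1 := by rw [hρ2]; linarith
  set β : ZMod k → ℝ := fun j => ang (l j) (r / Φ) (y j) with hβ
  set α : ℕ → ℝ := fun i => -(2 * ∑ i' ∈ Finset.range i, β (i' : ZMod k)) with hα
  set A : ZMod k → SLR := fun j => BB C h ρ H (α j.val) with hA
  have hsumβ : ∑ i' ∈ Finset.range k, β (i' : ZMod k) = Real.pi := by
    rw [← hang]
    refine Finset.sum_nbij' (fun i => (i : ZMod k)) (fun j => j.val) ?_ ?_ ?_ ?_ ?_
    · intro i _; exact Finset.mem_univ _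
    · intro j _; exact Finset.mem_range.2 (ZMod.val_lt j)
    · intro i hi; exact ZMod.val_cast_of_lt (Finset.mem_range.1 hi)
    · intro j _; exact ZMod.natCast_zmod_val j
    · intro i _; rfl
  have hnext : ∀ j, A (j + 1) = BB C h ρ H (α j.val - 2 * β j) := by
    intro j
    have e1 : α (j.val + 1) = α j.val - 2 * β j := by
      simp only [hα]
      rw [Finset.sum_range_succ, ZMod.natCast_zmod_val]; ring
    rw [← e1]
    have e2 : (j + 1).val = (j.val + 1) % k := by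
      have : (j + 1) = ((j.val + 1 : ℕ) : ZMod k) := by
        push_cast; rw [ZMod.natCast_zmod_val]
      rw [this, ZMod.val_natCast]
    simp only [hA]
    rw [e2]
    rcases (Nat.succ_le_of_lt (ZMod.val_lt j)).lt_or_eq with hlt | heq
    · rw [Nat.mod_eq_of_lt hlt]
    · have e3 : j.val + 1 = k := heq
      rw [e3, Nat.mod_self]
      have e4 : α k = α 0 - 2 * Real.pi := by
        simp only [hα]; rw [hsumβ]; simp
      rw [e4, BB_sub_two_pi]
  have hcol : ∀ j, (A j * (A (j + 1))⁻¹) ^ (-(l j : ℤ)) * A (j + 1) *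
      (A j * (A (j + 1))⁻¹) ^ (l j : ℤ) * A j = GG Φ r hΦr := by
    intro j
    rw [hnext j]
    exact column_any H hΦr (l j) (column_rel H hΦr hC hr hΦ hhr hρ (l j) (hy j) (hF j)) _
  have hmat : ∀ j, (A j * (A (j + 1))⁻¹) ^ (-(l j : ℤ) - 1) * A j *
      (A j * (A (j + 1))⁻¹) ^ ((l j : ℤ) + 1) =
      (A (j + 1) * (A (j + 1 + 1))⁻¹) ^ (-(l (j + 1) : ℤ)) * A (j + 1 + 1) *
      (A (j + 1) * (A (j + 1 + 1))⁻¹) ^ (l (j + 1) : ℤ) :=
    fun j => two_columns (hcol j) (hcol (j + 1))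
  choose u hu using fun j : ZMod k => lift_exists hn0 H hS hρ hh0 (α j.val)
  set a : ZMod k → CircleDeg1Liftˣ := fun j => u j * rt n * (u j)⁻¹ with ha
  have hLa : ∀ j, (a j, A j) ∈ Lp := hu
  have hτa : ∀ j, translationNumber ((a j : CircleDeg1Liftˣ) : CircleDeg1Lift) =
      translationNumber ((rt n : CircleDeg1Liftˣ) : CircleDeg1Lift) := fun j => tau_conj _ _
  refine ⟨a, fun j => ?_, fun j => ?_, ?_⟩
  · exact lift_rel (hLa j) (hLa (j + 1)) (hLa (j + 1 + 1)) ((hτa j).trans (hτa (j + 1 + 1)).symm)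
      (hmat j)
  · show (u j * rt n * (u j)⁻¹) ^ n = _
    rw [conj_pow, rt_pow hn0, translate_one_comm, mul_inv_cancel_right]
  · intro h01
    have m : (a 0 * (a 1)⁻¹, A 0 * (A 1)⁻¹) ∈ Lp := Lp_mul (hLa 0) (Lp_inv (hLa 1))
    rw [h01, mul_inv_cancel] at m
    have m' : Lifts 1 ((A 0 * (A 1)⁻¹ : SLR) : Matrix (Fin 2) (Fin 2) ℝ) := m
    obtain ⟨s1, s2, s3⟩ := scalar_of_lifts_one m'
    set M := ((A 0 * (A 1)⁻¹ : SLR) : Matrix (Fin 2) (Fin 2) ℝ) with hM
    have hMA : M * (A 1 : Matrix (Fin 2) (Fin 2) ℝ) = (A 0 : Matrix (Fin 2) (Fin 2) ℝ) := by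
      have : (A 0 * (A 1)⁻¹) * A 1 = A 0 := by group
      exact congrArg Subtype.val this
    have hA1 : A 1 = BB C h ρ H (α 0 - 2 * β 0) := by
      have := hnext 0
      rwa [zero_add, ZMod.val_zero] at this
    have hα0 : α 0 = 0 := by simp [hα]
    have hA0 : A 0 = BB C h ρ H 0 := by
      simp only [hA]; rw [ZMod.val_zero, hα0]
    have hA0v : (A 0 : Matrix (Fin 2) (Fin 2) ℝ) = !![C + ρ, -h; h, C - ρ] := by
      rw [hA0]
      show !![_, _; _, _] = !![_, _; _, _]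
      simp
    have hA1v : (A 1 : Matrix (Fin 2) (Fin 2) ℝ) = !![C + ρ * Real.cos (2 * β 0),
        -h - ρ * Real.sin (2 * β 0); h - ρ * Real.sin (2 * β 0),
        C - ρ * Real.cos (2 * β 0)] := by
      rw [hA1, hα0, zero_sub]
      show !![_, _; _, _] = !![_, _; _, _]
      rw [Real.cos_neg, Real.sin_neg]
      simp [sub_eq_add_neg]
    rw [hA0v, hA1v] at hMA
    have q00 := congrFun (congrFun hMA 0) 0
    have q11 := congrFun (congrFun hMA 1) 1
    simp [Matrix.mul_apply, Fin.sum_univ_two, s1, s2] at q00 q11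
    rw [← s3] at q11
    have hM1 : M 0 0 = 1 := by
      have : M 0 0 * (2 * C) = 1 * (2 * C) := by linear_combination q00 + q11
      exact mul_right_cancel₀ (by positivity) this
    rw [hM1] at q00
    have hcos : Real.cos (2 * β 0) = 1 := by
      have : ρ * Real.cos (2 * β 0) = ρ * 1 := by linarith
      exact mul_left_cancel₀ hρ.ne' this
    have hβ0 : 0 < β 0 := ang_pos (l 0) (by positivity) (hy 0)
    have hβ1 : β 0 < Real.pi / 2 := Real.arctan_lt_pi_div_two _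
    have := Real.cos_lt_cos_of_nonneg_of_le_pi (x := 0) (y := 2 * β 0) le_rfl (by linarith)
      (by linarith)
    rw [Real.cos_zero, hcos] at this
    exact lt_irrefl _ this

end Pool.Agent.L7h81.Pz
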