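import Pool.Agent.L7h81.Pz.Lift

set_option autoImplicit false

/-!
# Elliptic elements on a circle and the columns of a pretzel link

`BB C h ρ H α` is an elliptic (for `|C| < 1`) element of `SL(2, ℝ)` of trace `2 C` whose fixed point in
the hyperbolic plane lies on a circle; `α` is the angle.  For a column with `2 l + 1` crossings the
two meridians at its top are two such elements.
-/

namespace Pool.Agent.L7h81.Pz

open Matrix CircleDeg1Lift

/-- `SL(2, ℝ)`. -/
abbrev SLR : Type := Matrix.SpecialLinearGroup (Fin 2) ℝ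

/-- Rotation as an element of `SL(2, ℝ)`. -/
noncomputable def rotS (t : ℝ) : SLR := ⟨rot t, by
  rw [rot, Matrix.det_fin_two_of]
  linear_combination Real.sin_sq_add_cos_sq t⟩

/-- Diagonal elements of `SL(2, ℝ)`. -/
noncomputable def diaS {a : ℝ} (ha : 0 < a) : SLR := ⟨dia a, by
  rw [dia, Matrix.det_fin_two_of]
  field_simp; ring⟩

theorem rotS_add (s t : ℝ) : rotS (s + t) = rotS s * rotS t := by
  apply Subtype.ext
  show rot (s + t) = rot s * rot t
  simp only [rot, Matrix.mul_fin_two, Real.cos_add, Real.sin_add]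
  ext i j
  fin_cases i <;> fin_cases j <;> simp <;> ring

theorem rotS_zero : rotS 0 = 1 := by
  apply Subtype.ext
  show rot 0 = 1
  ext i j
  fin_cases i <;> fin_cases j <;> simp [rot]

theorem rotS_neg (t : ℝ) : rotS (-t) = (rotS t)⁻¹ := by
  rw [eq_inv_iff_mul_eq_one, ← rotS_add, neg_add_cancel, rotS_zero]

/-- An element of trace `2 C` whose fixed point lies on a circle, at the angle `α`. -/
noncomputable def BB (C h ρ : ℝ) (H : C ^ 2 + h ^ 2 - ρ ^ 2 = 1) (α : ℝ) : SLR :=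
  ⟨!![C + ρ * Real.cos α, -h + ρ * Real.sin α; h + ρ * Real.sin α, C - ρ * Real.cos α], by
    rw [Matrix.det_fin_two_of]
    linear_combination H - ρ ^ 2 * Real.sin_sq_add_cos_sq α⟩

theorem BB_add {C h ρ : ℝ} (H : C ^ 2 + h ^ 2 - ρ ^ 2 = 1) (α δ : ℝ) :
    BB C h ρ H (α + δ) = rotS (δ / 2) * BB C h ρ H α * (rotS (δ / 2))⁻¹ := by
  rw [eq_mul_inv_iff_mul_eq]
  apply Subtype.ext
  show !![C + ρ * Real.cos (α + δ), -h + ρ * Real.sin (α + δ); h + ρ * Real.sin (α + δ),
      C - ρ * Real.cos (α + δ)] * rot (δ / 2) =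
    rot (δ / 2) * !![C + ρ * Real.cos α, -h + ρ * Real.sin α; h + ρ * Real.sin α,
      C - ρ * Real.cos α]
  have hδ : δ = δ / 2 + δ / 2 := by ring
  set e := δ / 2 with he
  rw [hδ]
  have h1 := Real.sin_sq_add_cos_sq e
  simp only [rot, Matrix.mul_fin_two]
  rw [← add_assoc α e e]
  simp only [Real.cos_add, Real.sin_add]
  ext i j
  fin_cases i <;> fin_cases j <;> simp
  · linear_combination (ρ * Real.cos α * Real.cos e - ρ * Real.sin α * Real.sin e) * h1
  · linear_combination (ρ * Real.cos α * Real.sin e + ρ * Real.sin α * Real.cos e) * h1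
  · linear_combination (ρ * Real.cos α * Real.sin e + ρ * Real.sin α * Real.cos e) * h1
  · linear_combination (-ρ * Real.cos α * Real.cos e + ρ * Real.sin α * Real.sin e) * h1

theorem BB_sub_two_pi {C h ρ : ℝ} (H : C ^ 2 + h ^ 2 - ρ ^ 2 = 1) (α : ℝ) :
    BB C h ρ H (α - 2 * Real.pi) = BB C h ρ H α := by
  apply Subtype.ext
  show !![_, _; _, _] = !![_, _; _, _]
  rw [Real.cos_sub_two_pi, Real.sin_sub_two_pi]

/-- The hyperbolic element `cosh t + sinh t * E`. -/
noncomputable def YY (c u v : ℝ) (H : c ^ 2 + u ^ 2 - v ^ 2 = 1) (t : ℝ) : SLR :=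
  ⟨!![Real.cosh t - Real.sinh t * u, Real.sinh t * (c + v); Real.sinh t * (c - v),
      Real.cosh t + Real.sinh t * u], by
    rw [Matrix.det_fin_two_of]
    linear_combination Real.cosh_sq t - Real.sinh t ^ 2 * H⟩

/-- The elliptic element `K`. -/
noncomputable def KK (c u v : ℝ) (H : c ^ 2 + u ^ 2 - v ^ 2 = 1) : SLR :=
  ⟨!![c + v, -u; u, c - v], by
    rw [Matrix.det_fin_two_of]
    linear_combination H⟩

theorem YY_add {c u v : ℝ} (H : c ^ 2 + u ^ 2 - v ^ 2 = 1) (s t : ℝ) :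
    YY c u v H (s + t) = YY c u v H s * YY c u v H t := by
  apply Subtype.ext
  show !![_, _; _, _] = !![_, _; _, _] * !![_, _; _, _]
  rw [Matrix.mul_fin_two]
  simp only [Real.cosh_add, Real.sinh_add]
  ext i j
  fin_cases i <;> fin_cases j <;> simp
  · linear_combination -(Real.sinh s * Real.sinh t) * H
  · ring
  · ring
  · linear_combination -(Real.sinh s * Real.sinh t) * H

theorem YY_zero {c u v : ℝ} (H : c ^ 2 + u ^ 2 - v ^ 2 = 1) : YY c u v H 0 = 1 := by
  apply Subtype.ext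
  show !![_, _; _, _] = (1 : Matrix (Fin 2) (Fin 2) ℝ)
  ext i j
  fin_cases i <;> fin_cases j <;> simp

theorem YY_neg {c u v : ℝ} (H : c ^ 2 + u ^ 2 - v ^ 2 = 1) (t : ℝ) :
    YY c u v H (-t) = (YY c u v H t)⁻¹ := by
  rw [eq_inv_iff_mul_eq_one, ← YY_add, neg_add_cancel, YY_zero]

theorem YY_nat {c u v : ℝ} (H : c ^ 2 + u ^ 2 - v ^ 2 = 1) (t : ℝ) (n : ℕ) :
    YY c u v H t ^ n = YY c u v H (n * t) := by
  induction n with
  | zero => simp [YY_zero]
  | succ n ih => rw [pow_succ, ih, ← YY_add]; congr 1; push_cast; ring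

theorem YK {c u v : ℝ} (H : c ^ 2 + u ^ 2 - v ^ 2 = 1) (t : ℝ) :
    ((YY c u v H t * KK c u v H : SLR) : Matrix (Fin 2) (Fin 2) ℝ) =
      !![Real.cosh t * (c + v), -(Real.cosh t * u) + Real.sinh t;
        Real.cosh t * u + Real.sinh t, Real.cosh t * (c - v)] := by
  show !![_, _; _, _] * !![_, _; _, _] = !![_, _; _, _]
  rw [Matrix.mul_fin_two]
  ext i j
  fin_cases i <;> fin_cases j <;> simp
  · ring
  · linear_combination Real.sinh t * H
  · linear_combination Real.sinh t * H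
  · ring

/-- The relation of one column. -/
theorem column {C h ρ : ℝ} (H : C ^ 2 + h ^ 2 - ρ ^ 2 = 1) {c u v : ℝ}
    (H' : c ^ 2 + u ^ 2 - v ^ 2 = 1) {y β : ℝ} (hC : Real.cosh y * c = C)
    (hh : Real.cosh y * u = h) (h1 : Real.cosh y * v = ρ * Real.cos β)
    (h2 : Real.sinh y = ρ * Real.sin β) (l : ℕ) {w : ℝ} (hw : w = (2 * l + 1) * y) {Γ : SLR}
    (hΓ : YY c u v H' (-w) * KK c u v H' * YY c u v H' w * KK c u v H' = Γ) :
    (BB C h ρ H β * (BB C h ρ H (-β))⁻¹) ^ (-(l : ℤ)) * BB C h ρ H (-β) *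
      (BB C h ρ H β * (BB C h ρ H (-β))⁻¹) ^ (l : ℤ) * BB C h ρ H β = Γ := by
  have e1 : BB C h ρ H β = YY c u v H' y * KK c u v H' := by
    apply Subtype.ext
    rw [YK]
    show !![_, _; _, _] = !![_, _; _, _]
    rw [mul_add, mul_sub, hC, hh, h1, h2]
  have e2 : BB C h ρ H (-β) = YY c u v H' (-y) * KK c u v H' := by
    apply Subtype.ext
    rw [YK]
    show !![_, _; _, _] = !![_, _; _, _]
    rw [mul_add, mul_sub, Real.cosh_neg, Real.sinh_neg, hC, hh, h1, h2, Real.cos_neg, Real.sin_neg]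
    simp
  have e3 : BB C h ρ H β * (BB C h ρ H (-β))⁻¹ = YY c u v H' (2 * y) := by
    rw [e1, e2, YY_neg, _root_.mul_inv_rev, inv_inv, two_mul, YY_add]; group
  rw [e3, _root_.zpow_neg, _root_.zpow_natCast, YY_nat, ← YY_neg, e1, e2, ← hΓ]
  have e4 : YY c u v H' (-w) = YY c u v H' (-(l * (2 * y))) * YY c u v H' (-y) := by
    rw [← YY_add]; congr 1; rw [hw]; ring
  have e5 : YY c u v H' w = YY c u v H' (l * (2 * y)) * YY c u v H' y := by
    rw [← YY_add]; congr 1; rw [hw]; ring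
  rw [e4, e5]; group

/-- The element `Γ`. -/
noncomputable def GG (Φ r : ℝ) (H : Φ ^ 2 + r ^ 2 = 1) : SLR :=
  ⟨!![1 - 2 * Φ ^ 2, -(2 * Φ * r); 2 * Φ * r, 1 - 2 * Φ ^ 2], by
    rw [Matrix.det_fin_two_of]
    linear_combination (4 * Φ ^ 2) * H⟩

theorem GG_comm {Φ r : ℝ} (H : Φ ^ 2 + r ^ 2 = 1) (t : ℝ) :
    rotS t * GG Φ r H = GG Φ r H * rotS t := by
  apply Subtype.ext
  show rot t * !![_, _; _, _] = !![_, _; _, _] * rot t
  rw [rot, Matrix.mul_fin_two, Matrix.mul_fin_two]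
  ext i j
  fin_cases i <;> fin_cases j <;> simp <;> ring

theorem gamma_eq {c u v : ℝ} (H : c ^ 2 + u ^ 2 - v ^ 2 = 1) {Φ r w : ℝ} (hr : r ≠ 0)
    (HΦ : Φ ^ 2 + r ^ 2 = 1) (hu : u * r = c * Φ) (hv : v * r * Real.cosh w = Φ * Real.sinh w)
    (he : (1 - c ^ 2) * Real.cosh w ^ 2 = Φ ^ 2) :
    YY c u v H (-w) * KK c u v H * YY c u v H w * KK c u v H = GG Φ r HΦ := by
  have hcw : Real.cosh w ≠ 0 := (Real.cosh_pos w).ne'
  have hcs := Real.cosh_sq w
  apply Subtype.ext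
  have e : ((YY c u v H (-w) * KK c u v H * YY c u v H w * KK c u v H : SLR) :
      Matrix (Fin 2) (Fin 2) ℝ) =
      ((YY c u v H (-w) * KK c u v H : SLR) : Matrix (Fin 2) (Fin 2) ℝ) *
      ((YY c u v H w * KK c u v H : SLR) : Matrix (Fin 2) (Fin 2) ℝ) := by
    rw [mul_assoc]; rfl
  rw [e, YK, YK, Real.cosh_neg, Real.sinh_neg]
  show !![_, _; _, _] * !![_, _; _, _] = !![_, _; _, _]
  rw [Matrix.mul_fin_two]
  set x := Real.cosh w with hx
  set z := Real.sinh w with hz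
  have hu' : u = c * Φ / r := by field_simp; linarith
  have hv' : v = Φ * z / (r * x) := by field_simp; linarith
  -- c ^ 2 * x ^ 2 = x ^ 2 - Φ ^ 2
  have k1 : c * x * v = u * z := by rw [hu', hv']; field_simp
  have k2 : c ^ 2 * x ^ 2 - z ^ 2 = r ^ 2 := by linear_combination -he + hcs - HΦ
  have k3 : x * (c * x * u - z * v) = Φ * r := by
    have : x * (c * x * u - z * v) = Φ / r * (c ^ 2 * x ^ 2 - z ^ 2) := by
      rw [hu', hv']; field_simp
    rw [this, k2]; field_simp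
  have k4 : x ^ 2 * (c ^ 2 + v ^ 2 - u ^ 2) - z ^ 2 = 1 - 2 * Φ ^ 2 := by
    have h5 : x ^ 2 * (v ^ 2 - u ^ 2) = x ^ 2 * (c ^ 2 - 1) := by linear_combination -x ^ 2 * H
    linear_combination h5 - 2 * he + hcs
  ext i j
  fin_cases i <;> fin_cases j <;> simp
  · linear_combination k4 + 2 * x * k1
  · linear_combination -2 * k3
  · linear_combination 2 * k3
  · linear_combination k4 - 2 * x * k1

end Pool.Agent.L7h81.Pz
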