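import Pool.Agent.L7h81.Pz.Solve2

set_option autoImplicit false

/-!
# The area takes all values between `0` and `k - 2`
-/

namespace Pool.Agent.L7h81.Pz

open Real Filter Topology Set

variable {ι : Type*} [Fintype ι]

/-- The sum of the angles. -/
noncomputable def Psi (l : ι → ℕ) (C p : ℝ) : ℝ :=
  ∑ j, ang (l j) (√(1 - p) / √p) (yyf (l j) C p)

/-- The limit of the sum of the angles for `p → 1 - C ^ 2`. -/
noncomputable def Alim (l : ι → ℕ) (C : ℝ) : ℝ :=
  ∑ j, arctan (C / √(1 - C ^ 2) / (2 * l j + 1))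

theorem Psi_strictAnti [Nonempty ι] (l : ι → ℕ) {C p q : ℝ} (hC : 0 < C ∧ C < 1)
    (hp : 1 - C ^ 2 < p) (hpq : p < q) (hq : q < 1) : Psi l C q < Psi l C p := by
  have hp0 : 0 < p := by nlinarith [hC.1, hC.2]
  refine Finset.sum_lt_sum_of_nonempty Finset.univ_nonempty fun j _ => ?_
  have h1 := FF_yyf hC (l j) hp
  have h2 := FF_yyf hC (l j) (hp.trans hpq)
  refine ang_strictAnti (l j) (yyf_pos hC _ hp) (yyf_pos hC _ (hp.trans hpq))
    (by nlinarith [hC.1, hC.2]) hp0 hpq hq ?_ h1 h2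
  rw [← (FE_mono' hC (l j)).lt_iff_lt, FE_yyf hC, FE_yyf hC]
  exact hpq

theorem Psi_lt_Alim [Nonempty ι] (l : ι → ℕ) {C p : ℝ} (hC : 0 < C ∧ C < 1)
    (hp : 1 - C ^ 2 < p) (hp1 : p < 1) : Psi l C p < Alim l C :=
  Finset.sum_lt_sum_of_nonempty Finset.univ_nonempty fun j _ =>
    ang_lt_lim (l j) hC.1 (yyf_pos hC _ hp) hC.2 hp hp1 (FF_yyf hC (l j) hp)

theorem continuousAt_ratio {C0 p0 : ℝ} (hC : 0 < C0 ∧ C0 < 1) (hp : 1 - C0 ^ 2 < p0) (m : ℕ) :
    ContinuousAt (fun x : ℝ × ℝ => (sinh (yyf m x.1 x.2) * cosh ((2 * m + 1) * yyf m x.1 x.2)) /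
      (cosh (yyf m x.1 x.2) * sinh ((2 * m + 1) * yyf m x.1 x.2))) (C0, p0) := by
  have hy := continuousAt_yyf hC m p0
  have hy0 : 0 < yyf m C0 p0 := yyf_pos hC m hp
  have h2 : 0 < sinh ((2 * m + 1) * yyf m C0 p0) := sinh_pos_iff.2 (by positivity)
  have h3 := cosh_pos (yyf m C0 p0)
  refine ContinuousAt.div ?_ ?_ (by positivity)
  · exact (continuous_sinh.continuousAt.comp hy).mul
      (continuous_cosh.continuousAt.comp (continuousAt_const.mul hy))
  · exact (continuous_cosh.continuousAt.comp hy).mul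
      (continuous_sinh.continuousAt.comp (continuousAt_const.mul hy))

theorem continuousAt_Psi (l : ι → ℕ) {C0 p0 : ℝ} (hC : 0 < C0 ∧ C0 < 1) (hp : 1 - C0 ^ 2 < p0) :
    ContinuousAt (fun x : ℝ × ℝ => Psi l x.1 x.2) (C0, p0) := by
  have hp0 : 0 < p0 := by nlinarith [hC.1, hC.2]
  refine tendsto_finsetSum _ fun j _ => ?_
  refine continuous_arctan.continuousAt.comp ?_
  have h := continuousAt_ratio hC hp (l j)
  have hs : ContinuousAt (fun x : ℝ × ℝ => √(1 - x.2) / √x.2) (C0, p0) := by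
    refine ContinuousAt.div (by fun_prop) (by fun_prop) ?_
    have : 0 < √p0 := sqrt_pos.2 hp0
    exact this.ne'
  refine (hs.mul h).congr ?_
  filter_upwards with x
  rw [mul_div_assoc]
  rfl

theorem continuousAt_Psi_left (l : ι → ℕ) {C0 p0 : ℝ} (hC : 0 < C0 ∧ C0 < 1)
    (hp : 1 - C0 ^ 2 < p0) : ContinuousAt (fun C : ℝ => Psi l C p0) C0 :=
  (continuousAt_Psi l hC hp).comp (f := fun C : ℝ => (C, p0)) (by fun_prop)

theorem exists_pf (l : ι → ℕ) {C : ℝ} (hC : 0 < C ∧ C < 1) (hA : π < Alim l C) :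
    ∃ p, 1 - C ^ 2 < p ∧ p < 1 ∧ Psi l C p = π := by
  obtain ⟨Φ, r, y, hΦ, hr, hΦr, hS, hy, hF, hang⟩ :=
    solve l hC.1 (one_sub_sq_pos hC) (sq_add_sq' hC) hA
  rw [sq_sqrt (by nlinarith [hC.1, hC.2])] at hS
  refine ⟨Φ ^ 2, hS, by nlinarith, ?_⟩
  rw [← hang]
  have e1 : √(1 - Φ ^ 2) = r := by
    rw [show 1 - Φ ^ 2 = r ^ 2 by linarith, sqrt_sq hr.le]
  have e2 : √(Φ ^ 2) = Φ := sqrt_sq hΦ.le
  refine Finset.sum_congr rfl fun j _ => ?_
  rw [e1, e2]
  congr 1
  have h1 : FE C (l j) (y j) = Φ ^ 2 := by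
    rw [← hF j]
    unfold FE FF
    rw [max_eq_left (hy j).le, min_eq_right (hy j).le, add_zero]
  refine (FE_mono' hC (l j)).injective ?_
  rw [FE_yyf hC, h1]

open Classical in
/-- The parameter `p` as a function of `C`. -/
noncomputable def pf (l : ι → ℕ) (C : ℝ) : ℝ :=
  if h : ∃ p, 1 - C ^ 2 < p ∧ p < 1 ∧ Psi l C p = π then h.choose else 0

theorem pf_spec (l : ι → ℕ) {C : ℝ} (hC : 0 < C ∧ C < 1) (hA : π < Alim l C) :
    1 - C ^ 2 < pf l C ∧ pf l C < 1 ∧ Psi l C (pf l C) = π := by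
  have h := exists_pf l hC hA
  unfold pf
  rw [dif_pos h]
  exact h.choose_spec

theorem lt_pf [Nonempty ι] (l : ι → ℕ) {C a : ℝ} (hC : 0 < C ∧ C < 1) (hA : π < Alim l C)
    (ha1 : a < 1) (hPsi : π < Psi l C a) : a < pf l C := by
  obtain ⟨h1, h2, h3⟩ := pf_spec l hC hA
  by_contra h
  rw [not_lt] at h
  rcases h.eq_or_lt with h | h
  · rw [h] at h3; linarith
  · have := Psi_strictAnti l hC h1 h ha1
    linarith

theorem pf_lt [Nonempty ι] (l : ι → ℕ) {C a : ℝ} (hC : 0 < C ∧ C < 1) (hA : π < Alim l C)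
    (ha : 1 - C ^ 2 < a) (hPsi : Psi l C a < π) : pf l C < a := by
  obtain ⟨h1, h2, h3⟩ := pf_spec l hC hA
  by_contra h
  rw [not_lt] at h
  rcases h.eq_or_lt with h | h
  · rw [← h] at h3; linarith
  · have := Psi_strictAnti l hC ha h h2
    linarith

theorem continuousOn_Alim (l : ι → ℕ) : ContinuousOn (Alim l) (Ioo 0 1) := by
  refine continuousOn_finsetSum _ fun j _ => ?_
  refine continuous_arctan.comp_continuousOn (ContinuousOn.div_const ?_ _)
  refine ContinuousOn.div (by fun_prop) (by fun_prop) fun C hC => ?_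
  exact (one_sub_sq_pos hC).ne'

theorem continuousAt_pf [Nonempty ι] (l : ι → ℕ) {C0 : ℝ} (hC : 0 < C0 ∧ C0 < 1)
    (hA : π < Alim l C0) : ContinuousAt (pf l) C0 := by
  obtain ⟨h1, h2, h3⟩ := pf_spec l hC hA
  have hev : ∀ᶠ C in 𝓝 C0, 0 < C ∧ C < 1 := Ioo_mem_nhds hC.1 hC.2
  have hevA : ∀ᶠ C in 𝓝 C0, π < Alim l C :=
    ((continuousOn_Alim l).continuousAt (Ioo_mem_nhds hC.1 hC.2)).eventually (lt_mem_nhds hA)
  have hsq : ∀ a, 1 - C0 ^ 2 < a → ∀ᶠ C in 𝓝 C0, 1 - C ^ 2 < a := by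
    intro a ha
    have : ContinuousAt (fun C : ℝ => 1 - C ^ 2) C0 := by fun_prop
    exact this.eventually (gt_mem_nhds ha)
  refine tendsto_order.2 ⟨fun a ha => ?_, fun a ha => ?_⟩
  · obtain ⟨b, hb1, hb2⟩ := exists_between (max_lt ha h1)
    rw [max_lt_iff] at hb1
    have h4 : π < Psi l C0 b := by
      rw [← h3]; exact Psi_strictAnti l hC hb1.2 hb2 h2
    filter_upwards [hev, hevA, (continuousAt_Psi_left l hC hb1.2).eventually (lt_mem_nhds h4)]
      with C hC' hA' hP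
    exact hb1.1.trans (lt_pf l hC' hA' (hb2.trans h2) hP)
  · obtain ⟨b, hb1, hb2⟩ := exists_between (lt_min ha h2)
    rw [lt_min_iff] at hb2
    have h4 : Psi l C0 b < π := by
      rw [← h3]; exact Psi_strictAnti l hC h1 hb1 hb2.2
    filter_upwards [hev, hevA, hsq b (h1.trans hb1),
      (continuousAt_Psi_left l hC (h1.trans hb1)).eventually (gt_mem_nhds h4)] with C hC' hA' hs hP
    exact (pf_lt l hC' hA' hs hP).trans hb2.1

/-- The angle `κ`. -/
noncomputable def kap (l : ℕ) (C y : ℝ) : ℝ :=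
  arctan (√(1 - C ^ 2) / C * ((cosh y * sinh ((2 * l + 1) * y)) /
    (sinh y * cosh ((2 * l + 1) * y))))

/-- The area divided by `π`. -/
noncomputable def Fa (l : ι → ℕ) (C : ℝ) : ℝ :=
  Fintype.card ι - 2 - 2 / π * ∑ j, kap (l j) C (yyf (l j) C (pf l C))

theorem continuousAt_Fa [Nonempty ι] (l : ι → ℕ) {C0 : ℝ} (hC : 0 < C0 ∧ C0 < 1)
    (hA : π < Alim l C0) : ContinuousAt (Fa l) C0 := by
  obtain ⟨h1, h2, h3⟩ := pf_spec l hC hA
  refine continuousAt_const.sub (continuousAt_const.mul ?_)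
  refine tendsto_finsetSum _ fun j _ => ?_
  refine continuous_arctan.continuousAt.comp ?_
  have h4 : ContinuousAt (fun C : ℝ => (C, pf l C)) C0 :=
    continuousAt_id.prodMk (continuousAt_pf l hC hA)
  have h5 := (continuousAt_ratio hC h1 (l j)).comp (f := fun C : ℝ => (C, pf l C)) h4
  have hy0 : 0 < yyf (l j) C0 (pf l C0) := yyf_pos hC _ h1
  have k2 : 0 < sinh ((2 * l j + 1) * yyf (l j) C0 (pf l C0)) := sinh_pos_iff.2 (by positivity)
  have k1 : 0 < sinh (yyf (l j) C0 (pf l C0)) := sinh_pos_iff.2 hy0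
  have k3 := cosh_pos (yyf (l j) C0 (pf l C0))
  have k4 := cosh_pos ((2 * l j + 1) * yyf (l j) C0 (pf l C0))
  have h6 := h5.inv₀ (by simp only [Function.comp]; positivity)
  have hs : ContinuousAt (fun C : ℝ => √(1 - C ^ 2) / C) C0 :=
    ContinuousAt.div (by fun_prop) (by fun_prop) hC.1.ne'
  refine (hs.mul h6).congr ?_
  filter_upwards with C
  show √(1 - C ^ 2) / C * (_ / _)⁻¹ = _
  rw [inv_div]

theorem kap_le (l : ℕ) {C y : ℝ} (hC : 0 < C ∧ C < 1) (hy : 0 < y) :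
    kap l C y ≤ arctan (√(1 - C ^ 2) / C * (2 * l + 1)) := by
  unfold kap
  apply arctan_le_arctan_iff.2
  have h1 := one_sub_sq_pos hC
  have h2 : 0 < sinh y := sinh_pos_iff.2 hy
  have h3 := cosh_pos ((2 * l + 1) * y)
  have h4 : 0 < √(1 - C ^ 2) / C := div_pos h1 hC.1
  refine mul_le_mul_of_nonneg_left ?_ h4.le
  rw [div_le_iff₀ (by positivity)]
  have := sinh_cosh_le (2 * l + 1) hy.le
  push_cast at this
  linarith

theorem arctan_sub_le {H x : ℝ} (hH : 1 ≤ H) (hx : 0 ≤ x) :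
    arctan (H * x) - arctan x ≤ H - 1 := by
  -- `arctan (H x) - arctan x = arctan ((H - 1) x / (1 + H x ^ 2)) ≤ (H - 1) x / (1 + H x ^ 2)`
  have h1 : arctan (H * x) - arctan x = arctan ((H * x - x) / (1 + (H * x) * x)) := by
    have h2 : (H * x) * (-x) < 1 := by nlinarith [mul_nonneg (mul_nonneg (by linarith : 0 ≤ H) hx) hx]
    have := arctan_add h2
    rw [arctan_neg] at this
    rw [sub_eq_add_neg, this]
    congr 1; ring
  rw [h1]
  have h3 : 0 ≤ (H * x - x) / (1 + (H * x) * x) := by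
    have : 0 ≤ H * x - x := by nlinarith
    have : 0 ≤ H := by linarith
    positivity
  have h4 : arctan ((H * x - x) / (1 + (H * x) * x)) ≤ (H * x - x) / (1 + (H * x) * x) := by
    rcases h3.eq_or_lt with h | h
    · rw [← h]; simp
    · have h5 := lt_tan (arctan_pos.2 h) (arctan_lt_pi_div_two _)
      rw [tan_arctan] at h5
      exact h5.le
  refine h4.trans ?_
  rw [div_le_iff₀ (by have : 0 ≤ H := by linarith
                      positivity)]
  nlinarith [sq_nonneg (x - 1), mul_nonneg (sub_nonneg.2 hH) (sq_nonneg x), mul_nonneg (sub_nonneg.2 hH) (sq_nonneg (x - 1)), mul_nonneg (mul_nonneg (sub_nonneg.2 hH) (sub_nonneg.2 hH)) (sq_nonneg x)]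

/-- The hyperbolic cosine of the radius of the circle. -/
noncomputable def Hc (C p : ℝ) : ℝ := C * √p / (√(1 - C ^ 2) * √(1 - p))

theorem one_le_Hc {C p : ℝ} (hC : 0 < C ∧ C < 1) (hp : 1 - C ^ 2 < p) (hp1 : p < 1) :
    1 ≤ Hc C p := by
  unfold Hc
  have h1 := one_sub_sq_pos hC
  have h2 : 0 < √(1 - p) := sqrt_pos.2 (by linarith)
  have hp0 : 0 < p := by nlinarith [hC.1, hC.2]
  rw [le_div_iff₀ (by positivity), one_mul]
  refine (pow_le_pow_iff_left₀ (by positivity) (by have := hC.1; positivity) two_ne_zero).1 ?_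
  rw [mul_pow, mul_pow, sq_sqrt hp0.le, sq_sqrt (by nlinarith [hC.1, hC.2] : 0 ≤ 1 - C ^ 2),
    sq_sqrt (by linarith : 0 ≤ 1 - p)]
  nlinarith

theorem Fa_le (l : ι → ℕ) {C : ℝ} (hC : 0 < C ∧ C < 1) (hA : π < Alim l C) :
    Fa l C ≤ 2 / π * (Fintype.card ι * (Hc C (pf l C) - 1)) := by
  obtain ⟨h1, h2, h3⟩ := pf_spec l hC hA
  have hp0 : 0 < pf l C := by nlinarith [hC.1, hC.2]
  have hp1 : 0 < 1 - pf l C := by linarith
  have hH := one_le_Hc hC h1 h2
  have hs := one_sub_sq_pos hC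
  have key : ∀ j, π / 2 - ang (l j) (√(1 - pf l C) / √(pf l C)) (yyf (l j) C (pf l C)) -
      kap (l j) C (yyf (l j) C (pf l C)) ≤ Hc C (pf l C) - 1 := by
    intro j
    set y := yyf (l j) C (pf l C) with hy
    have hy0 : 0 < y := yyf_pos hC _ h1
    have k2 : 0 < sinh ((2 * l j + 1) * y) := sinh_pos_iff.2 (by positivity)
    have k1 : 0 < sinh y := sinh_pos_iff.2 hy0
    have k3 := cosh_pos y
    have k4 := cosh_pos ((2 * l j + 1) * y)
    have hC0 := hC.1
    set x := √(1 - pf l C) / √(pf l C) * (sinh y * cosh ((2 * l j + 1) * y)) /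
      (cosh y * sinh ((2 * l j + 1) * y)) with hx
    have hx0 : 0 < x := by positivity
    have e1 : kap (l j) C y = π / 2 - arctan (Hc C (pf l C) * x) := by
      have e2 : √(1 - C ^ 2) / C * ((cosh y * sinh ((2 * l j + 1) * y)) /
          (sinh y * cosh ((2 * l j + 1) * y))) = (Hc C (pf l C) * x)⁻¹ := by
        rw [hx]; unfold Hc
        have : 0 < √(pf l C) := sqrt_pos.2 hp0
        have : 0 < √(1 - pf l C) := sqrt_pos.2 hp1
        field_simp
      unfold kap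
      rw [e2, arctan_inv_of_pos (by positivity)]
    have e3 : ang (l j) (√(1 - pf l C) / √(pf l C)) y = arctan x := rfl
    rw [e1, e3]
    have := arctan_sub_le hH hx0.le
    linarith
  have hsum : ∑ j, (π / 2 - ang (l j) (√(1 - pf l C) / √(pf l C)) (yyf (l j) C (pf l C)) -
      kap (l j) C (yyf (l j) C (pf l C))) ≤ ∑ _j : ι, (Hc C (pf l C) - 1) :=
    Finset.sum_le_sum fun j _ => key j
  rw [Finset.sum_sub_distrib, Finset.sum_sub_distrib, Finset.sum_const, Finset.sum_const,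
    Finset.card_univ, nsmul_eq_mul, nsmul_eq_mul] at hsum
  have h4 : ∑ j, ang (l j) (√(1 - pf l C) / √(pf l C)) (yyf (l j) C (pf l C)) = π := h3
  rw [h4] at hsum
  unfold Fa
  have hpi := pi_pos
  have e5 : (Fintype.card ι : ℝ) - 2 - 2 / π * ∑ j, kap (l j) C (yyf (l j) C (pf l C)) =
      2 / π * ((Fintype.card ι : ℝ) * (π / 2) - π - ∑ j, kap (l j) C (yyf (l j) C (pf l C))) := by
    field_simp
  rw [e5]
  exact mul_le_mul_of_nonneg_left hsum (by positivity)

theorem le_Fa (l : ι → ℕ) {C : ℝ} (hC : 0 < C ∧ C < 1) (hA : π < Alim l C) :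
    Fintype.card ι - 2 - 2 / π * ∑ j, arctan (√(1 - C ^ 2) / C * (2 * l j + 1)) ≤ Fa l C := by
  obtain ⟨h1, h2, h3⟩ := pf_spec l hC hA
  unfold Fa
  have hpi := pi_pos
  have : ∑ j, kap (l j) C (yyf (l j) C (pf l C)) ≤
      ∑ j, arctan (√(1 - C ^ 2) / C * (2 * l j + 1)) :=
    Finset.sum_le_sum fun j _ => kap_le (l j) hC (yyf_pos hC _ h1)
  have := mul_le_mul_of_nonneg_left this (by positivity : 0 ≤ 2 / π)
  linarith

theorem Alim_strictMono [Nonempty ι] (l : ι → ℕ) {C D : ℝ} (hC : 0 < C) (hCD : C < D)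
    (hD : D < 1) : Alim l C < Alim l D := by
  refine Finset.sum_lt_sum_of_nonempty Finset.univ_nonempty fun j _ => ?_
  apply arctan_lt_arctan_iff.2
  have h1 := one_sub_sq_pos ⟨hC, hCD.trans hD⟩
  have h2 := one_sub_sq_pos ⟨hC.trans hCD, hD⟩
  have h3 : √(1 - D ^ 2) < √(1 - C ^ 2) := sqrt_lt_sqrt (by nlinarith) (by nlinarith)
  have h4 : C / √(1 - C ^ 2) < D / √(1 - D ^ 2) := by
    rw [div_lt_div_iff₀ h1 h2]
    nlinarith
  exact div_lt_div_of_pos_right h4 (by positivity)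

theorem exists_crit [Nonempty ι] (l : ι → ℕ) (hk : 3 ≤ Fintype.card ι) :
    ∃ C0 : ℝ, (0 < C0 ∧ C0 < 1) ∧ Alim l C0 = π := by
  have h0 : ∃ C, (0 < C ∧ C < 1) ∧ Alim l C < π := by
    have hc : ContinuousAt (Alim l) 0 := by
      refine tendsto_finsetSum _ fun j _ => ?_
      refine continuous_arctan.continuousAt.comp (ContinuousAt.div_const ?_ _)
      exact ContinuousAt.div (by fun_prop) (by fun_prop) (by simp)
    have hz : Alim l 0 = 0 := by simp [Alim]
    have hev : ∀ᶠ C in 𝓝[>] (0 : ℝ), Alim l C < π := by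
      have : Alim l 0 < π := by rw [hz]; exact pi_pos
      exact (hc.eventually (gt_mem_nhds this)).filter_mono nhdsWithin_le_nhds
    obtain ⟨C, h1, h2⟩ := (hev.and (Ioo_mem_nhdsGT one_pos)).exists
    exact ⟨C, h2, h1⟩
  have h1 : ∃ C, (0 < C ∧ C < 1) ∧ π < Alim l C := by
    have ht : Tendsto (fun C : ℝ => C / √(1 - C ^ 2)) (𝓝[<] 1) atTop := by
      have a1 : Tendsto (fun C : ℝ => √(1 - C ^ 2)) (𝓝[<] 1) (𝓝[>] 0) := by
        rw [tendsto_nhdsWithin_iff]
        constructor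
        · have : ContinuousAt (fun C : ℝ => √(1 - C ^ 2)) 1 := by fun_prop
          have h := this.tendsto.mono_left (nhdsWithin_le_nhds (s := Iio 1))
          simpa using h
        · filter_upwards [Ioo_mem_nhdsLT one_pos] with C hC
          exact one_sub_sq_pos hC
      have a2 := tendsto_inv_nhdsGT_zero.comp a1
      have a3 : Tendsto (fun C : ℝ => C) (𝓝[<] 1) (𝓝 1) := nhdsWithin_le_nhds
      have := a3.pos_mul_atTop one_pos a2
      exact this.congr fun C => by simp [div_eq_mul_inv]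
    have h3 : Tendsto (Alim l) (𝓝[<] 1) (𝓝 (∑ _j : ι, π / 2)) := by
      refine tendsto_finsetSum _ fun j _ => ?_
      exact (tendsto_arctan_atTop.mono_right nhdsWithin_le_nhds).comp
        (ht.atTop_div_const (by positivity))
    have h5 : π < ∑ _j : ι, π / 2 := by
      rw [Finset.sum_const, Finset.card_univ, nsmul_eq_mul]
      have : (3 : ℝ) ≤ Fintype.card ι := by exact_mod_cast hk
      nlinarith [pi_pos]
    obtain ⟨C, h1, h2⟩ := ((h3.eventually (lt_mem_nhds h5)).and (Ioo_mem_nhdsLT one_pos)).exists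
    exact ⟨C, h2, h1⟩
  obtain ⟨C1, hC1, hA1⟩ := h0
  obtain ⟨C2, hC2, hA2⟩ := h1
  obtain ⟨C, hC, hA⟩ := isPreconnected_Ioo.intermediate_value hC1 hC2 (continuousOn_Alim l)
    ⟨hA1.le, hA2.le⟩
  exact ⟨C, hC, hA⟩

/-- The area takes the value `σ C` for some `C`. -/
theorem path [Nonempty ι] (l : ι → ℕ) (hk : 3 ≤ Fintype.card ι) {σ : ℝ → ℝ} (hσ : Continuous σ)
    (hpos : ∀ C, 0 < C → C < 1 → 0 < σ C) (h1 : σ 1 < Fintype.card ι - 2) :
    ∃ C : ℝ, (0 < C ∧ C < 1) ∧ π < Alim l C ∧ Fa l C = σ C := by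
  obtain ⟨C0, hC0, hA0⟩ := exists_crit l hk
  have hI : ∀ C ∈ Ioo C0 1, (0 < C ∧ C < 1) ∧ π < Alim l C := by
    intro C hC
    refine ⟨⟨hC0.1.trans hC.1, hC.2⟩, ?_⟩
    rw [← hA0]; exact Alim_strictMono l hC0.1 hC.1 hC.2
  have hcont : ContinuousOn (fun C => Fa l C - σ C) (Ioo C0 1) := by
    intro C hC
    exact ((continuousAt_Fa l (hI C hC).1 (hI C hC).2).sub hσ.continuousAt).continuousWithinAt
  -- near one
  obtain ⟨D1, hD1, hE1⟩ : ∃ C ∈ Ioo C0 1, 0 < Fa l C - σ C := by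
    have hc : ContinuousAt (fun C : ℝ => Fintype.card ι - 2 -
        2 / π * ∑ j, arctan (√(1 - C ^ 2) / C * (2 * l j + 1)) - σ C) 1 := by
      refine (ContinuousAt.sub continuousAt_const (continuousAt_const.mul ?_)).sub hσ.continuousAt
      refine tendsto_finsetSum _ fun j _ => ?_
      refine continuous_arctan.continuousAt.comp (ContinuousAt.mul ?_ continuousAt_const)
      exact ContinuousAt.div (by fun_prop) (by fun_prop) one_ne_zero
    have hv : 0 < (fun C : ℝ => Fintype.card ι - 2 -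
        2 / π * ∑ j, arctan (√(1 - C ^ 2) / C * (2 * l j + 1)) - σ C) 1 := by
      simp
      linarith
    have hev := (hc.eventually (lt_mem_nhds hv)).filter_mono (nhdsWithin_le_nhds (s := Iio 1))
    obtain ⟨C, h2, h3⟩ := (hev.and (Ioo_mem_nhdsLT hC0.2)).exists
    refine ⟨C, h3, ?_⟩
    have := le_Fa l (hI C h3).1 (hI C h3).2
    linarith
  -- near the reducible representation
  obtain ⟨D2, hD2, hE2⟩ : ∃ C ∈ Ioo C0 1, Fa l C - σ C < 0 := by
    have hs0 : 0 < σ C0 := hpos C0 hC0.1 hC0.2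
    have hsq0 := one_sub_sq_pos hC0
    obtain ⟨p1, hp1a, hp1b, hp1c⟩ : ∃ p1, 1 - C0 ^ 2 < p1 ∧ p1 < 1 ∧
        2 / π * (Fintype.card ι * (Hc C0 p1 - 1)) < σ C0 := by
      have hc : ContinuousAt (fun p : ℝ => 2 / π * (Fintype.card ι * (Hc C0 p - 1)))
          (1 - C0 ^ 2) := by
        unfold Hc
        refine continuousAt_const.mul (continuousAt_const.mul (ContinuousAt.sub ?_
          continuousAt_const))
        refine ContinuousAt.div (by fun_prop) (by fun_prop) ?_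
        have : 0 < √(1 - (1 - C0 ^ 2)) := sqrt_pos.2 (by nlinarith [hC0.1])
        positivity
      have hv : 2 / π * (Fintype.card ι * (Hc C0 (1 - C0 ^ 2) - 1)) < σ C0 := by
        have : Hc C0 (1 - C0 ^ 2) = 1 := by
          unfold Hc
          rw [show 1 - (1 - C0 ^ 2) = C0 ^ 2 by ring, sqrt_sq hC0.1.le]
          have := hC0.1
          field_simp
        rw [this]; simpa using hs0
      have hev := (hc.eventually (gt_mem_nhds hv)).filter_mono
        (nhdsWithin_le_nhds (s := Ioi (1 - C0 ^ 2)))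
      have hlt : 1 - C0 ^ 2 < 1 := by nlinarith [hC0.1]
      obtain ⟨p, h2, h3⟩ := (hev.and (Ioo_mem_nhdsGT hlt)).exists
      exact ⟨p, h3.1, h3.2, h2⟩
    have hp1P : Psi l C0 p1 < π := by rw [← hA0]; exact Psi_lt_Alim l hC0 hp1a hp1b
    have hev1 := ((continuousAt_Psi_left l hC0 hp1a).eventually (gt_mem_nhds hp1P)).filter_mono
      (nhdsWithin_le_nhds (s := Ioi C0))
    have hev2 : ∀ᶠ C in 𝓝[>] C0, 2 / π * (Fintype.card ι * (Hc C p1 - 1)) < σ C := by
      have hc : ContinuousAt (fun C : ℝ => 2 / π * (Fintype.card ι * (Hc C p1 - 1)) - σ C) C0 := by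
        unfold Hc
        refine (continuousAt_const.mul (continuousAt_const.mul (ContinuousAt.sub ?_
          continuousAt_const))).sub hσ.continuousAt
        refine ContinuousAt.div (by fun_prop) (by fun_prop) ?_
        have : 0 < √(1 - p1) := sqrt_pos.2 (by linarith)
        positivity
      have hv : 2 / π * (Fintype.card ι * (Hc C0 p1 - 1)) - σ C0 < 0 := by linarith
      filter_upwards [(hc.eventually (gt_mem_nhds hv)).filter_mono
        (nhdsWithin_le_nhds (s := Ioi C0))] with C hC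
      linarith
    have hev3 : ∀ᶠ C in 𝓝[>] C0, 1 - C ^ 2 < p1 := by
      have : ContinuousAt (fun C : ℝ => 1 - C ^ 2) C0 := by fun_prop
      exact (this.eventually (gt_mem_nhds hp1a)).filter_mono nhdsWithin_le_nhds
    obtain ⟨C, ⟨⟨h2, h3⟩, h4⟩, h5⟩ :=
      (((hev1.and hev2).and hev3).and (Ioo_mem_nhdsGT hC0.2)).exists
    refine ⟨C, h5, ?_⟩
    have hC := (hI C h5).1
    have hA := (hI C h5).2
    have h6 := pf_lt l hC hA h4 h2
    obtain ⟨h7, h8, h9⟩ := pf_spec l hC hA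
    have h10 := Fa_le l hC hA
    have h11 : Hc C (pf l C) ≤ Hc C p1 := by
      unfold Hc
      have := hC.1
      have b1 := one_sub_sq_pos hC
      have b2 : 0 < √(1 - p1) := sqrt_pos.2 (by linarith)
      have b3 : √(1 - p1) ≤ √(1 - pf l C) := sqrt_le_sqrt (by linarith)
      have b4 : √(pf l C) ≤ √p1 := sqrt_le_sqrt h6.le
      gcongr
    have hpi := pi_pos
    have h12 : 2 / π * (Fintype.card ι * (Hc C (pf l C) - 1)) ≤
        2 / π * (Fintype.card ι * (Hc C p1 - 1)) := by gcongr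
    linarith
  obtain ⟨C, hC, hE⟩ := isPreconnected_Ioo.intermediate_value hD2 hD1 hcont ⟨hE2.le, hE1.le⟩
  exact ⟨C, (hI C hC).1, (hI C hC).2, by linarith⟩

end Pool.Agent.L7h81.Pz
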