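import Pool.Agent.L7h81.Pz.Trans2
import Pool.Agent.L7h81.Pz.Path

set_option autoImplicit false

/-!
# The representation for real translation numbers and the holonomy of the longitude
-/

namespace Pool.Agent.L7h81.Pz

open Matrix CircleDeg1Lift

/-- The facts about one column. -/
theorem col_facts {C h ρ S : ℝ} (H : C ^ 2 + h ^ 2 - ρ ^ 2 = 1) {Φ r : ℝ}
    (HΦ : Φ ^ 2 + r ^ 2 = 1) (hC0 : 0 < C) (hS0 : 0 < S) (hCS : C ^ 2 + S ^ 2 = 1)
    (hr : 0 < r) (hΦ : 0 < Φ) (hh : h * r = C * Φ)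
    (hρ : 0 < ρ) (l : ℕ) {y : ℝ} (hy : 0 < y)
    (heq : (1 - (C / Real.cosh y) ^ 2) * Real.cosh ((2 * l + 1) * y) ^ 2 = Φ ^ 2) {κ : ℝ}
    (hκ : κ = Real.arctan (S / C * ((Real.cosh y * Real.sinh ((2 * l + 1) * y)) /
      (Real.sinh y * Real.cosh ((2 * l + 1) * y))))) :
    ∃ (c u v q : ℝ) (H' : c ^ 2 + u ^ 2 - v ^ 2 = 1), 0 < u ∧ c = q * r ∧ u = q * Φ ∧
      Real.cosh y * c = C ∧ Real.cosh y * u = h ∧
      Real.cosh y * v = ρ * Real.cos (ang l (r / Φ) y) ∧
      Real.sinh y = ρ * Real.sin (ang l (r / Φ) y) ∧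
      v * r * Real.cosh ((2 * l + 1) * y) = Φ * Real.sinh ((2 * l + 1) * y) ∧
      ρ * r * Real.sin κ = S * Real.sinh ((2 * l + 1) * y) ∧
      ρ * r * Real.cos κ = c * Real.cosh ((2 * l + 1) * y) * Real.sinh y ∧
      BB C h ρ H (ang l (r / Φ) y) * (BB C h ρ H (-ang l (r / Φ) y))⁻¹ = YY c u v H' (2 * y) := by
  set w := (2 * l + 1) * y with hw
  set β := ang l (r / Φ) y with hβ
  have hw0 : 0 < w := by rw [hw]; positivity
  have hcy := Real.cosh_pos y
  have hcw := Real.cosh_pos w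
  have hsw : 0 < Real.sinh w := Real.sinh_pos_iff.2 hw0
  have hsy : 0 < Real.sinh y := Real.sinh_pos_iff.2 hy
  have hcs := Real.cosh_sq w
  have hcsy := Real.cosh_sq y
  set c := C / Real.cosh y with hc
  set q := c / r with hq
  set u := c * Φ / r with hu
  set v := Φ * Real.sinh w / (r * Real.cosh w) with hv
  have hc0 : 0 < c := by rw [hc]; positivity
  have hu0 : 0 < u := by rw [hu]; positivity
  have hur : u * r = c * Φ := by rw [hu]; field_simp
  have hvr : v * r * Real.cosh w = Φ * Real.sinh w := by rw [hv]; field_simp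
  have hv0 : 0 < v := by rw [hv]; positivity
  have H' : c ^ 2 + u ^ 2 - v ^ 2 = 1 := by
    have e1 : c ^ 2 + u ^ 2 - v ^ 2 = (c ^ 2 * r ^ 2 * Real.cosh w ^ 2 + c ^ 2 * Φ ^ 2 *
        Real.cosh w ^ 2 - Φ ^ 2 * Real.sinh w ^ 2) / (r ^ 2 * Real.cosh w ^ 2) := by
      rw [hu, hv]; field_simp
    rw [e1, div_eq_one_iff_eq (by positivity)]
    linear_combination (c ^ 2 * Real.cosh w ^ 2 - Real.cosh w ^ 2) * HΦ + (1 : ℝ) * (-heq) +
      Φ ^ 2 * hcs
  have hcC : Real.cosh y * c = C := by rw [hc]; field_simp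
  have hch : Real.cosh y * u = h := by
    have : Real.cosh y * u * r = h * r := by
      rw [mul_assoc, hur, ← mul_assoc, hcC, hh]
    exact mul_right_cancel₀ hr.ne' this
  -- the angle `β`
  set T := r / Φ * (Real.sinh y * Real.cosh w) / (Real.cosh y * Real.sinh w) with hT
  have hβT : β = Real.arctan T := rfl
  have hT' : Real.cosh y * v * T = Real.sinh y := by
    rw [hT, hv]; field_simp
  have hρ2 : ρ ^ 2 = (Real.cosh y * v) ^ 2 * (1 + T ^ 2) := by
    have e1 : (Real.cosh y * v) ^ 2 * (1 + T ^ 2) =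
        Real.cosh y ^ 2 * v ^ 2 + Real.sinh y ^ 2 := by
      rw [← hT']; ring
    rw [e1]
    have e2 : ρ ^ 2 = (Real.cosh y * c) ^ 2 + (Real.cosh y * u) ^ 2 - 1 := by
      rw [hcC, hch]; linarith
    rw [e2]
    linear_combination Real.cosh y ^ 2 * H' + hcsy
  have hcos : 0 < Real.cos β := by rw [hβT]; exact Real.cos_arctan_pos T
  have hcos2 : Real.cos β ^ 2 * (1 + T ^ 2) = 1 := by
    rw [hβT, Real.cos_sq_arctan]
    have : 0 < 1 + T ^ 2 := by positivity
    field_simp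
  have hsin : Real.sin β = T * Real.cos β := by
    have := Real.tan_arctan T
    rw [← hβT, Real.tan_eq_sin_div_cos] at this
    field_simp at this
    linarith
  have h1 : Real.cosh y * v = ρ * Real.cos β := by
    have e1 : (Real.cosh y * v) ^ 2 = (ρ * Real.cos β) ^ 2 := by
      rw [mul_pow ρ, hρ2]
      linear_combination -(Real.cosh y * v) ^ 2 * hcos2
    have e2 : 0 < Real.cosh y * v := by positivity
    have e3 : 0 < ρ * Real.cos β := by positivity
    exact (sq_eq_sq₀ e2.le e3.le).1 e1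
  have h2 : Real.sinh y = ρ * Real.sin β := by
    rw [hsin, ← hT', h1]; ring
  -- the angle `κ`
  set T2 := S / C * ((Real.cosh y * Real.sinh w) / (Real.sinh y * Real.cosh w)) with hT2
  have hcosκ : 0 < Real.cos κ := by rw [hκ]; exact Real.cos_arctan_pos T2
  have hcosκ2 : Real.cos κ ^ 2 * (1 + T2 ^ 2) = 1 := by
    rw [hκ, Real.cos_sq_arctan]
    have : 0 < 1 + T2 ^ 2 := by positivity
    field_simp
  have hsinκ : Real.sin κ = T2 * Real.cos κ := by
    have := Real.tan_arctan T2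
    rw [← hκ, Real.tan_eq_sin_div_cos] at this
    field_simp at this
    linarith
  have hT2' : c * Real.cosh w * Real.sinh y * T2 = S * Real.sinh w := by
    rw [hT2, hc]; field_simp
  have k2 : c ^ 2 * Real.cosh w ^ 2 - Real.sinh w ^ 2 = r ^ 2 := by
    linear_combination -heq + hcs - HΦ
  have hρr : ρ ^ 2 * r ^ 2 = (c * Real.cosh w * Real.sinh y) ^ 2 * (1 + T2 ^ 2) := by
    have e1 : (c * Real.cosh w * Real.sinh y) ^ 2 * (1 + T2 ^ 2) =
        (c * Real.cosh w * Real.sinh y) ^ 2 + (S * Real.sinh w) ^ 2 := by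
      rw [← hT2']; ring
    rw [e1]
    have e2 : ρ ^ 2 * r ^ 2 = C ^ 2 - r ^ 2 := by
      have e3 : h ^ 2 * r ^ 2 = C ^ 2 * Φ ^ 2 := by rw [← mul_pow, hh, mul_pow]
      linear_combination -r ^ 2 * H + e3 + C ^ 2 * HΦ
    have e4 : C ^ 2 = Real.cosh y ^ 2 * c ^ 2 := by rw [← hcC]; ring
    have e5 : S ^ 2 = 1 - Real.cosh y ^ 2 * c ^ 2 := by rw [← e4]; linarith
    rw [e2, mul_pow S, e5, e4]
    linear_combination (1 : ℝ) * k2 + c ^ 2 * Real.cosh w ^ 2 * hcsy -
      c ^ 2 * Real.cosh y ^ 2 * hcs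
  have h4 : ρ * r * Real.cos κ = c * Real.cosh w * Real.sinh y := by
    have e1 : (ρ * r * Real.cos κ) ^ 2 = (c * Real.cosh w * Real.sinh y) ^ 2 := by
      have : (ρ * r * Real.cos κ) ^ 2 = ρ ^ 2 * r ^ 2 * Real.cos κ ^ 2 := by ring
      rw [this, hρr]
      linear_combination (c * Real.cosh w * Real.sinh y) ^ 2 * hcosκ2
    exact (sq_eq_sq₀ (by positivity) (by positivity)).1 e1
  have h3 : ρ * r * Real.sin κ = S * Real.sinh w := by
    rw [hsinκ, ← hT2', ← h4]; ring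
  refine ⟨c, u, v, q, H', hu0, by rw [hq]; field_simp, by rw [hq, hu]; ring, hcC, hch, h1, h2, hvr,
    h3, h4, ?_⟩
  have e1 : BB C h ρ H β = YY c u v H' y * KK c u v H' := by
    apply Subtype.ext
    rw [YK]
    show !![_, _; _, _] = !![_, _; _, _]
    rw [mul_add, mul_sub, hcC, hch, h1, h2]
  have e2 : BB C h ρ H (-β) = YY c u v H' (-y) * KK c u v H' := by
    apply Subtype.ext
    rw [YK]
    show !![_, _; _, _] = !![_, _; _, _]
    rw [mul_add, mul_sub, Real.cosh_neg, Real.sinh_neg, hcC, hch, h1, h2, Real.cos_neg,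
      Real.sin_neg]
    simp
  rw [e1, e2, YY_neg, _root_.mul_inv_rev, inv_inv, two_mul, YY_add]; group

/-- The two transports along a column, in the group of lifts. -/
theorem col_transport {C h ρ S t : ℝ} (H : C ^ 2 + h ^ 2 - ρ ^ 2 = 1) {Φ r ω : ℝ}
    (HΦ : Φ ^ 2 + r ^ 2 = 1) (hC0 : 0 < C) (hS0 : 0 < S)
    (hCt : C = Real.cos (Real.pi * t)) (hSt : S = Real.sin (Real.pi * t)) (ht0 : 0 < t)
    (ht1 : t < 1 / 2) (hr : 0 < r) (hΦ : 0 < Φ) (hh : h * r = C * Φ) (hρ : 0 < ρ)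
    (hω : ω = 2 * Real.arctan (Φ / r)) {b : ℝ} (hb : 0 < b) (hb2 : b ^ 2 * S = h + ρ)
    (l : ℕ) {y : ℝ} (hy : 0 < y)
    (heq : (1 - (C / Real.cosh y) ^ 2) * Real.cosh ((2 * l + 1) * y) ^ 2 = Φ ^ 2) {κ : ℝ}
    (hκ : κ = Real.arctan (S / C * ((Real.cosh y * Real.sinh ((2 * l + 1) * y)) /
      (Real.sinh y * Real.cosh ((2 * l + 1) * y))))) {β : ℝ} (hβ : β = ang l (r / Φ) y) (α : ℝ)
    {P : CircleDeg1Liftˣ}
    (hP : P = (Ut hb α * tr t * (Ut hb α)⁻¹) *
      (Ut hb (α - 2 * β) * tr t * (Ut hb (α - 2 * β))⁻¹)⁻¹) :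
    P ^ ((l : ℤ) + 1) * Ut hb (α - 2 * β + ω + Real.pi) = Ut hb α * tr ((κ + Real.pi * t) / Real.pi) ∧
    P ^ (-(l : ℤ)) * Ut hb (α - 2 * β) =
      Ut hb (α + ω + Real.pi) * tr ((κ - Real.pi * t - Real.pi) / Real.pi) := by
  have hp := Real.pi_pos
  have hCS : C ^ 2 + S ^ 2 = 1 := by rw [hCt, hSt]; exact Real.cos_sq_add_sin_sq _
  obtain ⟨c, u, v, q, H', hu0, hcq, huq, k1, k2, k3, k4, k5, k6, k7, hYY⟩ :=
    col_facts H HΦ hC0 hS0 hCS hr hΦ hh hρ l hy heq hκ
  rw [← hβ] at k3 k4 hYY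
  -- ω
  have hTw : 0 < Φ / r := div_pos hΦ hr
  have hω2 : ω / 2 = Real.arctan (Φ / r) := by rw [hω]; ring
  have hcosω : Real.cos (ω / 2) = r := by
    rw [hω2, Real.cos_arctan]
    have e1 : 1 + (Φ / r) ^ 2 = (1 / r) ^ 2 := by field_simp; linarith
    rw [e1, Real.sqrt_sq (by positivity)]
    field_simp
  have hsinω : Real.sin (ω / 2) = Φ := by
    have h1 : Real.sin (Real.arctan (Φ / r)) = Φ / r * Real.cos (Real.arctan (Φ / r)) := by
      have := Real.tan_arctan (Φ / r)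
      rw [Real.tan_eq_sin_div_cos] at this
      have h2 := Real.cos_arctan_pos (Φ / r)
      rw [div_eq_iff h2.ne'] at this
      exact this
    rw [hω2, h1, ← hω2, hcosω]; field_simp
  have hω0 : 0 < ω := by
    rw [hω]; have := Real.arctan_pos.2 hTw; linarith
  have hω1 : ω < Real.pi := by
    rw [hω]; have := Real.arctan_lt_pi_div_two (Φ / r); linarith
  have hβ0 : 0 < β := by rw [hβ]; exact ang_pos l (by positivity) hy
  have hβ1 : β < Real.pi / 2 := by rw [hβ]; exact Real.arctan_lt_pi_div_two _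
  have hβω : 2 * β + ω ≤ Real.pi := by
    have h1 : β ≤ Real.arctan (r / Φ) := by rw [hβ]; exact ang_le l (by positivity) hy
    have h2 : Real.arctan (r / Φ) = Real.pi / 2 - Real.arctan (Φ / r) := by
      rw [← Real.arctan_inv_of_pos hTw, inv_div]
    rw [h2] at h1
    rw [hω]; linarith
  -- κ
  have hcy := Real.cosh_pos y
  have hw0 : 0 < (2 * (l : ℝ) + 1) * y := by positivity
  have hcw := Real.cosh_pos ((2 * l + 1) * y)
  have hsw : 0 < Real.sinh ((2 * l + 1) * y) := Real.sinh_pos_iff.2 hw0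
  have hsy : 0 < Real.sinh y := Real.sinh_pos_iff.2 hy
  have hκ1 : κ < Real.pi / 2 := by rw [hκ]; exact Real.arctan_lt_pi_div_two _
  have hκ0 : Real.pi * t ≤ κ := by
    have h1 : Real.arctan (S / C) ≤ κ := by
      rw [hκ]
      apply Real.arctan_le_arctan_iff.2
      have h3 : S / C * 1 ≤ S / C * ((Real.cosh y * Real.sinh ((2 * l + 1) * y)) /
          (Real.sinh y * Real.cosh ((2 * l + 1) * y))) := by
        apply mul_le_mul_of_nonneg_left _ (by positivity)
        rw [one_le_div (by positivity)]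
        have h4 : y ≤ (2 * l + 1) * y := by nlinarith [mul_nonneg (Nat.cast_nonneg (α := ℝ) l) hy.le]
        exact sinh_cosh_le' hy.le h4
      linarith
    have h2 : Real.arctan (S / C) = Real.pi * t := by
      rw [hSt, hCt, ← Real.tan_eq_sin_div_cos]
      exact Real.arctan_tan (by nlinarith) (by nlinarith)
    linarith
  have ht2 : Real.pi * t < Real.pi / 2 := by nlinarith
  have ht3 : 0 < Real.pi * t := by positivity
  -- frames
  set R := rotS ((α - β) / 2) with hR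
  have f1 : Us hb α = R * Us hb β := by rw [hR, ← Us_rot]; congr 1; ring
  have f2 : Us hb (α - 2 * β) = R * Us hb (-β) := by rw [hR, ← Us_rot]; congr 1; ring
  have f3 : Us hb (α - 2 * β + ω + Real.pi) = R * Us hb (-β + ω + Real.pi) := by
    rw [hR, ← Us_rot]; congr 1; ring
  have f4 : Us hb (α + ω + Real.pi) = R * Us hb (β + ω + Real.pi) := by
    rw [hR, ← Us_rot]; congr 1; ring
  -- the hyperbolic element
  have g1 : Us hb β * rotS (Real.pi * t) * (Us hb β)⁻¹ = BB C h ρ H β :=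
    (BB_frame H hS0 hCt hSt hb hb2 β).symm
  have g2 : Us hb (-β) * rotS (Real.pi * t) * (Us hb (-β))⁻¹ = BB C h ρ H (-β) :=
    (BB_frame H hS0 hCt hSt hb hb2 (-β)).symm
  have htr : (tr t, rotS (Real.pi * t)) ∈ Lp := by
    have := rot_mem (Real.pi * t)
    rwa [mul_div_cancel_left₀ _ hp.ne'] at this
  have hmem : ∀ α, (Ut hb α * tr t * (Ut hb α)⁻¹, Us hb α * rotS (Real.pi * t) * (Us hb α)⁻¹) ∈ Lp :=
    fun α => Lp_mul (Lp_mul (frame_mem hb α) htr) (Lp_inv (frame_mem hb α))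
  have hPL : (P, R * YY c u v H' (2 * y) * R⁻¹) ∈ Lp := by
    have h1 := Lp_mul (hmem α) (Lp_inv (hmem (α - 2 * β)))
    rw [← hP] at h1
    have h2 : Us hb α * rotS (Real.pi * t) * (Us hb α)⁻¹ *
        (Us hb (α - 2 * β) * rotS (Real.pi * t) * (Us hb (α - 2 * β))⁻¹)⁻¹ =
        R * YY c u v H' (2 * y) * R⁻¹ := by
      rw [← hYY, ← g1, ← g2, f1, f2]; group
    rwa [h2] at h1
  have hbd : ∀ x, x - 1 < (P : CircleDeg1Lift) x ∧ (P : CircleDeg1Lift) x < x + 1 := by
    intro x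
    set A1 := Ut hb α * tr t * (Ut hb α)⁻¹ with hA1
    set A2 := Ut hb (α - 2 * β) * tr t * (Ut hb (α - 2 * β))⁻¹ with hA2
    have hPx : (P : CircleDeg1Lift) x = (A1 : CircleDeg1Lift) ((A2⁻¹ : CircleDeg1Liftˣ) x) := by
      rw [hP]; rfl
    set z := ((A2⁻¹ : CircleDeg1Liftˣ) : CircleDeg1Lift) x with hz
    have hz' : (A2 : CircleDeg1Lift) z = x := units_apply_inv_apply A2 x
    have b1 : z < (A2 : CircleDeg1Lift) z := conj_tr_gt _ ht0 z
    have b2 : (A2 : CircleDeg1Lift) z < z + (1 : ℤ) :=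
      conj_tr_lt _ 1 (by push_cast; linarith) z
    have b3 : z < (A1 : CircleDeg1Lift) z := conj_tr_gt _ ht0 z
    have b4 : (A1 : CircleDeg1Lift) z < z + (1 : ℤ) :=
      conj_tr_lt _ 1 (by push_cast; linarith) z
    rw [hPx]
    push_cast at b2 b4
    constructor <;> linarith
  obtain ⟨x0, hx0⟩ := exists_fix H' hu0 hPL hbd
  have hpow : ∀ n : ℤ, (P ^ n, R * YY c u v H' (n * (2 * y)) * R⁻¹) ∈ Lp := by
    intro n
    have h1 := Lp_zpow hPL n
    have h2 : (R * YY c u v H' (2 * y) * R⁻¹) ^ n = R * YY c u v H' (n * (2 * y)) * R⁻¹ := by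
      rw [conj_zpow]
      congr 2
      rcases Int.eq_nat_or_neg n with ⟨m, rfl | rfl⟩
      · rw [_root_.zpow_natCast, YY_nat]; norm_cast
      · rw [_root_.zpow_neg, _root_.zpow_natCast, YY_nat, ← YY_neg]
        congr 1; push_cast; ring
    rwa [h2] at h1
  constructor
  · -- first transport
    have hM : R * YY c u v H' (((-((l : ℤ) + 1) : ℤ) : ℝ) * (2 * y)) * R⁻¹ * Us hb α =
        Us hb (α - 2 * β + ω + Real.pi) * rotS (-(κ + Real.pi * t)) := by
      have key := transport_col H' (w := (2 * l + 1) * y) (t := Real.pi * t) hcq huq hsinω.symm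
        hcosω.symm hr hρ hS0 hCt hSt hb hb2 H k1 k2 k3 k4 k5 k6 k7
      rw [f1, f3, mul_assoc R (Us hb (-β + ω + Real.pi)), ← key]
      have e : -((2 * (l : ℝ) + 1) * y + y) = ((-((l : ℤ) + 1) : ℤ) : ℝ) * (2 * y) := by
        push_cast; ring
      rw [e]; group
    have h1 := transport hb (hpow (-((l : ℤ) + 1))) (fix_zpow hx0 _) hM (by linarith) (by linarith)
      (by linarith) (by linarith)
    have h2 : P ^ ((l : ℤ) + 1) * (P ^ (-((l : ℤ) + 1)) * Ut hb α) = Ut hb α := by group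
    rw [h1, neg_div, tr_neg] at h2
    calc P ^ ((l : ℤ) + 1) * Ut hb (α - 2 * β + ω + Real.pi) =
        P ^ ((l : ℤ) + 1) * (Ut hb (α - 2 * β + ω + Real.pi) *
          (tr ((κ + Real.pi * t) / Real.pi))⁻¹) * tr ((κ + Real.pi * t) / Real.pi) := by group
      _ = _ := by rw [h2]
  · -- second transport
    have hM : R * YY c u v H' (((-(l : ℤ) : ℤ) : ℝ) * (2 * y)) * R⁻¹ * Us hb (α - 2 * β) =
        Us hb (α + ω + Real.pi) * rotS (κ - Real.pi * t - Real.pi) := by
      have k1' : Real.cosh (-y) * c = C := by rw [Real.cosh_neg]; exact k1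
      have k2' : Real.cosh (-y) * u = h := by rw [Real.cosh_neg]; exact k2
      have k3' : Real.cosh (-y) * v = ρ * Real.cos (-β) := by
        rw [Real.cosh_neg, Real.cos_neg]; exact k3
      have k4' : Real.sinh (-y) = ρ * Real.sin (-β) := by
        rw [Real.sinh_neg, Real.sin_neg, k4]; ring
      have k6' : ρ * r * Real.sin (Real.pi - κ) = S * Real.sinh ((2 * l + 1) * y) := by
        rw [Real.sin_pi_sub]; exact k6
      have k7' : ρ * r * Real.cos (Real.pi - κ) = c * Real.cosh ((2 * l + 1) * y) *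
          Real.sinh (-y) := by
        rw [Real.cos_pi_sub, Real.sinh_neg]; linear_combination -k7
      have key := transport_col H' (w := (2 * l + 1) * y) (t := Real.pi * t) hcq huq hsinω.symm
        hcosω.symm hr hρ hS0 hCt hSt hb hb2 H k1' k2' k3' k4' k5 k6' k7'
      rw [neg_neg] at key
      have e2 : -(Real.pi - κ + Real.pi * t) = κ - Real.pi * t - Real.pi := by ring
      rw [e2] at key
      rw [f2, f4, mul_assoc R (Us hb (β + ω + Real.pi)), ← key]
      have e : -((2 * (l : ℝ) + 1) * y + -y) = ((-(l : ℤ) : ℤ) : ℝ) * (2 * y) := by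
        push_cast; ring
      rw [e]; group
    exact transport hb (hpow (-(l : ℤ))) (fix_zpow hx0 _) hM (by linarith) (by linarith)
      (by linarith) (by linarith)

end Pool.Agent.L7h81.Pz
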