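import Mathlib

set_option autoImplicit false

/-!
# Homomorphisms from the kernel of a degree map, and left orders on groups of order automorphisms
-/

namespace Pool.Agent.L7h81.Pz

section kernel
variable {ι : Type*} {G : Type*} [Group G]

/-- The degree on the free group. -/
def fdeg (ι : Type*) : FreeGroup ι →* Multiplicative ℤ := FreeGroup.lift fun _ => Multiplicative.ofAdd 1

/-- The words that go to `z ^ m` and have degree `n m`. -/
def NN (a : ι → G) (z : G) (n : ℕ) : Subgroup (FreeGroup ι) where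
  carrier := {w | ∃ m : ℤ, FreeGroup.lift a w = z ^ m ∧ (fdeg ι w).toAdd = n * m}
  one_mem' := ⟨0, by simp, by simp⟩
  mul_mem' := by
    rintro v w ⟨m, h1, h2⟩ ⟨m', h1', h2'⟩
    refine ⟨m + m', by rw [map_mul, h1, h1', zpow_add], ?_⟩
    rw [map_mul, toAdd_mul, h2, h2']; ring
  inv_mem' := by
    rintro v ⟨m, h1, h2⟩
    refine ⟨-m, by rw [map_inv, h1, zpow_neg], ?_⟩
    rw [map_inv, toAdd_inv, h2]; ring

theorem NN_normal (a : ι → G) {z : G} (hz : ∀ g, g * z = z * g) (n : ℕ) : (NN a z n).Normal := by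
  refine ⟨?_⟩
  rintro w ⟨m, h1, h2⟩ v
  refine ⟨m, ?_, ?_⟩
  · rw [map_mul, map_mul, map_inv, h1]
    have hc : Commute (FreeGroup.lift a v) (z ^ m) := (show Commute _ z from hz _).zpow_right m
    rw [hc.eq, mul_inv_cancel_right]
  · rw [map_mul (fdeg ι), map_mul (fdeg ι), map_inv (fdeg ι), toAdd_mul, toAdd_mul, toAdd_inv, h2]; ring

theorem kernel_hom {R : Set (FreeGroup ι)} {n : ℕ} (hn : n ≠ 0)
    (deg : PresentedGroup R →* Multiplicative (ZMod n))
    (hdeg : ∀ i, deg (PresentedGroup.of i) = Multiplicative.ofAdd 1) (a : ι → G) (z : G)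
    (hz : ∀ g, g * z = z * g) (hR : ∀ w ∈ R, w ∈ NN a z n) :
    ∃ f : deg.ker →* G, ∀ (i j : ι) (h : PresentedGroup.of i * (PresentedGroup.of j)⁻¹ ∈ deg.ker),
      f ⟨PresentedGroup.of i * (PresentedGroup.of j)⁻¹, h⟩ = a i * (a j)⁻¹ := by
  classical
  set μ := PresentedGroup.mk R with hμ
  set D : Subgroup (FreeGroup ι) := (deg.comp μ).ker with hD
  have hcast : ∀ w, (((fdeg ι w).toAdd : ℤ) : ZMod n) = (deg (μ w)).toAdd := by
    have : ((Int.castAddHom (ZMod n)).toMultiplicative).comp (fdeg ι) = deg.comp μ := by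
      ext i
      show ((Int.castAddHom (ZMod n)).toMultiplicative) (fdeg ι (FreeGroup.of i)) =
        deg (μ (FreeGroup.of i))
      have h1 : deg (μ (FreeGroup.of i)) = Multiplicative.ofAdd 1 := hdeg i
      rw [h1]
      simp [fdeg]
    intro w
    have h := DFunLike.congr_fun this w
    have h' := congrArg Multiplicative.toAdd h
    exact h'
  have hdvd : ∀ w ∈ D, (n : ℤ) ∣ (fdeg ι w).toAdd := by
    intro w hw
    have h : deg (μ w) = 1 := hw
    rw [← ZMod.intCast_zmod_eq_zero_iff_dvd _ n, hcast, h]; rfl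
  let fD : D →* G :=
    { toFun := fun w => FreeGroup.lift a w.1 * z ^ (-((fdeg ι w.1).toAdd / (n : ℤ)))
      map_one' := by simp
      map_mul' := by
        intro v w
        have hc : Commute (FreeGroup.lift a w.1) (z ^ (-((fdeg ι v.1).toAdd / (n : ℤ)))) :=
          (show Commute _ z from hz _).zpow_right _
        have e : (fdeg ι (v * w : D).1).toAdd / (n : ℤ) =
            (fdeg ι v.1).toAdd / (n : ℤ) + (fdeg ι w.1).toAdd / (n : ℤ) := by
          have : (fdeg ι (v * w : D).1).toAdd = (fdeg ι v.1).toAdd + (fdeg ι w.1).toAdd := by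
            show (fdeg ι (v.1 * w.1)).toAdd = _
            rw [map_mul, toAdd_mul]
          rw [this, Int.add_ediv_of_dvd_left (hdvd _ v.2)]
        rw [e, neg_add, zpow_add]
        show FreeGroup.lift a (v.1 * w.1) * _ = _
        rw [map_mul]
        calc FreeGroup.lift a v.1 * FreeGroup.lift a w.1 *
              (z ^ (-((fdeg ι v.1).toAdd / (n : ℤ))) * z ^ (-((fdeg ι w.1).toAdd / (n : ℤ))))
            = FreeGroup.lift a v.1 * (FreeGroup.lift a w.1 *
              z ^ (-((fdeg ι v.1).toAdd / (n : ℤ)))) * z ^ (-((fdeg ι w.1).toAdd / (n : ℤ))) := by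
              group
          _ = _ := by rw [hc.eq]; group }
  let π : D →* deg.ker :=
    { toFun := fun w => ⟨μ w.1, w.2⟩
      map_one' := by ext; simp
      map_mul' := by intro v w; ext; simp }
  have hπ : Function.Surjective π := by
    rintro ⟨g, hg⟩
    obtain ⟨w, rfl⟩ := PresentedGroup.mk_surjective R g
    exact ⟨⟨w, hg⟩, rfl⟩
  have hker : π.ker ≤ fD.ker := by
    rintro ⟨w, hw⟩ h
    have h1 : μ w = 1 := congrArg Subtype.val h
    have h2 : w ∈ Subgroup.normalClosure R := by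
      have : (QuotientGroup.mk w : FreeGroup ι ⧸ Subgroup.normalClosure R) = 1 := h1
      exact (QuotientGroup.eq_one_iff w).1 this
    have := NN_normal a hz n
    have h3 : w ∈ NN a z n := (Subgroup.normalClosure_le_normal (fun v hv => hR v hv)) h2
    obtain ⟨m, h4, h5⟩ := h3
    show FreeGroup.lift a w * z ^ (-((fdeg ι w).toAdd / (n : ℤ))) = 1
    have hn' : (n : ℤ) ≠ 0 := by exact_mod_cast hn
    rw [h4, h5, Int.mul_ediv_cancel_left _ hn', ← zpow_add, add_neg_cancel, zpow_zero]
  set f := MonoidHom.liftOfSurjective π hπ ⟨fD, hker⟩ with hf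
  refine ⟨f, fun i j h => ?_⟩
  have hw : FreeGroup.of i * (FreeGroup.of j)⁻¹ ∈ D := by
    show deg (μ (FreeGroup.of i * (FreeGroup.of j)⁻¹)) = 1
    rw [map_mul, map_inv]; exact h
  have e1 : (⟨PresentedGroup.of i * (PresentedGroup.of j)⁻¹, h⟩ : deg.ker) =
      π ⟨FreeGroup.of i * (FreeGroup.of j)⁻¹, hw⟩ := by
    ext
    show PresentedGroup.of i * (PresentedGroup.of j)⁻¹ = μ (FreeGroup.of i * (FreeGroup.of j)⁻¹)
    rw [map_mul, map_inv]; rfl
  rw [e1, hf, MonoidHom.liftOfRightInverse_comp_apply]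
  show FreeGroup.lift a (FreeGroup.of i * (FreeGroup.of j)⁻¹) *
    z ^ (-((fdeg ι (FreeGroup.of i * (FreeGroup.of j)⁻¹)).toAdd / (n : ℤ))) = _
  simp [fdeg]

end kernel

/-- The group of order automorphisms of the line carries a left-invariant total order. -/
theorem orderIso_lo : ∃ lt : (ℝ ≃o ℝ) → (ℝ ≃o ℝ) → Prop, IsStrictTotalOrder (ℝ ≃o ℝ) lt ∧
    ∀ a b c : ℝ ≃o ℝ, lt a b ↔ lt (c * a) (c * b) := by
  let lt : (ℝ ≃o ℝ) → (ℝ ≃o ℝ) → Prop := fun f g =>
    ∃ x, f x < g x ∧ ∀ y, WellOrderingRel y x → f y = g y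
  refine ⟨lt, ?_, ?_⟩
  · have htri : ∀ f g : ℝ ≃o ℝ, f ≠ g → lt f g ∨ lt g f := by
      intro f g hfg
      have hne : {x | f x ≠ g x}.Nonempty := by
        by_contra h
        rw [Set.not_nonempty_iff_eq_empty] at h
        apply hfg
        ext x
        by_contra hx
        have : x ∈ ({x | f x ≠ g x} : Set ℝ) := hx
        rw [h] at this
        exact this
      set x := WellOrderingRel.isWellOrder.wf.min _ hne with hx
      have h1 : f x ≠ g x := WellOrderingRel.isWellOrder.wf.min_mem _ hne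
      have h2 : ∀ y, WellOrderingRel y x → f y = g y := by
        intro y hy
        by_contra h
        exact WellOrderingRel.isWellOrder.wf.not_lt_min _ h hy
      rcases lt_or_gt_of_ne h1 with h | h
      · exact Or.inl ⟨x, h, h2⟩
      · exact Or.inr ⟨x, h, fun y hy => (h2 y hy).symm⟩
    have hirr : ∀ f : ℝ ≃o ℝ, ¬ lt f f := fun f ⟨x, h, _⟩ => lt_irrefl _ h
    have htrans : ∀ f g h : ℝ ≃o ℝ, lt f g → lt g h → lt f h := by
      rintro f g h ⟨x, h1, h2⟩ ⟨y, h3, h4⟩
      rcases trichotomous_of WellOrderingRel x y with hxy | rfl | hxy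
      · refine ⟨x, by rw [← h4 x hxy]; exact h1, fun z hz => ?_⟩
        rw [h2 z hz, h4 z (_root_.trans hz hxy)]
      · exact ⟨x, h1.trans h3, fun z hz => (h2 z hz).trans (h4 z hz)⟩
      · refine ⟨y, by rw [h2 y hxy]; exact h3, fun z hz => ?_⟩
        rw [h2 z (_root_.trans hz hxy), h4 z hz]
    exact
      { trichotomous := fun f g h1 h2 => by
          by_contra h
          rcases htri f g h with h' | h'
          · exact h1 h'
          · exact h2 h'
        irrefl := hirr
        trans := htrans }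
  · intro a b c
    constructor
    · rintro ⟨x, h1, h2⟩
      exact ⟨x, c.strictMono h1, fun y hy => congrArg c (h2 y hy)⟩
    · rintro ⟨x, h1, h2⟩
      exact ⟨x, c.lt_iff_lt.1 h1, fun y hy => c.injective (h2 y hy)⟩

end Pool.Agent.L7h81.Pz
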