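import Mathlib

set_option autoImplicit false

/-!
# Lifts of the action of `SL(2, ℝ)` on the circle of lines

`Lifts f M`: the homeomorphism `f` of the line, commuting with the translation by one, is a lift of
the action of the matrix `M` on the lines in the plane (`x` corresponds to the line spanned by
`(cos (π x), sin (π x))`).
-/

namespace Pool.Agent.L7h81.Pz

open Matrix CircleDeg1Lift

/-- The vector `(cos (π x), sin (π x))`. -/
noncomputable def vec (x : ℝ) : Fin 2 → ℝ := ![Real.cos (Real.pi * x), Real.sin (Real.pi * x)]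

/-- `f` is a lift of the action of `M`. -/
def Lifts (f : CircleDeg1Liftˣ) (M : Matrix (Fin 2) (Fin 2) ℝ) : Prop :=
  ∀ x : ℝ, ∃ c : ℝ, c ≠ 0 ∧ M *ᵥ vec x = c • vec ((f : CircleDeg1Lift) x)

theorem vec_ne (x : ℝ) : vec x ≠ 0 := by
  intro h
  have h0 : Real.cos (Real.pi * x) = 0 := by simpa [vec] using congrFun h 0
  have h1 : Real.sin (Real.pi * x) = 0 := by simpa [vec] using congrFun h 1
  have := Real.sin_sq_add_cos_sq (Real.pi * x)
  rw [h0, h1] at this
  norm_num at this

theorem sub_int {x y c : ℝ} (h : vec x = c • vec y) : ∃ m : ℤ, x - y = m := by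
  have h0 : Real.cos (Real.pi * x) = c * Real.cos (Real.pi * y) := by
    simpa [vec] using congrFun h 0
  have h1 : Real.sin (Real.pi * x) = c * Real.sin (Real.pi * y) := by
    simpa [vec] using congrFun h 1
  have h2 : Real.sin (Real.pi * (x - y)) = 0 := by
    rw [mul_sub, Real.sin_sub, h0, h1]; ring
  obtain ⟨m, hm⟩ := Real.sin_eq_zero_iff.1 h2
  refine ⟨m, ?_⟩
  have hp := Real.pi_ne_zero
  have : Real.pi * (x - y) = Real.pi * m := by rw [← hm]; ring
  exact mul_left_cancel₀ hp this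

theorem lifts_one : Lifts 1 1 := fun x => ⟨1, one_ne_zero, by simp⟩

theorem Lifts.mul {f g : CircleDeg1Liftˣ} {M N : Matrix (Fin 2) (Fin 2) ℝ} (hf : Lifts f M)
    (hg : Lifts g N) : Lifts (f * g) (M * N) := by
  intro x
  obtain ⟨c, hc, h⟩ := hg x
  obtain ⟨d, hd, h'⟩ := hf ((g : CircleDeg1Lift) x)
  refine ⟨c * d, mul_ne_zero hc hd, ?_⟩
  rw [← Matrix.mulVec_mulVec, h, Matrix.mulVec_smul, h', smul_smul]
  rfl

theorem Lifts.inv {f : CircleDeg1Liftˣ} {M N : Matrix (Fin 2) (Fin 2) ℝ} (hf : Lifts f M)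
    (hN : N * M = 1) : Lifts f⁻¹ N := by
  intro x
  obtain ⟨c, hc, h⟩ := hf ((f⁻¹ : CircleDeg1Liftˣ) x)
  rw [units_apply_inv_apply] at h
  refine ⟨c⁻¹, inv_ne_zero hc, ?_⟩
  have h1 : N *ᵥ (M *ᵥ vec ((f⁻¹ : CircleDeg1Liftˣ) x)) = N *ᵥ (c • vec x) := by rw [h]
  rw [Matrix.mulVec_mulVec, hN, Matrix.one_mulVec, Matrix.mulVec_smul] at h1
  rw [h1, smul_smul, inv_mul_cancel₀ hc, one_smul]

/-- A lift of the identity is the translation by an integer. -/
theorem eq_translate {f g : CircleDeg1Liftˣ}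
    (h : ∀ x : ℝ, ∃ m : ℤ, (f : CircleDeg1Lift) x - (g : CircleDeg1Lift) x = m)
    (hτ : translationNumber (f : CircleDeg1Lift) = translationNumber (g : CircleDeg1Lift)) :
    f = g := by
  set u : CircleDeg1Liftˣ := f * g⁻¹ with hu
  have hf : f = u * g := by rw [hu]; group
  have h1 : ∀ x : ℝ, ∃ m : ℤ, (u : CircleDeg1Lift) x = x + m := by
    intro x
    obtain ⟨m, hm⟩ := h ((g⁻¹ : CircleDeg1Liftˣ) x)
    rw [units_apply_inv_apply] at hm
    refine ⟨m, ?_⟩
    have : (u : CircleDeg1Lift) x = (f : CircleDeg1Lift) ((g⁻¹ : CircleDeg1Liftˣ) x) := by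
      rw [hu]; rfl
    rw [this]; linarith
  obtain ⟨m, hm⟩ := h1 0
  have key : ∀ x : ℝ, (u : CircleDeg1Lift) x = x + m := by
    have h2 : ∀ x : ℝ, 0 ≤ x → x < 1 → (u : CircleDeg1Lift) x = x + m := by
      intro x hx0 hx1
      rcases hx0.eq_or_lt with rfl | hx0
      · exact hm
      obtain ⟨k, hk⟩ := h1 x
      have a1 := (u : CircleDeg1Lift).mono hx0.le
      have a2 := (u : CircleDeg1Lift).mono hx1.le
      have a3 : (u : CircleDeg1Lift) 1 = (u : CircleDeg1Lift) 0 + 1 := by
        have := (u : CircleDeg1Lift).map_add_one 0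
        rwa [zero_add] at this
      rw [hm, hk] at a1
      rw [hk, a3, hm] at a2
      have b1 : m - 1 < k := by
        have : ((m - 1 : ℤ) : ℝ) < k := by push_cast; linarith
        exact_mod_cast this
      have b2 : k < m + 1 := by
        have : (k : ℝ) < ((m + 1 : ℤ) : ℝ) := by push_cast; linarith
        exact_mod_cast this
      have : k = m := by omega
      rw [hk, this]
    intro x
    have h3 := (u : CircleDeg1Lift).map_fract_sub_fract_eq x
    rw [h2 _ (Int.fract_nonneg x) (Int.fract_lt_one x)] at h3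
    linarith
  have hut : (u : CircleDeg1Lift) = translate (Multiplicative.ofAdd (m : ℝ)) := by
    ext x
    rw [key x, translate_apply, add_comm]
  have hcomm : Commute (u : CircleDeg1Lift) (g : CircleDeg1Lift) := by
    show (u : CircleDeg1Lift) * g = g * u
    ext x
    show (u : CircleDeg1Lift) ((g : CircleDeg1Lift) x) = (g : CircleDeg1Lift) ((u : CircleDeg1Lift) x)
    rw [key, key, map_add_int]
  have h4 : translationNumber (f : CircleDeg1Lift) =
      translationNumber (u : CircleDeg1Lift) + translationNumber (g : CircleDeg1Lift) := by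
    rw [hf, Units.val_mul, translationNumber_mul_of_commute hcomm]
  have h5 : translationNumber (u : CircleDeg1Lift) = m := by
    rw [hut, translationNumber_translate]
  have h6 : (m : ℝ) = 0 := by linarith
  have h7 : u = 1 := by
    ext x
    rw [key x, h6, add_zero]; rfl
  rw [hf, h7, one_mul]

theorem Lifts.unique {f g : CircleDeg1Liftˣ} {M : Matrix (Fin 2) (Fin 2) ℝ} (hf : Lifts f M)
    (hg : Lifts g M)
    (hτ : translationNumber (f : CircleDeg1Lift) = translationNumber (g : CircleDeg1Lift)) :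
    f = g := by
  refine eq_translate (fun x => ?_) hτ
  obtain ⟨c, hc, h⟩ := hf x
  obtain ⟨d, hd, h'⟩ := hg x
  refine sub_int (c := c⁻¹ * d) ?_
  rw [mul_smul, ← h', h, smul_smul, inv_mul_cancel₀ hc, one_smul]

/-- Rotation matrix. -/
noncomputable def rot (t : ℝ) : Matrix (Fin 2) (Fin 2) ℝ :=
  !![Real.cos t, -Real.sin t; Real.sin t, Real.cos t]

theorem lifts_rot (t : ℝ) : Lifts (translate (Multiplicative.ofAdd (t / Real.pi))) (rot t) := by
  intro x
  refine ⟨1, one_ne_zero, ?_⟩
  rw [translate_apply, one_smul]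
  have hp := Real.pi_ne_zero
  have e : Real.pi * (t / Real.pi + x) = t + Real.pi * x := by field_simp
  ext i
  fin_cases i
  · simp [vec, rot, Matrix.mulVec, dotProduct, Fin.sum_univ_two, e, Real.cos_add]; ring
  · simp [vec, rot, Matrix.mulVec, dotProduct, Fin.sum_univ_two, e, Real.sin_add]

/-! ### Diagonal matrices -/

/-- The diagonal matrix with entries `a`, `a⁻¹`. -/
noncomputable def dia (a : ℝ) : Matrix (Fin 2) (Fin 2) ℝ := !![a, 0; 0, a⁻¹]

/-- The angle by which `dia a` turns the vector `vec x`. -/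
noncomputable def turn (a x : ℝ) : ℝ :=
  Real.arctan ((a⁻¹ - a) * Real.sin (Real.pi * x) * Real.cos (Real.pi * x) /
    (a * Real.cos (Real.pi * x) ^ 2 + a⁻¹ * Real.sin (Real.pi * x) ^ 2))

theorem den_pos {a : ℝ} (ha : 0 < a) (x : ℝ) :
    0 < a * Real.cos (Real.pi * x) ^ 2 + a⁻¹ * Real.sin (Real.pi * x) ^ 2 := by
  have h := Real.sin_sq_add_cos_sq (Real.pi * x)
  have h' := inv_pos.2 ha
  by_cases hc : Real.cos (Real.pi * x) = 0
  · rw [hc] at h ⊢
    have : Real.sin (Real.pi * x) ^ 2 = 1 := by linarith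
    rw [this]; simpa using h'
  · have : 0 < Real.cos (Real.pi * x) ^ 2 := by positivity
    positivity

/-- The lift of the action of `dia a`. -/
noncomputable def diaFun (a x : ℝ) : ℝ := x + turn a x / Real.pi

theorem dia_vec {a : ℝ} (ha : 0 < a) (x : ℝ) :
    ∃ c : ℝ, 0 < c ∧ dia a *ᵥ vec x = c • vec (diaFun a x) := by
  set s := Real.sin (Real.pi * x) with hs
  set c := Real.cos (Real.pi * x) with hc
  set D := a * c ^ 2 + a⁻¹ * s ^ 2 with hD
  have hD0 : 0 < D := den_pos ha x
  set T := (a⁻¹ - a) * s * c / D with hT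
  have hturn : turn a x = Real.arctan T := rfl
  have hcos : 0 < Real.cos (Real.arctan T) := Real.cos_arctan_pos T
  have hsin : Real.sin (Real.arctan T) = T * Real.cos (Real.arctan T) := by
    have := Real.tan_arctan T
    rw [Real.tan_eq_sin_div_cos] at this
    field_simp at this
    linarith
  have e : Real.pi * diaFun a x = Real.pi * x + Real.arctan T := by
    unfold diaFun
    rw [hturn]
    have hp := Real.pi_ne_zero
    field_simp
  have h1 := Real.sin_sq_add_cos_sq (Real.pi * x)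
  rw [← hs, ← hc] at h1
  refine ⟨D / Real.cos (Real.arctan T), by positivity, ?_⟩
  have hTD : T * D = (a⁻¹ - a) * s * c := by rw [hT]; field_simp
  have haa : a * a⁻¹ = 1 := mul_inv_cancel₀ ha.ne'
  ext i
  fin_cases i
  · simp only [vec, dia, Matrix.mulVec, dotProduct, Fin.sum_univ_two, e, Real.cos_add, hsin]
    simp only [Matrix.of_apply, Matrix.cons_val', Matrix.cons_val_zero, Matrix.cons_val_one,
      Matrix.cons_val_fin_one, Pi.smul_apply, smul_eq_mul, Fin.zero_eta, Fin.isValue]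
    rw [← hs, ← hc]
    field_simp
    have : a * c = D * c - (T * D) * s := by
      rw [hTD, hD]; linear_combination (-a * c) * h1
    linear_combination this
  · simp only [vec, dia, Matrix.mulVec, dotProduct, Fin.sum_univ_two, e, Real.sin_add, hsin]
    simp only [Matrix.of_apply, Matrix.cons_val', Matrix.cons_val_zero, Matrix.cons_val_one,
      Matrix.cons_val_fin_one, Pi.smul_apply, smul_eq_mul, Fin.mk_one, Fin.isValue]
    rw [← hs, ← hc]
    have : a⁻¹ * s = D * s + (T * D) * c := by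
      rw [hTD, hD]; linear_combination (-a⁻¹ * s) * h1
    field_simp
    field_simp at this
    linear_combination this

theorem diaFun_add_one {a : ℝ} (x : ℝ) : diaFun a (x + 1) = diaFun a x + 1 := by
  unfold diaFun turn
  rw [mul_add, mul_one, Real.sin_add_pi, Real.cos_add_pi]
  have : (a⁻¹ - a) * -Real.sin (Real.pi * x) * -Real.cos (Real.pi * x) =
    (a⁻¹ - a) * Real.sin (Real.pi * x) * Real.cos (Real.pi * x) := by ring
  rw [this, neg_sq, neg_sq]; ring

theorem diaFun_zero (a : ℝ) : diaFun a 0 = 0 := by simp [diaFun, turn]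

theorem continuous_diaFun {a : ℝ} (ha : 0 < a) : Continuous (diaFun a) := by
  unfold diaFun turn
  refine continuous_id.add (Continuous.div_const ?_ _)
  refine Real.continuous_arctan.comp ?_
  refine Continuous.div (by fun_prop) (by fun_prop) fun x => (den_pos ha x).ne'

theorem diaFun_add_int {a : ℝ} (x : ℝ) (m : ℤ) : diaFun a (x + m) = diaFun a x + m := by
  have h : ∀ n : ℕ, ∀ x, diaFun a (x + n) = diaFun a x + n := by
    intro n
    induction n with
    | zero => simp
    | succ n ih => intro x; push_cast; rw [← add_assoc, diaFun_add_one, ih]; ring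
  rcases Int.eq_nat_or_neg m with ⟨n, rfl | rfl⟩
  · exact_mod_cast h n x
  · have := h n (x + ((-(n : ℤ) : ℤ) : ℝ))
    push_cast at this ⊢
    rw [neg_add_cancel_right] at this
    linarith

theorem diaFun_inj {a : ℝ} (ha : 0 < a) : Function.Injective (diaFun a) := by
  intro x y hxy
  obtain ⟨c, hc, h⟩ := dia_vec ha x
  obtain ⟨d, hd, h'⟩ := dia_vec ha y
  have hinv : dia a⁻¹ * dia a = 1 := by
    ext i j
    fin_cases i <;> fin_cases j <;> simp [dia, Matrix.mul_apply, ha.ne']
  have h1 : vec x = (c * d⁻¹) • vec y := by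
    calc vec x = dia a⁻¹ *ᵥ (dia a *ᵥ vec x) := by rw [Matrix.mulVec_mulVec, hinv, Matrix.one_mulVec]
      _ = dia a⁻¹ *ᵥ ((c * d⁻¹) • (dia a *ᵥ vec y)) := by
          rw [h, h', hxy, smul_smul, mul_assoc, inv_mul_cancel₀ hd.ne', mul_one]
      _ = (c * d⁻¹) • vec y := by
          rw [Matrix.mulVec_smul, Matrix.mulVec_mulVec, hinv, Matrix.one_mulVec]
  obtain ⟨m, hm⟩ := sub_int h1
  have hx : x = y + m := by linarith
  rw [hx, diaFun_add_int] at hxy
  have : (m : ℝ) = 0 := by linarith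
  rw [hx, this, add_zero]

theorem diaFun_strictMono {a : ℝ} (ha : 0 < a) : StrictMono (diaFun a) := by
  rcases (continuous_diaFun ha).strictMono_of_inj (diaFun_inj ha) with h | h
  · exact h
  · exfalso
    have h1 := h (zero_lt_one' ℝ)
    have h2 := diaFun_add_one (a := a) 0
    rw [zero_add] at h2
    linarith

/-- The lift of `dia a` as a monotone map. -/
noncomputable def diaLift {a : ℝ} (ha : 0 < a) : CircleDeg1Lift :=
  ⟨⟨diaFun a, (diaFun_strictMono ha).monotone⟩, diaFun_add_one⟩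

theorem abs_turn_lt (a x : ℝ) : |turn a x / Real.pi| < 1 / 2 := by
  have h1 := Real.arctan_lt_pi_div_two ((a⁻¹ - a) * Real.sin (Real.pi * x) *
    Real.cos (Real.pi * x) / (a * Real.cos (Real.pi * x) ^ 2 + a⁻¹ * Real.sin (Real.pi * x) ^ 2))
  have h2 := Real.neg_pi_div_two_lt_arctan ((a⁻¹ - a) * Real.sin (Real.pi * x) *
    Real.cos (Real.pi * x) / (a * Real.cos (Real.pi * x) ^ 2 + a⁻¹ * Real.sin (Real.pi * x) ^ 2))
  have hp := Real.pi_pos
  rw [abs_div, abs_of_pos hp, div_lt_iff₀ hp, abs_lt]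
  unfold turn
  constructor <;> linarith

theorem diaFun_diaFun {a : ℝ} (ha : 0 < a) (x : ℝ) : diaFun a (diaFun a⁻¹ x) = x := by
  obtain ⟨c, hc, h⟩ := dia_vec (inv_pos.2 ha) x
  obtain ⟨d, hd, h'⟩ := dia_vec ha (diaFun a⁻¹ x)
  have hinv : dia a * dia a⁻¹ = 1 := by
    ext i j
    fin_cases i <;> fin_cases j <;> simp [dia, Matrix.mul_apply, ha.ne']
  have h1 : vec x = (c * d) • vec (diaFun a (diaFun a⁻¹ x)) := by
    calc vec x = dia a *ᵥ (dia a⁻¹ *ᵥ vec x) := by rw [Matrix.mulVec_mulVec, hinv, Matrix.one_mulVec]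
      _ = _ := by rw [h, Matrix.mulVec_smul, h', smul_smul]
  obtain ⟨m, hm⟩ := sub_int h1
  have e1 : diaFun a (diaFun a⁻¹ x) = diaFun a⁻¹ x + turn a (diaFun a⁻¹ x) / Real.pi := rfl
  have e2 : diaFun a⁻¹ x = x + turn a⁻¹ x / Real.pi := rfl
  have b1 := abs_lt.1 (abs_turn_lt a (diaFun a⁻¹ x))
  have b2 := abs_lt.1 (abs_turn_lt a⁻¹ x)
  have hm' : (m : ℝ) = -(turn a (diaFun a⁻¹ x) / Real.pi + turn a⁻¹ x / Real.pi) := by
    rw [← hm, e1, e2]; ring
  have c1 : (-1 : ℝ) < m := by rw [hm']; linarith [b1.2, b2.2]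
  have c2 : (m : ℝ) < 1 := by rw [hm']; linarith [b1.1, b2.1]
  have c3 : (-1 : ℤ) < m := by exact_mod_cast c1
  have c4 : m < 1 := by exact_mod_cast c2
  have : m = 0 := by omega
  rw [this] at hm
  simp at hm
  linarith

/-- The lift of `dia a`. -/
noncomputable def diaUnit {a : ℝ} (ha : 0 < a) : CircleDeg1Liftˣ where
  val := diaLift ha
  inv := diaLift (inv_pos.2 ha)
  val_inv := by
    ext x
    exact diaFun_diaFun ha x
  inv_val := by
    ext x
    have := diaFun_diaFun (inv_pos.2 ha) x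
    rw [inv_inv] at this
    exact this

theorem lifts_dia {a : ℝ} (ha : 0 < a) : Lifts (diaUnit ha) (dia a) := by
  intro x
  obtain ⟨c, hc, h⟩ := dia_vec ha x
  exact ⟨c, hc.ne', h⟩

end Pool.Agent.L7h81.Pz
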