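import Pool.Agent.L7h81.Pz.Holo

set_option autoImplicit false

/-!
# The holonomy of the longitude
-/

namespace Pool.Agent.L7h81.Pz

open Matrix CircleDeg1Lift

/-- The word for the longitude. -/
def lword {G : Type*} [Group G] {k : ℕ} (l : ZMod k → ℕ) (a : ZMod k → G) (n : ℕ) : G :=
  ((List.range n).map fun i =>
    (a ((2 * i : ℕ) : ZMod k) * (a ((2 * i + 1 : ℕ) : ZMod k))⁻¹) ^
      ((l ((2 * i : ℕ) : ZMod k) : ℤ) + 1) *
    (a ((2 * i + 1 : ℕ) : ZMod k) * (a ((2 * i + 2 : ℕ) : ZMod k))⁻¹) ^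
      (-(l ((2 * i + 1 : ℕ) : ZMod k) : ℤ))).prod

theorem lword_succ {G : Type*} [Group G] {k : ℕ} (l : ZMod k → ℕ) (a : ZMod k → G) (n : ℕ) :
    lword l a (n + 1) = lword l a n *
      ((a ((2 * n : ℕ) : ZMod k) * (a ((2 * n + 1 : ℕ) : ZMod k))⁻¹) ^
        ((l ((2 * n : ℕ) : ZMod k) : ℤ) + 1) *
      (a ((2 * n + 1 : ℕ) : ZMod k) * (a ((2 * n + 2 : ℕ) : ZMod k))⁻¹) ^
        (-(l ((2 * n + 1 : ℕ) : ZMod k) : ℤ))) := by
  unfold lword
  rw [List.range_succ, List.map_append, List.prod_append]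
  simp

theorem sum_range_mul {k : ℕ} [NeZero k] (f : ZMod k → ℝ) :
    ∑ i ∈ Finset.range k, f (i : ZMod k) = ∑ j, f j := by
  refine Finset.sum_nbij' (fun i => (i : ZMod k)) (fun j => j.val) ?_ ?_ ?_ ?_ ?_
  · intro i _; exact Finset.mem_univ _
  · intro j _; exact Finset.mem_range.2 (ZMod.val_lt j)
  · intro i hi; exact ZMod.val_cast_of_lt (Finset.mem_range.1 hi)
  · intro j _; exact ZMod.natCast_zmod_val j
  · intro i _; rfl

theorem sum_range_two_mul {k : ℕ} [NeZero k] (f : ZMod k → ℝ) :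
    ∑ i ∈ Finset.range (2 * k), f (i : ZMod k) = 2 * ∑ j, f j := by
  rw [two_mul k, Finset.sum_range_add, sum_range_mul]
  have : ∀ i : ℕ, f ((k + i : ℕ) : ZMod k) = f (i : ZMod k) := by
    intro i; push_cast; simp
  simp only [this]
  rw [sum_range_mul]; ring

theorem holonomy {k : ℕ} [NeZero k] (hk : 2 ≤ k) (l : ZMod k → ℕ) {t Φ r : ℝ}
    (ht0 : 0 < t) (ht1 : t < 1 / 2) (hΦ : 0 < Φ) (hr : 0 < r) (hΦr : Φ ^ 2 + r ^ 2 = 1)
    (hSΦ : Real.sin (Real.pi * t) ^ 2 < Φ ^ 2) {y : ZMod k → ℝ} (hy : ∀ j, 0 < y j)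
    (hF : ∀ j, (1 - (Real.cos (Real.pi * t) / Real.cosh (y j)) ^ 2) *
      Real.cosh ((2 * l j + 1) * y j) ^ 2 = Φ ^ 2)
    (hang : ∑ j, ang (l j) (r / Φ) (y j) = Real.pi) :
    ∃ (a : ZMod k → CircleDeg1Liftˣ) (U : CircleDeg1Liftˣ),
      (∀ j, (a j * (a (j + 1))⁻¹) ^ (-(l j : ℤ) - 1) * a j * (a j * (a (j + 1))⁻¹) ^ ((l j : ℤ) + 1) *
        ((a (j + 1) * (a (j + 1 + 1))⁻¹) ^ (-(l (j + 1) : ℤ)) * (a (j + 1 + 1))⁻¹ *
        (a (j + 1) * (a (j + 1 + 1))⁻¹) ^ (l (j + 1) : ℤ)) = 1) ∧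
      a 0 = U * tr t * U⁻¹ ∧
      lword l a k = U * tr (-(k - 2 - 2 / Real.pi * ∑ j, Real.arctan (Real.sin (Real.pi * t) /
        Real.cos (Real.pi * t) * ((Real.cosh (y j) * Real.sinh ((2 * l j + 1) * y j)) /
        (Real.sinh (y j) * Real.cosh ((2 * l j + 1) * y j)))))) * U⁻¹ ∧ a 0 ≠ a 1 := by
  have hp := Real.pi_pos
  set C := Real.cos (Real.pi * t) with hCd
  set S := Real.sin (Real.pi * t) with hSd
  have hC : 0 < C := Real.cos_pos_of_mem_Ioo ⟨by nlinarith, by nlinarith⟩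
  have hS : 0 < S := Real.sin_pos_of_pos_of_lt_pi (by positivity) (by nlinarith)
  have hCS : C ^ 2 + S ^ 2 = 1 := Real.cos_sq_add_sin_sq _
  set h := C * Φ / r with hh
  have hhr : h * r = C * Φ := by rw [hh]; field_simp
  have hh0 : 0 < h := by rw [hh]; positivity
  have hhS : h ^ 2 - S ^ 2 = (Φ ^ 2 - S ^ 2) / r ^ 2 := by
    rw [eq_div_iff (by positivity)]
    have : h ^ 2 * r ^ 2 = C ^ 2 * Φ ^ 2 := by rw [← mul_pow, hhr, mul_pow]
    linear_combination this + Φ ^ 2 * hCS - S ^ 2 * hΦr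
  have hpos : 0 < h ^ 2 - S ^ 2 := by
    rw [hhS]
    have : 0 < Φ ^ 2 - S ^ 2 := by linarith
    positivity
  set ρ := √(h ^ 2 - S ^ 2) with hρd
  have hρ : 0 < ρ := Real.sqrt_pos.2 hpos
  have hρ2 : ρ ^ 2 = h ^ 2 - S ^ 2 := Real.sq_sqrt hpos.le
  have H : C ^ 2 + h ^ 2 - ρ ^ 2 = 1 := by rw [hρ2]; linarith
  have hs : 0 < (h + ρ) / S := by positivity
  set b := √((h + ρ) / S) with hbd
  have hb : 0 < b := Real.sqrt_pos.2 hs
  have hb2 : b ^ 2 * S = h + ρ := by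
    rw [hbd, Real.sq_sqrt hs.le]; field_simp
  set ω := 2 * Real.arctan (Φ / r) with hω
  set β : ZMod k → ℝ := fun j => ang (l j) (r / Φ) (y j) with hβ
  set κ : ZMod k → ℝ := fun j => Real.arctan (S / C * ((Real.cosh (y j) *
    Real.sinh ((2 * l j + 1) * y j)) / (Real.sinh (y j) * Real.cosh ((2 * l j + 1) * y j)))) with hκ
  set α : ℕ → ℝ := fun i => -(2 * ∑ i' ∈ Finset.range i, β (i' : ZMod k)) with hα
  have hαs : ∀ i, α (i + 1) = α i - 2 * β (i : ZMod k) := by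
    intro i
    simp only [hα]
    rw [Finset.sum_range_succ]; ring
  have hαk : ∀ i, α (i + k) = α i - (1 : ℤ) * (2 * Real.pi) := by
    intro i
    induction i with
    | zero =>
      rw [zero_add]
      simp only [hα]
      rw [sum_range_mul, hang]; simp
    | succ i ih =>
      rw [show i + 1 + k = i + k + 1 by ring, hαs, ih, hαs]
      have : ((i + k : ℕ) : ZMod k) = (i : ZMod k) := by push_cast; simp
      rw [this]; ring
  -- the meridians, indexed by natural numbers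
  set A : ℕ → CircleDeg1Liftˣ := fun i => Ut hb (α i) * tr t * (Ut hb (α i))⁻¹ with hA
  have hAk : ∀ i, A (i + k) = A i := by
    intro i
    have hc : tr (-((1 : ℤ) : ℝ)) * tr t = tr t * tr (-((1 : ℤ) : ℝ)) := by
      rw [← tr_add, ← tr_add, add_comm]
    simp only [hA]
    rw [hαk, Ut_sub_two_pi]
    have hc2 : ∀ g : CircleDeg1Liftˣ, g * tr (-((1 : ℤ) : ℝ)) = tr (-((1 : ℤ) : ℝ)) * g := by
      intro g
      have := tr_int_comm (-1) g
      push_cast at this ⊢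
      exact this
    set T := tr (-((1 : ℤ) : ℝ)) with hT
    calc T * Ut hb (α i) * tr t * (T * Ut hb (α i))⁻¹ =
        T * (Ut hb (α i) * tr t * (Ut hb (α i))⁻¹) * T⁻¹ := by group
      _ = _ := by rw [← hc2]; group
  have hAmod : ∀ i, A (i % k) = A i := by
    intro i
    have h1 : ∀ q i, A (i + k * q) = A i := by
      intro q
      induction q with
      | zero => simp
      | succ q ih => intro i; rw [mul_add, mul_one, ← add_assoc, hAk, ih]
    conv_rhs => rw [← Nat.mod_add_div i k]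
    rw [h1]
  set a : ZMod k → CircleDeg1Liftˣ := fun j => A j.val with ha
  have haA : ∀ i : ℕ, a (i : ZMod k) = A i := by
    intro i
    simp only [ha]
    rw [ZMod.val_natCast, hAmod]
  have hcol : ∀ i : ℕ,
      (A i * (A (i + 1))⁻¹) ^ ((l (i : ZMod k) : ℤ) + 1) * Ut hb (α (i + 1) + ω + Real.pi) =
        Ut hb (α i) * tr ((κ (i : ZMod k) + Real.pi * t) / Real.pi) ∧
      (A i * (A (i + 1))⁻¹) ^ (-(l (i : ZMod k) : ℤ)) * Ut hb (α (i + 1)) =
        Ut hb (α i + ω + Real.pi) * tr ((κ (i : ZMod k) - Real.pi * t - Real.pi) / Real.pi) := by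
    intro i
    have := col_transport H hΦr hC hS rfl rfl ht0 ht1 hr hΦ hhr hρ hω hb hb2 (l (i : ZMod k))
      (hy (i : ZMod k)) (hF (i : ZMod k)) (κ := κ (i : ZMod k)) rfl (β := β (i : ZMod k)) rfl (α i)
      rfl
    rw [← hαs i] at this
    exact this
  -- the frames
  set U := Ut hb (α 0) with hU
  have hstep : ∀ i : ℕ, (A i * (A (i + 1))⁻¹) ^ ((l (i : ZMod k) : ℤ) + 1) *
      (A (i + 1) * (A (i + 2))⁻¹) ^ (-(l ((i + 1 : ℕ) : ZMod k) : ℤ)) =
      Ut hb (α i) * tr ((κ (i : ZMod k) + κ ((i + 1 : ℕ) : ZMod k)) / Real.pi - 1) *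
        (Ut hb (α (i + 2)))⁻¹ := by
    intro i
    have h1 := (hcol i).1
    have h2 := (hcol (i + 1)).2
    rw [← eq_mul_inv_iff_mul_eq] at h1 h2
    rw [h1, h2]
    have e : tr ((κ (i : ZMod k) + κ ((i + 1 : ℕ) : ZMod k)) / Real.pi - 1) =
        tr ((κ (i : ZMod k) + Real.pi * t) / Real.pi) *
        tr ((κ ((i + 1 : ℕ) : ZMod k) - Real.pi * t - Real.pi) / Real.pi) := by
      rw [← tr_add]; congr 1; field_simp; ring
    rw [e]; group
  have hlong : ∀ n : ℕ, lword l a n = Ut hb (α 0) *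
      tr ((∑ i ∈ Finset.range (2 * n), κ (i : ZMod k)) / Real.pi - n) *
      (Ut hb (α (2 * n)))⁻¹ := by
    intro n
    induction n with
    | zero => simp [lword, tr_zero]
    | succ n ih =>
      rw [lword_succ, ih, haA, haA, haA, hstep (2 * n)]
      have e : 2 * (n + 1) = 2 * n + 1 + 1 := by ring
      rw [e, Finset.sum_range_succ, Finset.sum_range_succ]
      have e2 : tr ((∑ i ∈ Finset.range (2 * n), κ (i : ZMod k) + κ ((2 * n : ℕ) : ZMod k) +
          κ ((2 * n + 1 : ℕ) : ZMod k)) / Real.pi - ((n + 1 : ℕ) : ℝ)) =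
          tr ((∑ i ∈ Finset.range (2 * n), κ (i : ZMod k)) / Real.pi - n) *
          tr ((κ ((2 * n : ℕ) : ZMod k) + κ ((2 * n + 1 : ℕ) : ZMod k)) / Real.pi - 1) := by
        rw [← tr_add]; congr 1; push_cast; field_simp; ring
      rw [e2]; group
  refine ⟨a, U, ?_, ?_, ?_, ?_⟩
  · intro j
    obtain ⟨i, rfl⟩ : ∃ i : ℕ, j = (i : ZMod k) := ⟨j.val, (ZMod.natCast_zmod_val j).symm⟩
    have e1 : (i : ZMod k) + 1 = ((i + 1 : ℕ) : ZMod k) := by push_cast; rfl
    have e2 : (i : ZMod k) + 1 + 1 = ((i + 2 : ℕ) : ZMod k) := by push_cast; ring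
    rw [e2, e1, haA, haA, haA]
    set P := A i * (A (i + 1))⁻¹ with hP
    set Q := A (i + 1) * (A (i + 2))⁻¹ with hQ
    have h1 := (hcol i).1
    have h2 := (hcol (i + 1)).2
    -- both conjugates are the conjugate of the translation by the frame in the middle
    set V := Ut hb (α (i + 1) + ω + Real.pi) with hV
    have c1 : P ^ (-(l (i : ZMod k) : ℤ) - 1) * A i * P ^ ((l (i : ZMod k) : ℤ) + 1) =
        V * tr t * V⁻¹ := by
      have e3 : P ^ (-(l (i : ZMod k) : ℤ) - 1) = (P ^ ((l (i : ZMod k) : ℤ) + 1))⁻¹ := by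
        rw [← _root_.zpow_neg]; congr 1; ring
      have e4 : P ^ ((l (i : ZMod k) : ℤ) + 1) = Ut hb (α i) *
          tr ((κ (i : ZMod k) + Real.pi * t) / Real.pi) * V⁻¹ := eq_mul_inv_of_mul_eq h1
      rw [e3, e4]
      set T := tr ((κ (i : ZMod k) + Real.pi * t) / Real.pi) with hT
      have hc : T⁻¹ * tr t * T = tr t := by
        have : T * tr t = tr t * T := by rw [hT, ← tr_add, ← tr_add, add_comm]
        rw [mul_assoc, ← this]; group
      show (Ut hb (α i) * T * V⁻¹)⁻¹ * (Ut hb (α i) * tr t * (Ut hb (α i))⁻¹) *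
        (Ut hb (α i) * T * V⁻¹) = _
      calc _ = V * (T⁻¹ * tr t * T) * V⁻¹ := by group
        _ = _ := by rw [hc]
    have c2 : Q ^ (-(l ((i + 1 : ℕ) : ZMod k) : ℤ)) * A (i + 2) *
        Q ^ (l ((i + 1 : ℕ) : ZMod k) : ℤ) = V * tr t * V⁻¹ := by
      have e3 : Q ^ (l ((i + 1 : ℕ) : ZMod k) : ℤ) =
          (Q ^ (-(l ((i + 1 : ℕ) : ZMod k) : ℤ)))⁻¹ := by
        rw [← _root_.zpow_neg, neg_neg]
      have e4 : Q ^ (-(l ((i + 1 : ℕ) : ZMod k) : ℤ)) = V *
          tr ((κ ((i + 1 : ℕ) : ZMod k) - Real.pi * t - Real.pi) / Real.pi) *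
          (Ut hb (α (i + 2)))⁻¹ := eq_mul_inv_of_mul_eq h2
      rw [e3, e4]
      set T := tr ((κ ((i + 1 : ℕ) : ZMod k) - Real.pi * t - Real.pi) / Real.pi) with hT
      have hc : T * tr t * T⁻¹ = tr t := by
        have : T * tr t = tr t * T := by rw [hT, ← tr_add, ← tr_add, add_comm]
        rw [this]; group
      show V * T * (Ut hb (α (i + 2)))⁻¹ * (Ut hb (α (i + 2)) * tr t * (Ut hb (α (i + 2)))⁻¹) *
        (V * T * (Ut hb (α (i + 2)))⁻¹)⁻¹ = _
      calc _ = V * (T * tr t * T⁻¹) * V⁻¹ := by group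
        _ = _ := by rw [hc]
    have c3 : Q ^ (-(l ((i + 1 : ℕ) : ZMod k) : ℤ)) * (A (i + 2))⁻¹ *
        Q ^ (l ((i + 1 : ℕ) : ZMod k) : ℤ) = (V * tr t * V⁻¹)⁻¹ := by
      rw [← c2]; group
    rw [c1, c3]; group
  · have h0 : a 0 = A 0 := by
      have := haA 0
      rwa [Nat.cast_zero] at this
    rw [h0]
  · rw [hlong k]
    have e1 : α (2 * k) = α 0 - (2 : ℤ) * (2 * Real.pi) := by
      rw [two_mul k, hαk]
      have := hαk 0
      rw [zero_add] at this
      rw [this]; push_cast; ring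
    rw [e1, Ut_sub_two_pi, sum_range_two_mul]
    have hc : ∀ g : CircleDeg1Liftˣ, g * tr (-((2 : ℤ) : ℝ)) = tr (-((2 : ℤ) : ℝ)) * g := by
      intro g
      have := tr_int_comm (-2) g
      push_cast at this ⊢
      exact this
    have e2 : tr (-(k - 2 - 2 / Real.pi * ∑ j, κ j)) =
        tr ((2 * ∑ j, κ j) / Real.pi - k) * (tr (-((2 : ℤ) : ℝ)))⁻¹ := by
      rw [← tr_neg, ← tr_add]; congr 1; push_cast; ring
    show _ = U * tr (-(k - 2 - 2 / Real.pi * ∑ j, κ j)) * U⁻¹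
    rw [e2, ← hc]
    show U * _ * (U * _)⁻¹ = _
    group
  · -- the image is not trivial
    have h1k : (1 : ZMod k) = ((1 : ℕ) : ZMod k) := by push_cast; rfl
    have h0k : (0 : ZMod k) = ((0 : ℕ) : ZMod k) := by push_cast; rfl
    rw [h1k, h0k, haA, haA]
    intro h01
    have htr : (tr t, rotS (Real.pi * t)) ∈ Lp := by
      have := rot_mem (Real.pi * t)
      rwa [mul_div_cancel_left₀ _ hp.ne'] at this
    have hmem : ∀ i, (A i, BB C h ρ H (α i)) ∈ Lp := by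
      intro i
      have := Lp_mul (Lp_mul (frame_mem hb (α i)) htr) (Lp_inv (frame_mem hb (α i)))
      rw [← BB_frame H hS rfl rfl hb hb2 (α i)] at this
      exact this
    have m := Lp_mul (hmem 0) (Lp_inv (hmem 1))
    rw [h01, mul_inv_cancel] at m
    have m' : Lifts 1 ((BB C h ρ H (α 0) * (BB C h ρ H (α 1))⁻¹ : SLR) :
      Matrix (Fin 2) (Fin 2) ℝ) := m
    obtain ⟨s1, s2, s3⟩ := scalar_of_lifts_one m'
    set M := ((BB C h ρ H (α 0) * (BB C h ρ H (α 1))⁻¹ : SLR) : Matrix (Fin 2) (Fin 2) ℝ) with hM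
    have hMA : M * (BB C h ρ H (α 1) : Matrix (Fin 2) (Fin 2) ℝ) =
        (BB C h ρ H (α 0) : Matrix (Fin 2) (Fin 2) ℝ) := by
      have : (BB C h ρ H (α 0) * (BB C h ρ H (α 1))⁻¹) * BB C h ρ H (α 1) = BB C h ρ H (α 0) := by
        group
      exact congrArg Subtype.val this
    have hα0 : α 0 = 0 := by simp [hα]
    have hα1 : α 1 = -(2 * β 0) := by
      have := hαs 0
      rw [zero_add, hα0, Nat.cast_zero] at this
      rw [this]; ring
    have hA0v : (BB C h ρ H (α 0) : Matrix (Fin 2) (Fin 2) ℝ) = !![C + ρ, -h; h, C - ρ] := by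
      rw [hα0]
      show !![_, _; _, _] = !![_, _; _, _]
      simp
    have hA1v : (BB C h ρ H (α 1) : Matrix (Fin 2) (Fin 2) ℝ) =
        !![C + ρ * Real.cos (2 * β 0), -h - ρ * Real.sin (2 * β 0);
          h - ρ * Real.sin (2 * β 0), C - ρ * Real.cos (2 * β 0)] := by
      rw [hα1]
      show !![_, _; _, _] = !![_, _; _, _]
      rw [Real.cos_neg, Real.sin_neg]
      simp [sub_eq_add_neg]
    rw [hA0v, hA1v] at hMA
    have q00 := congrFun (congrFun hMA 0) 0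
    have q11 := congrFun (congrFun hMA 1) 1
    simp [Matrix.mul_apply, Fin.sum_univ_two, s1, s2] at q00 q11
    rw [← s3] at q11
    have hM1 : M 0 0 = 1 := by
      have : M 0 0 * (2 * C) = 1 * (2 * C) := by linear_combination q00 + q11
      exact mul_right_cancel₀ (by positivity) this
    rw [hM1] at q00
    have hcos : Real.cos (2 * β 0) = 1 := by
      have : ρ * Real.cos (2 * β 0) = ρ * 1 := by linarith
      exact mul_left_cancel₀ hρ.ne' this
    have hβ0 : 0 < β 0 := ang_pos (l 0) (by positivity) (hy 0)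
    have hβ1 : β 0 < Real.pi / 2 := Real.arctan_lt_pi_div_two _
    have := Real.cos_lt_cos_of_nonneg_of_le_pi (x := 0) (y := 2 * β 0) le_rfl (by linarith)
      (by linarith)
    rw [Real.cos_zero, hcos] at this
    exact lt_irrefl _ this

end Pool.Agent.L7h81.Pz
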