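import Pool.Agent.L7h81.Pz.Long

set_option autoImplicit false

/-!
# Actions of the pretzel knot groups on the line with prescribed real slopes

For every real slope `r > -(k - 2)` there are actions in which the meridian is the translation by `s` and
the longitude the translation by `-r s`.
-/

namespace Pool.Agent.L7h81.Pz

open Matrix CircleDeg1Lift

/-- The relation number `j` of a pretzel link for the meridians `a`. -/
def RelAt {G : Type*} [Group G] {k : ℕ} (l : ZMod k → ℕ) (a : ZMod k → G) (j : ZMod k) : Prop :=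
  (a j * (a (j + 1))⁻¹) ^ (-(l j : ℤ) - 1) * a j * (a j * (a (j + 1))⁻¹) ^ ((l j : ℤ) + 1) *
    ((a (j + 1) * (a (j + 1 + 1))⁻¹) ^ (-(l (j + 1) : ℤ)) * (a (j + 1 + 1))⁻¹ *
    (a (j + 1) * (a (j + 1 + 1))⁻¹) ^ (l (j + 1) : ℤ)) = 1

theorem RelAt.map {G H : Type*} [Group G] [Group H] (φ : G →* H) {k : ℕ} {l : ZMod k → ℕ}
    {a : ZMod k → G} {j : ZMod k} (h : RelAt l a j) : RelAt l (fun i => φ (a i)) j := by
  unfold RelAt at h ⊢
  have := congrArg φ h
  simpa only [map_mul, map_zpow, map_inv, map_one] using this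

theorem lword_map {G H : Type*} [Group G] [Group H] (φ : G →* H) {k : ℕ} (l : ZMod k → ℕ)
    (a : ZMod k → G) (n : ℕ) : lword l (fun j => φ (a j)) n = φ (lword l a n) := by
  unfold lword
  rw [map_list_prod, List.map_map]
  congr 1
  refine List.map_congr_left fun i _ => ?_
  simp only [Function.comp, map_mul, map_zpow, map_inv]

/-- Translation as an order automorphism of the line. -/
noncomputable def TT (x : ℝ) : ℝ ≃o ℝ := OrderIso.addRight x

theorem TT_apply (x y : ℝ) : TT x y = y + x := rfl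

theorem TT_add (x y : ℝ) : TT (x + y) = TT x * TT y := by
  ext z
  show z + (x + y) = z + y + x
  ring

theorem TT_zero : TT 0 = 1 := by
  ext z
  show z + 0 = z
  ring

theorem TT_neg (x : ℝ) : TT (-x) = (TT x)⁻¹ := by
  rw [eq_inv_iff_mul_eq_one, ← TT_add, neg_add_cancel, TT_zero]

theorem TT_nat (x : ℝ) (n : ℕ) : TT x ^ n = TT (n * x) := by
  induction n with
  | zero => simp [TT_zero]
  | succ n ih => rw [pow_succ, ih, ← TT_add]; congr 1; push_cast; ring

theorem TT_zpow (x : ℝ) (n : ℤ) : TT x ^ n = TT (n * x) := by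
  rcases Int.eq_nat_or_neg n with ⟨m, rfl | rfl⟩
  · rw [_root_.zpow_natCast, TT_nat]; norm_cast
  · rw [_root_.zpow_neg, _root_.zpow_natCast, TT_nat, ← TT_neg]; congr 1; push_cast; ring

theorem toOrderIso_tr (x : ℝ) : toOrderIso (tr x) = TT x := by
  ext y
  rw [coe_toOrderIso, tr_apply, TT_apply, add_comm]

/-- Conjugation by the multiplication with `c ≠ 0`. -/
noncomputable def scaleConj {c : ℝ} (hc : c ≠ 0) : (ℝ ≃o ℝ) →* (ℝ ≃o ℝ) where
  toFun f :=
    { toFun := fun x => c * f (c⁻¹ * x)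
      invFun := fun x => c * f.symm (c⁻¹ * x)
      left_inv := by intro x; simp [hc]
      right_inv := by intro x; simp [hc]
      map_rel_iff' := by
        intro x y
        show c * f (c⁻¹ * x) ≤ c * f (c⁻¹ * y) ↔ x ≤ y
        rcases lt_or_gt_of_ne hc with h | h
        · rw [mul_le_mul_left_of_neg h, f.le_iff_le, mul_le_mul_left_of_neg (inv_lt_zero.2 h)]
        · rw [mul_le_mul_iff_right₀ h, f.le_iff_le, mul_le_mul_iff_right₀ (inv_pos.2 h)] }
  map_one' := by
    ext x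
    show c * (c⁻¹ * x) = x
    field_simp
  map_mul' f g := by
    ext x
    show c * f (g (c⁻¹ * x)) = c * f (c⁻¹ * (c * g (c⁻¹ * x)))
    rw [inv_mul_cancel_left₀ hc]

theorem scaleConj_TT {c : ℝ} (hc : c ≠ 0) (x : ℝ) : scaleConj hc (TT x) = TT (c * x) := by
  ext y
  show c * (c⁻¹ * y + x) = y + c * x
  field_simp

theorem exists_rep' {k : ℕ} [NeZero k] (hk : 3 ≤ k) (p : ZMod k → ℕ) {σ : ℝ → ℝ}
    (hσ : Continuous σ) (hpos : ∀ C, 0 < C → C < 1 → 0 < σ C) (h1 : σ 1 < k - 2) :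
    ∃ (t : ℝ) (a : ZMod k → CircleDeg1Liftˣ) (U : CircleDeg1Liftˣ), 0 < t ∧ t < 1 / 2 ∧
      (∀ j, RelAt p a j) ∧ a 0 = U * tr t * U⁻¹ ∧
      lword p a k = U * tr (-σ (Real.cos (Real.pi * t))) * U⁻¹ ∧ a 0 ≠ a 1 := by
  have hp := Real.pi_pos
  have hcard : Fintype.card (ZMod k) = k := ZMod.card k
  obtain ⟨C, hC, hA, hFσ⟩ := path p (by rw [hcard]; exact hk) hσ hpos (by rw [hcard]; exact h1)
  obtain ⟨q1, q2, q3⟩ := pf_spec p hC hA
  set q := pf p C with hq
  have hq0 : 0 < q := by nlinarith [hC.1, hC.2]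
  have hq1 : 0 < 1 - q := by linarith
  set t := Real.arccos C / Real.pi with ht
  have hpt : Real.pi * t = Real.arccos C := by rw [ht]; field_simp
  have hcos : Real.cos (Real.pi * t) = C := by
    rw [hpt, Real.cos_arccos (by linarith [hC.1]) hC.2.le]
  have hsin : Real.sin (Real.pi * t) = √(1 - C ^ 2) := by rw [hpt, Real.sin_arccos]
  have ht0 : 0 < t := by
    have := Real.arccos_pos.2 hC.2
    positivity
  have ht1 : t < 1 / 2 := by
    have h5 := Real.arccos_lt_pi_div_two.2 hC.1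
    rw [ht, div_lt_iff₀ hp]; linarith
  obtain ⟨a, U, r1, r2, r3, r4⟩ := holonomy (by omega : 2 ≤ k) p ht0 ht1 (Real.sqrt_pos.2 hq0)
    (Real.sqrt_pos.2 hq1) (by rw [Real.sq_sqrt hq0.le, Real.sq_sqrt hq1.le]; ring)
    (by rw [hsin, Real.sq_sqrt (by nlinarith [hC.1, hC.2]), Real.sq_sqrt hq0.le]; exact q1)
    (y := fun j => yyf (p j) C q) (fun j => yyf_pos hC (p j) q1)
    (fun j => by rw [hcos, Real.sq_sqrt hq0.le]; exact FF_yyf hC (p j) q1) q3
  refine ⟨t, a, U, ht0, ht1, r1, r2, ?_, r4⟩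
  rw [r3, hcos, hsin, ← hFσ]
  unfold Fa kap
  rw [hcard]

theorem shift_rel {k : ℕ} (p : ZMod k → ℕ) (e : ℤ) {a : ZMod k → CircleDeg1Liftˣ}
    (hrel : ∀ j, RelAt p a j) :
    (∀ j, RelAt p (fun i => tr e * a i) j) ∧
      lword p (fun i => tr e * a i) k = lword p a k := by
  have hz : ∀ g : CircleDeg1Liftˣ, g * tr e = tr e * g := tr_int_comm e
  have hquot : ∀ i j, tr e * a i * (tr e * a j)⁻¹ = a i * (a j)⁻¹ := by
    intro i j
    calc tr e * a i * (tr e * a j)⁻¹ = tr e * (a i * (a j)⁻¹) * (tr e)⁻¹ := by group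
      _ = _ := by rw [← hz, mul_inv_cancel_right]
  constructor
  · intro j
    unfold RelAt
    simp only [hquot]
    have h : RelAt p a j := hrel j
    unfold RelAt at h
    set P := a j * (a (j + 1))⁻¹
    set Q := a (j + 1) * (a (j + 1 + 1))⁻¹
    set T : CircleDeg1Liftˣ := tr e
    calc P ^ (-(p j : ℤ) - 1) * (T * a j) * P ^ ((p j : ℤ) + 1) *
          (Q ^ (-(p (j + 1) : ℤ)) * (T * a (j + 1 + 1))⁻¹ * Q ^ (p (j + 1) : ℤ))
        = (P ^ (-(p j : ℤ) - 1) * T) * a j * P ^ ((p j : ℤ) + 1) *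
          (Q ^ (-(p (j + 1) : ℤ)) * (a (j + 1 + 1))⁻¹ * (T⁻¹ * Q ^ (p (j + 1) : ℤ))) := by group
      _ = (T * P ^ (-(p j : ℤ) - 1)) * a j * P ^ ((p j : ℤ) + 1) *
          (Q ^ (-(p (j + 1) : ℤ)) * (a (j + 1 + 1))⁻¹ * (Q ^ (p (j + 1) : ℤ) * T⁻¹)) := by
          have h5 : T⁻¹ * Q ^ (p (j + 1) : ℤ) = Q ^ (p (j + 1) : ℤ) * T⁻¹ := by
            have := hz (Q ^ (p (j + 1) : ℤ))
            calc T⁻¹ * Q ^ (p (j + 1) : ℤ) = T⁻¹ * (Q ^ (p (j + 1) : ℤ) * T) * T⁻¹ := by group
              _ = _ := by rw [this]; group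
          rw [hz (P ^ (-(p j : ℤ) - 1)), h5]
      _ = T * (P ^ (-(p j : ℤ) - 1) * a j * P ^ ((p j : ℤ) + 1) *
          (Q ^ (-(p (j + 1) : ℤ)) * (a (j + 1 + 1))⁻¹ * Q ^ (p (j + 1) : ℤ))) * T⁻¹ := by group
      _ = 1 := by rw [h]; group
  · unfold lword
    simp only [hquot]

/-- Real slopes. -/
theorem slope_rep {k : ℕ} [NeZero k] (hk : 3 ≤ k) (p : ZMod k → ℕ) {r : ℝ}
    (hr : -((k : ℝ) - 2) < r) (s : ℝ) :
    ∃ a : ZMod k → (ℝ ≃o ℝ), (∀ j, RelAt p a j) ∧ a 0 = TT s ∧ lword p a k = TT (-(r * s)) ∧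
      (r ≠ 0 → s ≠ 0 → a 0 ≠ a 1) := by
  have hp := Real.pi_pos
  by_cases hs : s = 0
  · refine ⟨fun _ => 1, fun j => ?_, ?_, ?_, fun _ h => absurd hs h⟩
    · unfold RelAt; group
    · rw [hs, TT_zero]
    · rw [hs, mul_zero, neg_zero, TT_zero]
      unfold lword; simp
  by_cases hr0 : r = 0
  · refine ⟨fun _ => TT s, fun j => ?_, rfl, ?_, fun h => absurd hr0 h⟩
    · unfold RelAt; group
    · rw [hr0, zero_mul, neg_zero, TT_zero]
      unfold lword; simp
  -- the essential case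
  obtain ⟨t, e, a, U, ht0, r1, r2, r3, r4⟩ : ∃ (t : ℝ) (e : ℤ) (a : ZMod k → CircleDeg1Liftˣ)
      (U : CircleDeg1Liftˣ), t + e ≠ 0 ∧ (∀ j, RelAt p a j) ∧ a 0 = U * tr t * U⁻¹ ∧
      lword p a k = U * tr (-(r * (t + e))) * U⁻¹ ∧ a 0 ≠ a 1 := by
    rcases lt_or_gt_of_ne hr0 with h | h
    · obtain ⟨t, a, U, ht0, ht1, r1, r2, r3, r4⟩ := exists_rep' hk p
        (σ := fun C => -r * (1 - Real.arccos C / Real.pi)) (by fun_prop)
        (fun C h0 h1 => by
          have h2 := Real.arccos_lt_pi_div_two.2 h0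
          have h3 : Real.arccos C / Real.pi < 1 := by rw [div_lt_one hp]; linarith
          have : 0 < 1 - Real.arccos C / Real.pi := by linarith
          have : 0 < -r := by linarith
          positivity)
        (by simp only [Real.arccos_one, zero_div, sub_zero, mul_one]; linarith)
      have hcos : Real.arccos (Real.cos (Real.pi * t)) = Real.pi * t :=
        Real.arccos_cos (by positivity) (by nlinarith)
      refine ⟨t, -1, a, U, by push_cast; linarith, r1, r2, ?_, r4⟩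
      rw [r3]
      simp only [hcos]
      rw [mul_div_cancel_left₀ _ hp.ne']
      congr 3
      push_cast; ring
    · obtain ⟨t, a, U, ht0, ht1, r1, r2, r3, r4⟩ := exists_rep' hk p
        (σ := fun C => r * (Real.arccos C / Real.pi)) (by fun_prop)
        (fun C h0 h1 => by
          have h2 := Real.arccos_pos.2 h1
          positivity)
        (by simp only [Real.arccos_one, zero_div, mul_zero]
            have : (3 : ℝ) ≤ k := by exact_mod_cast hk
            linarith)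
      have hcos : Real.arccos (Real.cos (Real.pi * t)) = Real.pi * t :=
        Real.arccos_cos (by positivity) (by nlinarith)
      refine ⟨t, 0, a, U, by push_cast; linarith, r1, r2, ?_, r4⟩
      rw [r3]
      simp only [hcos]
      rw [mul_div_cancel_left₀ _ hp.ne']
      congr 3
      push_cast; ring
  obtain ⟨b1, b2⟩ := shift_rel p e r1
  have hz : ∀ g : CircleDeg1Liftˣ, g * tr e = tr e * g := tr_int_comm e
  have hc : s / (t + e) ≠ 0 := div_ne_zero hs ht0
  set φ : CircleDeg1Liftˣ →* (ℝ ≃o ℝ) :=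
    (scaleConj hc).comp (toOrderIso.comp (MulAut.conj U⁻¹).toMonoidHom) with hφ
  have hφU : ∀ x, φ (U * tr x * U⁻¹) = TT (s / (t + e) * x) := by
    intro x
    show scaleConj hc (toOrderIso (U⁻¹ * (U * tr x * U⁻¹) * U⁻¹⁻¹)) = _
    have : U⁻¹ * (U * tr x * U⁻¹) * U⁻¹⁻¹ = tr x := by group
    rw [this, toOrderIso_tr, scaleConj_TT]
  refine ⟨fun j => φ (tr e * a j), fun j => (b1 j).map φ, ?_, ?_, fun _ _ => ?_⟩
  · have e2 : tr e * a 0 = U * tr (t + e) * U⁻¹ := by
      rw [r2, tr_add]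
      calc tr e * (U * tr t * U⁻¹) = (U * tr t * U⁻¹) * tr e := (hz _).symm
        _ = U * tr t * (U⁻¹ * tr e) := by group
        _ = U * tr t * (tr e * U⁻¹) := by rw [hz]
        _ = _ := by group
    show φ (tr e * a 0) = TT s
    rw [e2, hφU]
    congr 1
    field_simp
  · rw [lword_map φ p (fun j => tr e * a j) k, b2, r3, hφU]
    congr 1
    field_simp
  · intro h
    apply r4
    have h1 : tr e * a 0 = tr e * a 1 := by
      have hinj : Function.Injective φ := by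
        intro g g' hgg
        have h2 : scaleConj hc (toOrderIso (U⁻¹ * g * U⁻¹⁻¹)) =
          scaleConj hc (toOrderIso (U⁻¹ * g' * U⁻¹⁻¹)) := hgg
        have h3 : ∀ x, (U⁻¹ * g * U⁻¹⁻¹ : CircleDeg1Liftˣ) x =
            (U⁻¹ * g' * U⁻¹⁻¹ : CircleDeg1Liftˣ) x := by
          intro x
          have h4 := DFunLike.congr_fun h2 (s / (t + e) * x)
          have h5 : s / (t + e) * (toOrderIso (U⁻¹ * g * U⁻¹⁻¹)) ((s / (t + e))⁻¹ *
              (s / (t + e) * x)) = s / (t + e) * (toOrderIso (U⁻¹ * g' * U⁻¹⁻¹))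
              ((s / (t + e))⁻¹ * (s / (t + e) * x)) := h4
          rw [inv_mul_cancel_left₀ hc] at h5
          have h6 := mul_left_cancel₀ hc h5
          rwa [coe_toOrderIso, coe_toOrderIso] at h6
        have h7 : U⁻¹ * g * U⁻¹⁻¹ = U⁻¹ * g' * U⁻¹⁻¹ := by
          ext x; exact h3 x
        have h8 := mul_right_cancel h7
        exact mul_left_cancel h8
      exact hinj h
    exact mul_left_cancel h1

end Pool.Agent.L7h81.Pz
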