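import Pool.Agent.L7h81.Pz.Solve

set_option autoImplicit false

/-!
# A path of parameters and the area

The parameters of the representation as continuous functions of `C = cos (π t)`.
-/

namespace Pool.Agent.L7h81.Pz

open Real Filter Topology Set

theorem one_sub_sq_pos {C : ℝ} (h : 0 < C ∧ C < 1) : 0 < √(1 - C ^ 2) := by
  apply sqrt_pos.2
  nlinarith [h.1, h.2]

theorem sq_add_sq' {C : ℝ} (h : 0 < C ∧ C < 1) : C ^ 2 + √(1 - C ^ 2) ^ 2 = 1 := by
  rw [sq_sqrt]
  · ring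
  · nlinarith [h.1, h.2]

/-- The inverse function as a function of all variables. -/
noncomputable def yyf (l : ℕ) (C p : ℝ) : ℝ :=
  open Classical in
  if h : 0 < C ∧ C < 1 then yy h.1 (one_sub_sq_pos h) (sq_add_sq' h) l p else 0

theorem FE_mono' {C : ℝ} (h : 0 < C ∧ C < 1) (l : ℕ) : StrictMono (FE C l) :=
  FE_strictMono h.1 (one_sub_sq_pos h) (sq_add_sq' h) l

theorem FE_yyf {C : ℝ} (h : 0 < C ∧ C < 1) (l : ℕ) (p : ℝ) : FE C l (yyf l C p) = p := by
  unfold yyf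
  rw [dif_pos h]
  exact FE_yy _ _ _ l p

theorem yyf_pos {C : ℝ} (h : 0 < C ∧ C < 1) (l : ℕ) {p : ℝ} (hp : 1 - C ^ 2 < p) :
    0 < yyf l C p := by
  unfold yyf
  rw [dif_pos h]
  refine yy_pos _ _ _ l ?_
  rw [sq_sqrt]
  · exact hp
  · nlinarith [h.1, h.2]

theorem FF_yyf {C : ℝ} (h : 0 < C ∧ C < 1) (l : ℕ) {p : ℝ} (hp : 1 - C ^ 2 < p) :
    FF C l (yyf l C p) = p := by
  unfold yyf
  rw [dif_pos h]
  refine FF_yy _ _ _ l ?_
  rw [sq_sqrt]
  · exact hp
  · nlinarith [h.1, h.2]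

theorem continuous_FE_left (l : ℕ) (y : ℝ) : Continuous fun C => FE C l y := by
  unfold FE FF
  fun_prop

theorem continuousAt_yyf {C0 : ℝ} (h : 0 < C0 ∧ C0 < 1) (l : ℕ) (p0 : ℝ) :
    ContinuousAt (fun x : ℝ × ℝ => yyf l x.1 x.2) (C0, p0) := by
  have hev : ∀ᶠ x : ℝ × ℝ in 𝓝 (C0, p0), 0 < x.1 ∧ x.1 < 1 :=
    (continuous_fst.tendsto (C0, p0)).eventually (Ioo_mem_nhds h.1 h.2)
  have hfe : ∀ y, Tendsto (fun x : ℝ × ℝ => FE x.1 l y) (𝓝 (C0, p0)) (𝓝 (FE C0 l y)) :=
    fun y => ((continuous_FE_left l y).comp continuous_fst).tendsto (C0, p0)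
  have hsnd : Tendsto (fun x : ℝ × ℝ => x.2) (𝓝 (C0, p0)) (𝓝 p0) := continuous_snd.tendsto (C0, p0)
  refine tendsto_order.2 ⟨fun a ha => ?_, fun a ha => ?_⟩
  · have h1 : FE C0 l a < p0 := by
      rw [← FE_yyf h l p0]; exact FE_mono' h l ha
    filter_upwards [hev, (hfe a).eventually_lt hsnd h1] with x hx1 hx2
    rw [← FE_yyf hx1 l x.2] at hx2
    exact (FE_mono' hx1 l).lt_iff_lt.1 hx2
  · have h1 : p0 < FE C0 l a := by
      rw [← FE_yyf h l p0]; exact FE_mono' h l ha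
    filter_upwards [hev, hsnd.eventually_lt (hfe a) h1] with x hx1 hx2
    rw [← FE_yyf hx1 l x.2] at hx2
    exact (FE_mono' hx1 l).lt_iff_lt.1 hx2

/-- `sinh (m y) / sinh y` is nondecreasing. -/
theorem sinh_ratio (m : ℕ) {y z : ℝ} (hy : 0 < y) (hyz : y < z) :
    sinh (m * y) * sinh z ≤ sinh (m * z) * sinh y := by
  induction m with
  | zero => simp
  | succ m ih =>
    push_cast
    rw [add_mul (m : ℝ) 1 y, add_mul (m : ℝ) 1 z, one_mul, one_mul, sinh_add, sinh_add]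
    have a1 : 0 < sinh y := sinh_pos_iff.2 hy
    have a2 : 0 < sinh z := sinh_pos_iff.2 (hy.trans hyz)
    have a3 : cosh y ≤ cosh z := by
      apply cosh_le_cosh.2
      rw [abs_of_pos hy, abs_of_pos (hy.trans hyz)]
      exact hyz.le
    have a4 : cosh (m * y) ≤ cosh (m * z) := by
      apply cosh_le_cosh.2
      rw [abs_of_nonneg (by positivity), abs_of_nonneg (by have := hy.trans hyz; positivity)]
      exact mul_le_mul_of_nonneg_left hyz.le (by positivity)
    have a5 : 0 ≤ sinh (m * z) := sinh_nonneg_iff.2 (by have := hy.trans hyz; positivity)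
    have a6 : sinh (m * y) * sinh z * cosh y ≤ sinh (m * z) * sinh y * cosh z := by
      have := cosh_pos y
      calc _ ≤ sinh (m * z) * sinh y * cosh y := mul_le_mul_of_nonneg_right ih this.le
        _ ≤ _ := mul_le_mul_of_nonneg_left a3 (by positivity)
    have a7 : cosh (m * y) * (sinh y * sinh z) ≤ cosh (m * z) * (sinh y * sinh z) :=
      mul_le_mul_of_nonneg_right a4 (by positivity)
    linarith

/-- The square of the tangent of the angle of a column. -/
theorem tan_sq (l : ℕ) {C p y : ℝ} (hy : 0 < y) (hC : C ^ 2 < 1) (hp0 : 0 < p)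
    (hp1 : p < 1) (hF : FF C l y = p) :
    (√(1 - p) / √p * (sinh y * cosh ((2 * l + 1) * y)) / (cosh y * sinh ((2 * l + 1) * y))) ^ 2 =
      (1 - p) * sinh y ^ 2 / ((cosh y ^ 2 - C ^ 2) * sinh ((2 * l + 1) * y) ^ 2) := by
  have h1 := cosh_pos y
  have h2 : 0 < sinh ((2 * l + 1) * y) := sinh_pos_iff.2 (by positivity)
  have h3 : 0 < sinh y := sinh_pos_iff.2 hy
  have h4 := cosh_pos ((2 * l + 1) * y)
  have h5 : 0 < cosh y ^ 2 - C ^ 2 := by nlinarith [one_le_cosh y]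
  have hF' : (cosh y ^ 2 - C ^ 2) * cosh ((2 * l + 1) * y) ^ 2 = p * cosh y ^ 2 := by
    rw [← hF]; unfold FF; field_simp
  have e1 : (√(1 - p) / √p) ^ 2 = (1 - p) / p := by
    rw [div_pow, sq_sqrt (by linarith), sq_sqrt hp0.le]
  rw [div_pow, mul_pow, e1, div_eq_div_iff (by positivity) (by positivity)]
  field_simp
  linear_combination (1 - p) * hF'

theorem ang_strictAnti (l : ℕ) {C p q y z : ℝ} (hy : 0 < y) (hz : 0 < z) (hC : C ^ 2 < 1)
    (hp0 : 0 < p) (hpq : p < q) (hq1 : q < 1) (hyz : y < z) (hFy : FF C l y = p)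
    (hFz : FF C l z = q) :
    ang l (√(1 - q) / √q) z < ang l (√(1 - p) / √p) y := by
  unfold ang
  apply arctan_lt_arctan_iff.2
  have h1 := cosh_pos y
  have h2 : 0 < sinh ((2 * l + 1) * y) := sinh_pos_iff.2 (by positivity)
  have h3 : 0 < sinh y := sinh_pos_iff.2 hy
  have h4 := cosh_pos ((2 * l + 1) * y)
  have h1' := cosh_pos z
  have h2' : 0 < sinh ((2 * l + 1) * z) := sinh_pos_iff.2 (by positivity)
  have h3' : 0 < sinh z := sinh_pos_iff.2 hz
  have h4' := cosh_pos ((2 * l + 1) * z)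
  have h5 : 0 < √(1 - p) / √p := by
    have : 0 < 1 - p := by linarith
    positivity
  refine lt_of_pow_lt_pow_left₀ 2 (by positivity) ?_
  rw [tan_sq l hy hC hp0 (hpq.trans hq1) hFy, tan_sq l hz hC (hp0.trans hpq) hq1 hFz]
  have k1 : 0 < cosh y ^ 2 - C ^ 2 := by nlinarith [one_le_cosh y]
  have k2 : cosh y ^ 2 - C ^ 2 < cosh z ^ 2 - C ^ 2 := by
    have : cosh y < cosh z := cosh_lt_cosh.2 (by rwa [abs_of_pos hy, abs_of_pos hz])
    nlinarith
  have k3 : sinh ((2 * l + 1) * y) * sinh z ≤ sinh ((2 * l + 1) * z) * sinh y := by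
    have := sinh_ratio (2 * l + 1) hy hyz
    push_cast at this
    exact this
  have k4 : (sinh ((2 * l + 1) * y) * sinh z) ^ 2 ≤ (sinh ((2 * l + 1) * z) * sinh y) ^ 2 := by
    gcongr
  rw [div_lt_div_iff₀ (mul_pos (k1.trans k2) (pow_pos h2' 2)) (mul_pos k1 (pow_pos h2 2))]
  have k5 : 0 < 1 - q := by linarith
  have k6 : 0 < (sinh ((2 * l + 1) * y) * sinh z) ^ 2 := by positivity
  calc (1 - q) * sinh z ^ 2 * ((cosh y ^ 2 - C ^ 2) * sinh ((2 * l + 1) * y) ^ 2)
      = (1 - q) * (cosh y ^ 2 - C ^ 2) * (sinh ((2 * l + 1) * y) * sinh z) ^ 2 := by ring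
    _ < (1 - p) * (cosh z ^ 2 - C ^ 2) * (sinh ((2 * l + 1) * y) * sinh z) ^ 2 := by
        apply mul_lt_mul_of_pos_right _ k6
        calc (1 - q) * (cosh y ^ 2 - C ^ 2) < (1 - q) * (cosh z ^ 2 - C ^ 2) :=
              mul_lt_mul_of_pos_left k2 k5
          _ < (1 - p) * (cosh z ^ 2 - C ^ 2) :=
              mul_lt_mul_of_pos_right (by linarith) (k1.trans k2)
    _ ≤ (1 - p) * (cosh z ^ 2 - C ^ 2) * (sinh ((2 * l + 1) * z) * sinh y) ^ 2 := by
        apply mul_le_mul_of_nonneg_left k4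
        have : 0 < 1 - p := by linarith
        have := k1.trans k2
        positivity
    _ = _ := by ring

/-- The angle of a column is smaller than its limit for `y → 0`. -/
theorem ang_lt_lim (l : ℕ) {C p y : ℝ} (hC0 : 0 < C) (hy : 0 < y) (hC : C < 1) (hp : 1 - C ^ 2 < p)
    (hp1 : p < 1) (hF : FF C l y = p) :
    ang l (√(1 - p) / √p) y < arctan (C / √(1 - C ^ 2) / (2 * l + 1)) := by
  have hCC : C ^ 2 < 1 := by nlinarith
  have hp0 : 0 < p := by linarith
  unfold ang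
  apply arctan_lt_arctan_iff.2
  have h1 := cosh_pos y
  have h2 : 0 < sinh ((2 * l + 1) * y) := sinh_pos_iff.2 (by positivity)
  have h3 : 0 < sinh y := sinh_pos_iff.2 hy
  have hs : 0 < √(1 - C ^ 2) := sqrt_pos.2 (by linarith)
  refine lt_of_pow_lt_pow_left₀ 2 (by positivity) ?_
  rw [tan_sq l hy hCC hp0 hp1 hF, div_pow, div_pow, sq_sqrt (by linarith : (0 : ℝ) ≤ 1 - C ^ 2),
    div_div]
  have k1 : 1 - C ^ 2 < cosh y ^ 2 - C ^ 2 := by
    have : 1 < cosh y := one_lt_cosh.2 hy.ne'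
    nlinarith
  have k2 : (2 * l + 1) * sinh y ≤ sinh ((2 * l + 1) * y) := by
    have h : ∀ m : ℕ, m * sinh y ≤ sinh (m * y) := by
      intro m
      induction m with
      | zero => simp
      | succ m ih =>
        push_cast
        rw [add_mul (m : ℝ) 1 y, one_mul, sinh_add]
        have b1 := one_le_cosh y
        have b2 := one_le_cosh (m * y)
        have b3 : 0 ≤ sinh (m * y) := sinh_nonneg_iff.2 (by positivity)
        nlinarith [mul_nonneg b3 (sub_nonneg.2 b1), mul_nonneg h3.le (sub_nonneg.2 b2)]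
    have := h (2 * l + 1)
    push_cast at this
    exact this
  have k3 : ((2 * l + 1) * sinh y) ^ 2 ≤ sinh ((2 * l + 1) * y) ^ 2 := by gcongr
  have k4 : 0 < 1 - C ^ 2 := by linarith
  rw [div_lt_div_iff₀ (by have := k4.trans k1; positivity) (by positivity)]
  calc (1 - p) * sinh y ^ 2 * ((1 - C ^ 2) * (2 * l + 1) ^ 2)
      = (1 - p) * (1 - C ^ 2) * ((2 * l + 1) * sinh y) ^ 2 := by ring
    _ < C ^ 2 * (cosh y ^ 2 - C ^ 2) * ((2 * l + 1) * sinh y) ^ 2 := by
        apply mul_lt_mul_of_pos_right _ (by positivity)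
        calc (1 - p) * (1 - C ^ 2) < C ^ 2 * (1 - C ^ 2) :=
              mul_lt_mul_of_pos_right (by linarith) k4
          _ < C ^ 2 * (cosh y ^ 2 - C ^ 2) := mul_lt_mul_of_pos_left k1 (by positivity)
    _ ≤ C ^ 2 * (cosh y ^ 2 - C ^ 2) * sinh ((2 * l + 1) * y) ^ 2 := by
        apply mul_le_mul_of_nonneg_left k3
        have := k4.trans k1
        positivity
    _ = _ := by ring

end Pool.Agent.L7h81.Pz
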