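import Pool.Agent.L7h81.Pz.Rep

set_option autoImplicit false

/-!
# Transport along a column

The powers of `a j * (a (j+1))⁻¹` carry the frame at the fixed point of one meridian to the frame at
the fixed point of another one; we compute by which angle the frames are turned.
-/

namespace Pool.Agent.L7h81.Pz

open Matrix CircleDeg1Lift

/-- The frame at the point with angle `α`. -/
noncomputable def Us {b : ℝ} (hb : 0 < b) (α : ℝ) : SLR := rotS ((α + Real.pi / 2) / 2) * diaS hb

/-- The lift of the frame. -/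
noncomputable def Ut {b : ℝ} (hb : 0 < b) (α : ℝ) : CircleDeg1Liftˣ :=
  translate (Multiplicative.ofAdd ((α + Real.pi / 2) / 2 / Real.pi)) * diaUnit hb

/-- Translation by `x`. -/
noncomputable def tr (x : ℝ) : CircleDeg1Liftˣ := translate (Multiplicative.ofAdd x)

theorem tr_apply (x y : ℝ) : ((tr x : CircleDeg1Liftˣ) : CircleDeg1Lift) y = x + y :=
  translate_apply x y

theorem tr_add (x y : ℝ) : tr (x + y) = tr x * tr y := by
  unfold tr
  rw [ofAdd_add, map_mul]

theorem tr_zero : tr 0 = 1 := by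
  unfold tr
  rw [ofAdd_zero, map_one]

theorem tr_neg (x : ℝ) : tr (-x) = (tr x)⁻¹ := by
  rw [eq_inv_iff_mul_eq_one, ← tr_add, neg_add_cancel, tr_zero]

theorem tr_zpow (x : ℝ) (n : ℤ) : tr x ^ n = tr (n * x) := translate_zpow x n

theorem tr_int_comm (n : ℤ) (g : CircleDeg1Liftˣ) : g * tr n = tr n * g := by
  ext x
  show (g : CircleDeg1Lift) ((tr n : CircleDeg1Liftˣ) x) =
    ((tr n : CircleDeg1Liftˣ) : CircleDeg1Lift) ((g : CircleDeg1Lift) x)
  rw [tr_apply, tr_apply, map_int_add]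

theorem Us_rot {b : ℝ} (hb : 0 < b) (α δ : ℝ) : Us hb (α + 2 * δ) = rotS δ * Us hb α := by
  unfold Us
  rw [← mul_assoc, ← rotS_add]
  congr 2; ring

theorem Ut_sub_two_pi {b : ℝ} (hb : 0 < b) (α : ℝ) (n : ℤ) :
    Ut hb (α - n * (2 * Real.pi)) = tr (-n) * Ut hb α := by
  unfold Ut
  show tr ((α - n * (2 * Real.pi) + Real.pi / 2) / 2 / Real.pi) * diaUnit hb =
    tr (-n) * (tr ((α + Real.pi / 2) / 2 / Real.pi) * diaUnit hb)
  have e : (α - n * (2 * Real.pi) + Real.pi / 2) / 2 / Real.pi =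
      -n + (α + Real.pi / 2) / 2 / Real.pi := by
    have := Real.pi_ne_zero
    field_simp; ring
  rw [e, tr_add, mul_assoc]

theorem frame_mem {b : ℝ} (hb : 0 < b) (α : ℝ) : (Ut hb α, Us hb α) ∈ Lp :=
  Lp_mul (lifts_rot _ : (_, rotS ((α + Real.pi / 2) / 2)) ∈ Lp) (lifts_dia hb : (_, diaS hb) ∈ Lp)

theorem rot_mem (η : ℝ) : (tr (η / Real.pi), rotS η) ∈ Lp := lifts_rot η

/-- The element `BB α` in terms of the frame. -/
theorem BB_frame {C S h ρ : ℝ} (H : C ^ 2 + h ^ 2 - ρ ^ 2 = 1) (hS : 0 < S) {t : ℝ}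
    (hCt : C = Real.cos t) (hSt : S = Real.sin t) {b : ℝ} (hb : 0 < b) (hb2 : b ^ 2 * S = h + ρ)
    (α : ℝ) : BB C h ρ H α = Us hb α * rotS t * (Us hb α)⁻¹ := by
  have hCS : S ^ 2 + C ^ 2 = 1 := by rw [hCt, hSt]; exact Real.sin_sq_add_cos_sq _
  have hprod : (h + ρ) * (h - ρ) = S ^ 2 := by linear_combination H - hCS
  have hb3 : (b⁻¹) ^ 2 * S = h - ρ := by
    have : b ^ 2 * ((b⁻¹) ^ 2 * S) = b ^ 2 * (h - ρ) := by
      have e : b ^ 2 * ((b⁻¹) ^ 2 * S) = S := by field_simp
      rw [e]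
      have : S * S = S * (b ^ 2 * (h - ρ)) := by
        calc S * S = (h + ρ) * (h - ρ) := by rw [hprod]; ring
          _ = _ := by rw [← hb2]; ring
      exact mul_left_cancel₀ hS.ne' this
    exact mul_left_cancel₀ (by positivity) this
  have key : BB C h ρ H (-(Real.pi / 2)) = diaS hb * rotS t * (diaS hb)⁻¹ := by
    rw [eq_mul_inv_iff_mul_eq]
    apply Subtype.ext
    show !![_, _; _, _] * dia b = dia b * rot t
    rw [dia, rot, Matrix.mul_fin_two, Matrix.mul_fin_two, ← hCt, ← hSt, Real.cos_neg, Real.sin_neg,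
      Real.cos_pi_div_two, Real.sin_pi_div_two]
    ext i j
    fin_cases i <;> fin_cases j <;> simp
    · ring
    · have : b⁻¹ * (h + ρ) = b * S := by rw [← hb2]; field_simp
      linear_combination -this
    · have : (h - ρ) * b = b⁻¹ * S := by rw [← hb3]; field_simp
      linear_combination this
    · ring
  have key2 := BB_add H (-(Real.pi / 2)) (α + Real.pi / 2)
  have e1 : -(Real.pi / 2) + (α + Real.pi / 2) = α := by ring
  rw [e1, key] at key2
  rw [key2]
  unfold Us
  group

/-- A column: the transport of a frame by a power of the hyperbolic element. -/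
theorem transport_mat {c u v : ℝ} (H : c ^ 2 + u ^ 2 - v ^ 2 = 1) {Φ r q ω s βh η X Z W : ℝ}
    (hc : c = q * r) (hu : u = q * Φ) (hΦ : Φ = Real.sin (ω / 2)) (hr : r = Real.cos (ω / 2))
    {b : ℝ} (hb : 0 < b)
    (hX : X = Real.cosh s * Real.sin (βh - ω / 2) + v * Real.sinh s * Real.cos (βh - ω / 2))
    (hZ : Z = -(Real.cosh s * Real.cos (βh - ω / 2)) + v * Real.sinh s * Real.sin (βh - ω / 2))
    (hW : W = q * Real.sinh s)
    (h1 : X = Real.cos η) (h2 : -(b ^ 2 * Real.sin η) = -Z + W)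
    (h3 : (b⁻¹) ^ 2 * Real.sin η = Z + W) :
    YY c u v H (-s) * Us hb βh = Us hb (-βh + ω + Real.pi) * rotS η := by
  unfold Us
  set B := (βh + Real.pi / 2) / 2 with hB
  set A := (-βh + ω + Real.pi + Real.pi / 2) / 2 with hA
  set δ := βh - ω / 2 with hδ
  have hA1 : Real.cos A = -(r * Real.cos B + Φ * Real.sin B) := by
    have : A = ω / 2 + Real.pi - B := by rw [hA, hB]; ring
    rw [this, Real.cos_sub, Real.cos_add_pi, Real.sin_add_pi, hr, hΦ]; ring
  have hA2 : Real.sin A = -(Φ * Real.cos B - r * Real.sin B) := by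
    have : A = ω / 2 + Real.pi - B := by rw [hA, hB]; ring
    rw [this, Real.sin_sub, Real.cos_add_pi, Real.sin_add_pi, hr, hΦ]; ring
  have hB1 : Real.cos B = Real.sin A * Real.cos δ + Real.cos A * Real.sin δ := by
    have : B = A + δ - Real.pi / 2 := by rw [hA, hB, hδ]; ring
    rw [this, Real.cos_sub_pi_div_two, Real.sin_add]
  have hB2 : Real.sin B = -(Real.cos A * Real.cos δ) + Real.sin A * Real.sin δ := by
    have : B = A + δ - Real.pi / 2 := by rw [hA, hB, hδ]; ring
    rw [this, Real.sin_sub_pi_div_two, Real.cos_add]; ring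
  have key : YY c u v H (-s) * rotS B = rotS A * (diaS hb * rotS η * (diaS hb)⁻¹) := by
    have hdet : (!![X, -Z + W; Z + W, X] : Matrix (Fin 2) (Fin 2) ℝ).det = 1 := by
      rw [Matrix.det_fin_two_of, ← h2, ← h3, h1]
      have : b * b⁻¹ = 1 := mul_inv_cancel₀ hb.ne'
      linear_combination Real.sin_sq_add_cos_sq η + Real.sin η ^ 2 * (b * b⁻¹ + 1) * this
    have e0 : diaS hb * rotS η * (diaS hb)⁻¹ = (⟨!![X, -Z + W; Z + W, X], hdet⟩ : SLR) := by
      apply mul_inv_eq_iff_eq_mul.2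
      apply Subtype.ext
      show dia b * rot η = !![_, _; _, _] * dia b
      rw [dia, rot, Matrix.mul_fin_two, Matrix.mul_fin_two, ← h2, ← h3, h1]
      ext i j
      fin_cases i <;> fin_cases j <;> simp
      · ring
      · field_simp
      · field_simp
      · ring
    rw [e0]
    apply Subtype.ext
    show !![_, _; _, _] * rot B = rot A * !![_, _; _, _]
    rw [rot, rot, Matrix.mul_fin_two, Matrix.mul_fin_two, Real.cosh_neg, Real.sinh_neg, hX, hZ, hW,
      hc, hu]
    ext i j
    fin_cases i <;> fin_cases j <;> simp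
    · linear_combination Real.cosh s * hB1 - v * Real.sinh s * hB2 + Real.sinh s * q * hA2
    · linear_combination -Real.cosh s * hB2 - v * Real.sinh s * hB1 - Real.sinh s * q * hA1
    · linear_combination Real.cosh s * hB2 + v * Real.sinh s * hB1 - Real.sinh s * q * hA1
    · linear_combination Real.cosh s * hB1 - v * Real.sinh s * hB2 - Real.sinh s * q * hA2
  calc YY c u v H (-s) * (rotS B * diaS hb) = (YY c u v H (-s) * rotS B) * diaS hb := by group
    _ = rotS A * diaS hb * rotS η := by rw [key]; group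

/-- The transport of a frame, with the angle. -/
theorem transport_col {c u v : ℝ} (H : c ^ 2 + u ^ 2 - v ^ 2 = 1) {Φ r q ω C S h ρ y w β κ t : ℝ}
    (hc : c = q * r) (hu : u = q * Φ) (hΦ : Φ = Real.sin (ω / 2)) (hr : r = Real.cos (ω / 2))
    (hr0 : 0 < r) (hρ0 : 0 < ρ) (hS0 : 0 < S)
    (hCt : C = Real.cos t) (hSt : S = Real.sin t) {b : ℝ} (hb : 0 < b) (hb2 : b ^ 2 * S = h + ρ)
    (hHC : C ^ 2 + h ^ 2 - ρ ^ 2 = 1)
    (k1 : Real.cosh y * c = C) (k2 : Real.cosh y * u = h) (k3 : Real.cosh y * v = ρ * Real.cos β)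
    (k4 : Real.sinh y = ρ * Real.sin β) (k5 : v * r * Real.cosh w = Φ * Real.sinh w)
    (k6 : ρ * r * Real.sin κ = S * Real.sinh w)
    (k7 : ρ * r * Real.cos κ = c * Real.cosh w * Real.sinh y) :
    YY c u v H (-(w + y)) * Us hb β = Us hb (-β + ω + Real.pi) * rotS (-(κ + t)) := by
  have hΦr : Φ ^ 2 + r ^ 2 = 1 := by rw [hΦ, hr]; exact Real.sin_sq_add_cos_sq _
  have hCS : S ^ 2 + C ^ 2 = 1 := by rw [hCt, hSt]; exact Real.sin_sq_add_cos_sq _
  have hprod : (h + ρ) * (h - ρ) = S ^ 2 := by linear_combination hHC - hCS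
  have hb3 : (b⁻¹) ^ 2 * S = h - ρ := by
    have : b ^ 2 * ((b⁻¹) ^ 2 * S) = b ^ 2 * (h - ρ) := by
      have e : b ^ 2 * ((b⁻¹) ^ 2 * S) = S := by field_simp
      rw [e]
      have : S * S = S * (b ^ 2 * (h - ρ)) := by
        calc S * S = (h + ρ) * (h - ρ) := by rw [hprod]; ring
          _ = _ := by rw [← hb2]; ring
      exact mul_left_cancel₀ hS0.ne' this
    exact mul_left_cancel₀ (by positivity) this
  set cy := Real.cosh y with hcy
  set sy := Real.sinh y with hsy
  set cw := Real.cosh w with hcw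
  set sw := Real.sinh w with hsw
  have hcsy : cy ^ 2 = sy ^ 2 + 1 := Real.cosh_sq y
  have hcsw : cw ^ 2 = sw ^ 2 + 1 := Real.cosh_sq w
  have hch : Real.cosh (w + y) = cw * cy + sw * sy := Real.cosh_add w y
  have hsh : Real.sinh (w + y) = sw * cy + cw * sy := Real.sinh_add w y
  have hcosb : ρ * Real.cos (β - ω / 2) = cy * v * r + sy * Φ := by
    rw [Real.cos_sub, ← hΦ, ← hr, k3, k4]; ring
  have hsinb : ρ * Real.sin (β - ω / 2) = sy * r - cy * v * Φ := by
    rw [Real.sin_sub, ← hΦ, ← hr, k3, k4]; ring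
  have hsin : ρ * r * Real.sin (κ + t) = S * (c * Real.sinh (w + y)) := by
    rw [Real.sin_add, ← hCt, ← hSt, hsh]
    linear_combination C * k6 + S * k7 - S * sw * k1
  -- `ρ σ = S W`
  have hW : ρ * Real.sin (κ + t) = S * (q * Real.sinh (w + y)) := by
    have : (ρ * Real.sin (κ + t)) * r = (S * (q * Real.sinh (w + y))) * r := by
      linear_combination hsin + S * Real.sinh (w + y) * hc
    exact mul_right_cancel₀ hr0.ne' this
  have e1 : cy * (cw * cy + sw * sy) - sy * (sw * cy + cw * sy) = cw := by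
    linear_combination cw * hcsy
  have e2 : sy * (cw * cy + sw * sy) = cy * (sw * cy + cw * sy) - sw := by
    linear_combination -sw * hcsy
  have e3 : r ^ 2 * (1 + v ^ 2) = c ^ 2 := by
    rw [hc, hu] at H
    rw [hc]
    linear_combination -r ^ 2 * H + q ^ 2 * r ^ 2 * hΦr
  -- `h σ = - S Z`
  have hZ : h * Real.sin (κ + t) = S * (Real.cosh (w + y) * Real.cos (β - ω / 2) -
      v * Real.sinh (w + y) * Real.sin (β - ω / 2)) := by
    have h5 : ρ * r ^ 2 * (Real.cosh (w + y) * Real.cos (β - ω / 2) -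
        v * Real.sinh (w + y) * Real.sin (β - ω / 2)) =
        r * (c * h * Real.sinh (w + y)) := by
      have h6 : ρ * r ^ 2 * (Real.cosh (w + y) * Real.cos (β - ω / 2) -
        v * Real.sinh (w + y) * Real.sin (β - ω / 2)) =
        r ^ 2 * (Real.cosh (w + y) * (cy * v * r + sy * Φ) -
          v * Real.sinh (w + y) * (sy * r - cy * v * Φ)) := by
        rw [← hcosb, ← hsinb]; ring
      rw [h6, hch, hsh, ← k2, hu, hc]
      rw [hc] at e3
      linear_combination r ^ 3 * v * e1 + r ^ 2 * Φ * e2 + r ^ 2 * k5 +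
        Φ * cy * (sw * cy + cw * sy) * e3
    have h7 : (ρ * r ^ 2) * (h * Real.sin (κ + t)) = (ρ * r ^ 2) *
        (S * (Real.cosh (w + y) * Real.cos (β - ω / 2) -
        v * Real.sinh (w + y) * Real.sin (β - ω / 2))) := by
      linear_combination r * h * hsin - S * h5
    exact mul_left_cancel₀ (by positivity) h7
  have hX : Real.cosh (w + y) * Real.sin (β - ω / 2) + v * Real.sinh (w + y) *
      Real.cos (β - ω / 2) = Real.cos (-(κ + t)) := by
    rw [Real.cos_neg, Real.cos_add, ← hCt, ← hSt]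
    have h5 : (ρ * r) * (Real.cosh (w + y) * Real.sin (β - ω / 2) + v * Real.sinh (w + y) *
        Real.cos (β - ω / 2)) = (ρ * r) * (Real.cos κ * C - Real.sin κ * S) := by
      have h6 : (ρ * r) * (Real.cosh (w + y) * Real.sin (β - ω / 2) + v * Real.sinh (w + y) *
        Real.cos (β - ω / 2)) = r * (Real.cosh (w + y) * (sy * r - cy * v * Φ) +
          v * Real.sinh (w + y) * (cy * v * r + sy * Φ)) := by
        rw [← hcosb, ← hsinb]; ring
      rw [h6, hch, hsh]
      linear_combination -C * k7 + S * k6 + r ^ 2 * e2 - r * v * Φ * e1 - Φ * k5 +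
        cy * (sw * cy + cw * sy) * e3 - sw * hΦr + sw * hCS + (c * cy * sw + C * sw + c * cw * sy) * k1
    exact mul_left_cancel₀ (by positivity) h5
  refine transport_mat H (s := w + y) (βh := β) (η := -(κ + t)) hc hu hΦ hr hb rfl rfl rfl hX ?_ ?_
  · rw [Real.sin_neg]
    have : S * (b ^ 2 * Real.sin (κ + t)) = S * (-(-(Real.cosh (w + y) * Real.cos (β - ω / 2)) +
        v * Real.sinh (w + y) * Real.sin (β - ω / 2)) + q * Real.sinh (w + y)) := by
      linear_combination Real.sin (κ + t) * hb2 + hZ + hW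
    have := mul_left_cancel₀ hS0.ne' this
    linear_combination this
  · rw [Real.sin_neg]
    have : S * ((b⁻¹) ^ 2 * Real.sin (κ + t)) = S * (-(-(Real.cosh (w + y) *
        Real.cos (β - ω / 2)) + v * Real.sinh (w + y) * Real.sin (β - ω / 2)) -
        q * Real.sinh (w + y)) := by
      linear_combination Real.sin (κ + t) * hb3 + hZ - hW
    have := mul_left_cancel₀ hS0.ne' this
    linear_combination -this

end Pool.Agent.L7h81.Pz
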