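import Pool.Agent.L7h81.Pz.Trans

set_option autoImplicit false

/-!
# Transport in the group of lifts

The elements `a j * (a (j+1))⁻¹` have fixed points on the line; this determines by which real number
(and not only modulo integers) the lifts of the frames are turned.
-/

namespace Pool.Agent.L7h81.Pz

open Matrix CircleDeg1Lift

theorem exists_tr_mul {f g : CircleDeg1Liftˣ}
    (h : ∀ x : ℝ, ∃ m : ℤ, (f : CircleDeg1Lift) x - (g : CircleDeg1Lift) x = m) :
    ∃ m : ℤ, f = tr m * g := by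
  set u : CircleDeg1Liftˣ := f * g⁻¹ with hu
  have hf : f = u * g := by rw [hu]; group
  have h1 : ∀ x : ℝ, ∃ m : ℤ, (u : CircleDeg1Lift) x = x + m := by
    intro x
    obtain ⟨m, hm⟩ := h ((g⁻¹ : CircleDeg1Liftˣ) x)
    rw [units_apply_inv_apply] at hm
    refine ⟨m, ?_⟩
    have : (u : CircleDeg1Lift) x = (f : CircleDeg1Lift) ((g⁻¹ : CircleDeg1Liftˣ) x) := by
      rw [hu]; rfl
    rw [this]; linarith
  obtain ⟨m, hm⟩ := h1 0
  have key : ∀ x : ℝ, (u : CircleDeg1Lift) x = x + m := by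
    have h2 : ∀ x : ℝ, 0 ≤ x → x < 1 → (u : CircleDeg1Lift) x = x + m := by
      intro x hx0 hx1
      rcases hx0.eq_or_lt with rfl | hx0
      · exact hm
      obtain ⟨k, hk⟩ := h1 x
      have a1 := (u : CircleDeg1Lift).mono hx0.le
      have a2 := (u : CircleDeg1Lift).mono hx1.le
      have a3 : (u : CircleDeg1Lift) 1 = (u : CircleDeg1Lift) 0 + 1 := by
        have := (u : CircleDeg1Lift).map_add_one 0
        rwa [zero_add] at this
      rw [hm, hk] at a1
      rw [hk, a3, hm] at a2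
      have b1 : m - 1 < k := by
        have : ((m - 1 : ℤ) : ℝ) < k := by push_cast; linarith
        exact_mod_cast this
      have b2 : k < m + 1 := by
        have : (k : ℝ) < ((m + 1 : ℤ) : ℝ) := by push_cast; linarith
        exact_mod_cast this
      have : k = m := by omega
      rw [hk, this]
    intro x
    have h3 := (u : CircleDeg1Lift).map_fract_sub_fract_eq x
    rw [h2 _ (Int.fract_nonneg x) (Int.fract_lt_one x)] at h3
    linarith
  refine ⟨m, ?_⟩
  rw [hf]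
  congr 1
  ext x
  rw [key x, tr_apply, add_comm]

theorem Lp_two {f g : CircleDeg1Liftˣ} {M : SLR} (hf : (f, M) ∈ Lp) (hg : (g, M) ∈ Lp) :
    ∃ m : ℤ, f = tr m * g := by
  refine exists_tr_mul fun x => ?_
  obtain ⟨c, hc, h⟩ := (show Lifts f (M : Matrix (Fin 2) (Fin 2) ℝ) from hf) x
  obtain ⟨d, hd, h'⟩ := (show Lifts g (M : Matrix (Fin 2) (Fin 2) ℝ) from hg) x
  refine sub_int (c := c⁻¹ * d) ?_
  rw [mul_smul, ← h', h, smul_smul, inv_mul_cancel₀ hc, one_smul]

theorem unit_lt (g : CircleDeg1Liftˣ) {x y : ℝ} (h : x < y) :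
    (g : CircleDeg1Lift) x < (g : CircleDeg1Lift) y := by
  have := (toOrderIso g).strictMono h
  rwa [coe_toOrderIso] at this

theorem conj_tr_ge (g : CircleDeg1Liftˣ) {ζ : ℝ} (hζ : 0 ≤ ζ) (x : ℝ) :
    x ≤ ((g * tr ζ * g⁻¹ : CircleDeg1Liftˣ) : CircleDeg1Lift) x := by
  show x ≤ (g : CircleDeg1Lift) ((tr ζ : CircleDeg1Liftˣ) ((g⁻¹ : CircleDeg1Liftˣ) x))
  rw [tr_apply]
  calc x = (g : CircleDeg1Lift) ((g⁻¹ : CircleDeg1Liftˣ) x) := (units_apply_inv_apply g x).symm
    _ ≤ _ := (g : CircleDeg1Lift).mono (by linarith)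

theorem conj_tr_gt (g : CircleDeg1Liftˣ) {ζ : ℝ} (hζ : 0 < ζ) (x : ℝ) :
    x < ((g * tr ζ * g⁻¹ : CircleDeg1Liftˣ) : CircleDeg1Lift) x := by
  show x < (g : CircleDeg1Lift) ((tr ζ : CircleDeg1Liftˣ) ((g⁻¹ : CircleDeg1Liftˣ) x))
  rw [tr_apply]
  calc x = (g : CircleDeg1Lift) ((g⁻¹ : CircleDeg1Liftˣ) x) := (units_apply_inv_apply g x).symm
    _ < _ := unit_lt g (by linarith)

theorem conj_tr_lt (g : CircleDeg1Liftˣ) {ζ : ℝ} (n : ℤ) (hζ : ζ < n) (x : ℝ) :
    ((g * tr ζ * g⁻¹ : CircleDeg1Liftˣ) : CircleDeg1Lift) x < x + n := by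
  show (g : CircleDeg1Lift) ((tr ζ : CircleDeg1Liftˣ) ((g⁻¹ : CircleDeg1Liftˣ) x)) < x + n
  rw [tr_apply]
  calc (g : CircleDeg1Lift) (ζ + ((g⁻¹ : CircleDeg1Liftˣ) : CircleDeg1Lift) x)
      < (g : CircleDeg1Lift) (((g⁻¹ : CircleDeg1Liftˣ) : CircleDeg1Lift) x + n) :=
        unit_lt g (by linarith)
    _ = x + n := by rw [map_add_int, units_apply_inv_apply]

theorem transport {b : ℝ} (hb : 0 < b) {G : CircleDeg1Liftˣ} {M : SLR} (hG : (G, M) ∈ Lp) {x0 : ℝ}
    (hx0 : (G : CircleDeg1Lift) x0 = x0) {α α' η : ℝ}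
    (hM : M * Us hb α = Us hb α' * rotS η) (hd0 : 0 < α' - α) (hd1 : α' - α ≤ 2 * Real.pi)
    (hη0 : -Real.pi ≤ η) (hη1 : η < 0) : G * Ut hb α = Ut hb α' * tr (η / Real.pi) := by
  have hp := Real.pi_pos
  have h1 := Lp_mul (Lp_mul (Lp_inv (frame_mem hb α')) hG) (frame_mem hb α)
  have h2 : (Us hb α')⁻¹ * M * Us hb α = rotS η := by
    rw [mul_assoc, hM]; group
  rw [h2] at h1
  obtain ⟨m, hm⟩ := Lp_two h1 (rot_mem η)
  rw [← tr_add] at hm
  set ζ := (m : ℝ) + η / Real.pi with hζ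
  set D := diaUnit hb with hD
  set a := (α + Real.pi / 2) / 2 / Real.pi with ha
  set a' := (α' + Real.pi / 2) / 2 / Real.pi with ha'
  have e1 : Ut hb α = tr a * D := rfl
  have e2 : Ut hb α' = tr a' * D := rfl
  have e3 : G = tr a' * (D * tr ζ * D⁻¹) * tr (-a) := by
    have : G = Ut hb α' * ((Ut hb α')⁻¹ * G * Ut hb α) * (Ut hb α)⁻¹ := by group
    rw [this, hm, e1, e2, tr_neg]; group
  set Q := D * tr ζ * D⁻¹ with hQ
  have e4 : (Q : CircleDeg1Lift) (x0 - a) = x0 - a' := by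
    have h5 : (G : CircleDeg1Lift) x0 = a' + (Q : CircleDeg1Lift) (-a + x0) := by
      rw [e3]
      show ((tr a' : CircleDeg1Liftˣ) : CircleDeg1Lift) ((Q : CircleDeg1Lift)
        (((tr (-a) : CircleDeg1Liftˣ) : CircleDeg1Lift) x0)) = _
      rw [tr_apply, tr_apply]
    rw [hx0] at h5
    rw [show x0 - a = -a + x0 by ring]
    linarith
  have hd : a' - a = (α' - α) / (2 * Real.pi) := by
    rw [ha, ha']; field_simp; ring
  have hd2 : 0 < a' - a := by rw [hd]; positivity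
  have hd3 : a' - a ≤ 1 := by rw [hd, div_le_one (by positivity)]; exact hd1
  have b1 : ζ < 0 := by
    by_contra h
    have := conj_tr_ge D (not_lt.1 h) (x0 - a)
    rw [← hQ, e4] at this
    linarith
  have b2 : -1 ≤ ζ := by
    by_contra h
    have h' : ζ < ((-1 : ℤ) : ℝ) := by push_cast; exact not_le.1 h
    have := conj_tr_lt D (-1) h' (x0 - a)
    rw [← hQ, e4] at this
    push_cast at this
    linarith
  have b3 : η / Real.pi < 0 := div_neg_of_neg_of_pos hη1 hp
  have b4 : -1 ≤ η / Real.pi := by rw [le_div_iff₀ hp]; linarith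
  have b5 : (-1 : ℝ) < m := by linarith
  have b6 : (m : ℝ) < 1 := by linarith
  have b7 : (-1 : ℤ) < m := by exact_mod_cast b5
  have b8 : m < 1 := by exact_mod_cast b6
  have b9 : m = 0 := by omega
  have b10 : ζ = η / Real.pi := by rw [hζ, b9]; simp
  rw [← b10, ← hm]; group

theorem exists_vec {w : Fin 2 → ℝ} (hw : w ≠ 0) : ∃ x c : ℝ, c ≠ 0 ∧ w = c • vec x := by
  have hp := Real.pi_ne_zero
  by_cases h0 : w 0 = 0
  · refine ⟨1 / 2, w 1, ?_, ?_⟩
    · intro h1
      apply hw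
      ext i
      fin_cases i
      · exact h0
      · exact h1
    · have : Real.pi * (1 / 2) = Real.pi / 2 := by ring
      ext i
      fin_cases i
      · simp only [vec, this]; simp [h0]
      · simp only [vec, this]; simp
  · set T := w 1 / w 0 with hT
    have hcos : 0 < Real.cos (Real.arctan T) := Real.cos_arctan_pos T
    have hsin : Real.sin (Real.arctan T) = T * Real.cos (Real.arctan T) := by
      have := Real.tan_arctan T
      rw [Real.tan_eq_sin_div_cos] at this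
      field_simp at this
      linarith
    refine ⟨Real.arctan T / Real.pi, w 0 / Real.cos (Real.arctan T), by positivity, ?_⟩
    have e : Real.pi * (Real.arctan T / Real.pi) = Real.arctan T := by field_simp
    ext i
    fin_cases i
    · show w 0 = w 0 / Real.cos (Real.arctan T) * Real.cos (Real.pi * (Real.arctan T / Real.pi))
      rw [e, div_mul_cancel₀ _ hcos.ne']
    · show w 1 = w 0 / Real.cos (Real.arctan T) * Real.sin (Real.pi * (Real.arctan T / Real.pi))
      rw [e, hsin]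
      have : w 0 / Real.cos (Real.arctan T) * (T * Real.cos (Real.arctan T)) = w 0 * T := by
        field_simp
      rw [this, hT]
      field_simp

theorem exists_fix {c u v : ℝ} (H : c ^ 2 + u ^ 2 - v ^ 2 = 1) (hu : 0 < u) {s : ℝ} {R : SLR}
    {P : CircleDeg1Liftˣ} (hP : (P, R * YY c u v H s * R⁻¹) ∈ Lp)
    (hb : ∀ x, x - 1 < (P : CircleDeg1Lift) x ∧ (P : CircleDeg1Lift) x < x + 1) :
    ∃ x0, (P : CircleDeg1Lift) x0 = x0 := by
  set e : Fin 2 → ℝ := ![c + v, 1 + u] with he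
  have hYe : (YY c u v H s : Matrix (Fin 2) (Fin 2) ℝ) *ᵥ e =
      (Real.cosh s + Real.sinh s) • e := by
    show !![Real.cosh s - Real.sinh s * u, Real.sinh s * (c + v); Real.sinh s * (c - v),
      Real.cosh s + Real.sinh s * u] *ᵥ ![c + v, 1 + u] = _ • ![c + v, 1 + u]
    ext i
    fin_cases i
    · simp [Matrix.mulVec, dotProduct, Fin.sum_univ_two, -Real.cosh_add_sinh,
        -Real.sinh_add_cosh]; ring
    · simp [Matrix.mulVec, dotProduct, Fin.sum_univ_two, -Real.cosh_add_sinh,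
        -Real.sinh_add_cosh]
      linear_combination Real.sinh s * H
  set w := (R : Matrix (Fin 2) (Fin 2) ℝ) *ᵥ e with hw
  have hRR : ((R⁻¹ : SLR) : Matrix (Fin 2) (Fin 2) ℝ) * (R : Matrix (Fin 2) (Fin 2) ℝ) = 1 := by
    have : R⁻¹ * R = 1 := inv_mul_cancel R
    exact congrArg Subtype.val this
  have hMw : ((R * YY c u v H s * R⁻¹ : SLR) : Matrix (Fin 2) (Fin 2) ℝ) *ᵥ w =
      (Real.cosh s + Real.sinh s) • w := by
    have e1 : ((R * YY c u v H s * R⁻¹ : SLR) : Matrix (Fin 2) (Fin 2) ℝ) =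
        (R : Matrix (Fin 2) (Fin 2) ℝ) * (YY c u v H s : Matrix (Fin 2) (Fin 2) ℝ) *
        ((R⁻¹ : SLR) : Matrix (Fin 2) (Fin 2) ℝ) := rfl
    rw [e1, hw, Matrix.mulVec_mulVec, mul_assoc, mul_assoc, hRR, mul_one, ← Matrix.mulVec_mulVec, hYe,
      Matrix.mulVec_smul]
  have hw0 : w ≠ 0 := by
    intro h0
    have h1 : ((R⁻¹ : SLR) : Matrix (Fin 2) (Fin 2) ℝ) *ᵥ w = e := by
      rw [hw, Matrix.mulVec_mulVec, hRR, Matrix.one_mulVec]
    rw [h0, Matrix.mulVec_zero] at h1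
    have := congrFun h1 1
    simp [he] at this
    linarith
  obtain ⟨x0, c0, hc0, hx0⟩ := exists_vec hw0
  obtain ⟨d, hd, h⟩ := (show Lifts P _ from hP) x0
  refine ⟨x0, ?_⟩
  have hpos : Real.cosh s + Real.sinh s ≠ 0 := by
    rw [Real.cosh_add_sinh]; positivity
  have h2 : vec x0 = ((Real.cosh s + Real.sinh s)⁻¹ * d) • vec ((P : CircleDeg1Lift) x0) := by
    have h3 : c0 • (((R * YY c u v H s * R⁻¹ : SLR) : Matrix (Fin 2) (Fin 2) ℝ) *ᵥ vec x0) =
        c0 • ((Real.cosh s + Real.sinh s) • vec x0) := by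
      rw [← Matrix.mulVec_smul, ← hx0, hMw, hx0, smul_comm]
    have h4 := smul_right_injective (Fin 2 → ℝ) hc0 h3
    rw [mul_smul, ← h, h4, smul_smul, inv_mul_cancel₀ hpos, one_smul]
  obtain ⟨m, hm⟩ := sub_int h2
  have h5 := hb x0
  have h6 : (m : ℝ) < 1 := by rw [← hm]; linarith [h5.1]
  have h7 : (-1 : ℝ) < m := by rw [← hm]; linarith [h5.2]
  have h8 : m < 1 := by exact_mod_cast h6
  have h9 : (-1 : ℤ) < m := by exact_mod_cast h7
  have h10 : m = 0 := by omega
  rw [h10] at hm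
  simp at hm
  linarith

theorem fix_zpow {P : CircleDeg1Liftˣ} {x0 : ℝ} (h : (P : CircleDeg1Lift) x0 = x0) (n : ℤ) :
    ((P ^ n : CircleDeg1Liftˣ) : CircleDeg1Lift) x0 = x0 := by
  let K : Subgroup CircleDeg1Liftˣ :=
    { carrier := {g | (g : CircleDeg1Lift) x0 = x0}
      one_mem' := rfl
      mul_mem' := by
        intro f g hf hg
        show (f : CircleDeg1Lift) ((g : CircleDeg1Lift) x0) = x0
        rw [show (g : CircleDeg1Lift) x0 = x0 from hg]; exact hf
      inv_mem' := by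
        intro g hg
        show ((g⁻¹ : CircleDeg1Liftˣ) : CircleDeg1Lift) x0 = x0
        conv_lhs => rw [← show (g : CircleDeg1Lift) x0 = x0 from hg]
        exact units_inv_apply_apply g x0 }
  exact K.zpow_mem (show P ∈ K from h) n

end Pool.Agent.L7h81.Pz
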